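import Mathlib

/-!
# Convex polyhedra without symmetries which a belt dissects into congruent halves
-/

set_option autoImplicit false
set_option linter.unusedSimpArgs false
set_option linter.unnecessarySeqFocus false

namespace Pool.Agent.Results.MP_790b9f_lc.AsymmetricHalves

open Set

/-- three-dimensional Euclidean space -/
abbrev E : Type := EuclideanSpace ℝ (Fin 3)

/-- the corners of the belt: a square -/
noncomputable def A : Fin 4 → E := ![!₂[4, 4, 0], !₂[-4, 4, 0], !₂[-4, -4, 0], !₂[4, -4, 0]]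

/-- the upper vertices, on a parabola -/
noncomputable def up (t : ℝ) : E := !₂[2 + t, 1, 3 - t ^ 2]

/-- the lower vertices, on a parabola -/
noncomputable def low (t : ℝ) : E := !₂[-1, 2 + t, -(3 - t ^ 2)]

/-- the vertices -/
def V (T : Finset ℝ) : Set E := range A ∪ (up '' T ∪ low '' T)

/-- the polyhedron -/
def P (T : Finset ℝ) : Set E := convexHull ℝ (V T)

/-- the upper half of its surface -/
def upperHalf (T : Finset ℝ) : Set E := frontier (P T) ∩ {x | 0 ≤ x 2}

/-- the lower half of its surface -/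
def lowerHalf (T : Finset ℝ) : Set E := frontier (P T) ∩ {x | x 2 ≤ 0}

/-- the union of the four edges of the square -/
def belt : Set E := ⋃ i : Fin 4, segment ℝ (A i) (A (i + 1))

/-- a half space -/
def H (a b c d : ℝ) : Set E := {x | a * x 0 + b * x 1 + c * x 2 ≤ d}

/-- the linear form -/
noncomputable def lf (a b c : ℝ) : E →L[ℝ] ℝ :=
  a • EuclideanSpace.proj (0 : Fin 3) + b • EuclideanSpace.proj (1 : Fin 3) + c • EuclideanSpace.proj (2 : Fin 3)

theorem lf_apply (a b c : ℝ) (x : E) : lf a b c x = a * x 0 + b * x 1 + c * x 2 := by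
  simp [lf]

theorem H_eq (a b c d : ℝ) : H a b c d = lf a b c ⁻¹' Iic d := by
  ext x
  simp [H, lf_apply]

theorem H_convex (a b c d : ℝ) : Convex ℝ (H a b c d) := by
  rw [H_eq]
  exact (convex_Iic d).linear_preimage (lf a b c).toLinearMap

theorem H_interior {a b c : ℝ} (h : lf a b c ≠ 0) (d : ℝ) :
    interior (H a b c d) = {x | a * x 0 + b * x 1 + c * x 2 < d} := by
  have hs : Function.Surjective (lf a b c) := by
    have : ((lf a b c : E →L[ℝ] ℝ) : E →ₗ[ℝ] ℝ) ≠ 0 := fun e => h (by ext x; simpa using LinearMap.congr_fun e x)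
    exact LinearMap.surjective this
  rw [H_eq, ContinuousLinearMap.interior_preimage _ hs, interior_Iic]
  ext x
  simp [lf_apply]

theorem lf_ne {a b c : ℝ} (h : a ≠ 0 ∨ b ≠ 0 ∨ c ≠ 0) : lf a b c ≠ 0 := by
  intro e
  have e0 := congrArg (fun l : E →L[ℝ] ℝ => l !₂[1, 0, 0]) e
  have e1 := congrArg (fun l : E →L[ℝ] ℝ => l !₂[0, 1, 0]) e
  have e2 := congrArg (fun l : E →L[ℝ] ℝ => l !₂[0, 0, 1]) e
  simp [lf_apply] at e0 e1 e2
  simp [e0, e1, e2] at h

theorem A0 : A 0 = !₂[4, 4, 0] := rfl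
theorem A1 : A 1 = !₂[-4, 4, 0] := rfl
theorem A2 : A 2 = !₂[-4, -4, 0] := rfl
theorem A3 : A 3 = !₂[4, -4, 0] := rfl

@[simp] theorem a0_0 : A 0 0 = 4 := by simp [A0]
@[simp] theorem a0_1 : A 0 1 = 4 := by simp [A0]
@[simp] theorem a0_2 : A 0 2 = 0 := by simp [A0]
@[simp] theorem a1_0 : A 1 0 = -4 := by simp [A1]
@[simp] theorem a1_1 : A 1 1 = 4 := by simp [A1]
@[simp] theorem a1_2 : A 1 2 = 0 := by simp [A1]
@[simp] theorem a2_0 : A 2 0 = -4 := by simp [A2]
@[simp] theorem a2_1 : A 2 1 = -4 := by simp [A2]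
@[simp] theorem a2_2 : A 2 2 = 0 := by simp [A2]
@[simp] theorem a3_0 : A 3 0 = 4 := by simp [A3]
@[simp] theorem a3_1 : A 3 1 = -4 := by simp [A3]
@[simp] theorem a3_2 : A 3 2 = 0 := by simp [A3]
@[simp] theorem up_0 (t : ℝ) : up t 0 = 2 + t := by simp [up]
@[simp] theorem up_1 (t : ℝ) : up t 1 = 1 := by simp [up]
@[simp] theorem up_2 (t : ℝ) : up t 2 = 3 - t ^ 2 := by simp [up]
@[simp] theorem low_0 (t : ℝ) : low t 0 = -1 := by simp [low]
@[simp] theorem low_1 (t : ℝ) : low t 1 = 2 + t := by simp [low]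
@[simp] theorem low_2 (t : ℝ) : low t 2 = -(3 - t ^ 2) := by simp [low]

/-- the column over the square -/
def Box : Set E := H 1 0 0 4 ∩ (H (-1) 0 0 4 ∩ (H 0 1 0 4 ∩ H 0 (-1) 0 4))

theorem Box_convex : Convex ℝ Box :=
  (H_convex _ _ _ _).inter ((H_convex _ _ _ _).inter ((H_convex _ _ _ _).inter (H_convex _ _ _ _)))

theorem mem_Box (x : E) : x ∈ Box ↔ x 0 ≤ 4 ∧ -4 ≤ x 0 ∧ x 1 ≤ 4 ∧ -4 ≤ x 1 := by
  simp only [Box, H, mem_inter_iff, mem_ofPred_eq]
  constructor
  · rintro ⟨h1, h2, h3, h4⟩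
    refine ⟨?_, ?_, ?_, ?_⟩ <;> linarith
  · rintro ⟨h1, h2, h3, h4⟩
    refine ⟨?_, ?_, ?_, ?_⟩ <;> linarith

/-- the admissible finite sets of parameters -/
def Ok (T : Finset ℝ) : Prop := 0 ∈ T ∧ ∀ t ∈ T, 0 ≤ t ∧ t ≤ 1 / 10

theorem A_Box (i : Fin 4) : A i ∈ Box := by
  fin_cases i
  · show A 0 ∈ Box
    rw [mem_Box]; norm_num
  · show A 1 ∈ Box
    rw [mem_Box]; norm_num
  · show A 2 ∈ Box
    rw [mem_Box]; norm_num
  · show A 3 ∈ Box
    rw [mem_Box]; norm_num

theorem A_two (i : Fin 4) : A i 2 = 0 := by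
  fin_cases i
  · exact a0_2
  · exact a1_2
  · exact a2_2
  · exact a3_2

theorem up_Box {t : ℝ} (h : 0 ≤ t ∧ t ≤ 1 / 10) : up t ∈ Box := by
  rw [mem_Box, up_0, up_1]
  obtain ⟨h1, h2⟩ := h
  refine ⟨?_, ?_, ?_, ?_⟩ <;> linarith

theorem low_Box {t : ℝ} (h : 0 ≤ t ∧ t ≤ 1 / 10) : low t ∈ Box := by
  rw [mem_Box, low_0, low_1]
  obtain ⟨h1, h2⟩ := h
  refine ⟨?_, ?_, ?_, ?_⟩ <;> linarith

theorem sq_small {t : ℝ} (h : 0 ≤ t ∧ t ≤ 1 / 10) : 0 ≤ t ^ 2 ∧ t ^ 2 ≤ 1 / 100 := by
  obtain ⟨h1, h2⟩ := h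
  constructor
  · positivity
  · nlinarith

/-- the upper half of the body -/
def C1 (T : Finset ℝ) : Set E := convexHull ℝ (range A ∪ up '' T)
/-- the lower half of the body -/
def C2 (T : Finset ℝ) : Set E := convexHull ℝ (range A ∪ low '' T)

theorem C1_sub {T : Finset ℝ} (h : Ok T) : C1 T ⊆ Box ∩ H 0 0 (-1) 0 := by
  apply convexHull_min _ (Box_convex.inter (H_convex _ _ _ _))
  rintro x (⟨i, rfl⟩ | ⟨t, ht, rfl⟩)
  · exact ⟨A_Box i, by simp [H, A_two]⟩
  · refine ⟨up_Box (h.2 t ht), ?_⟩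
    have := sq_small (h.2 t ht)
    simp only [H, mem_ofPred_eq, up_2]
    linarith

theorem C2_sub {T : Finset ℝ} (h : Ok T) : C2 T ⊆ Box ∩ H 0 0 1 0 := by
  apply convexHull_min _ (Box_convex.inter (H_convex _ _ _ _))
  rintro x (⟨i, rfl⟩ | ⟨t, ht, rfl⟩)
  · exact ⟨A_Box i, by simp [H, A_two]⟩
  · refine ⟨low_Box (h.2 t ht), ?_⟩
    have := sq_small (h.2 t ht)
    simp only [H, mem_ofPred_eq, low_2]
    linarith

theorem C1_P (T : Finset ℝ) : C1 T ⊆ P T :=
  convexHull_mono (union_subset_union_right _ subset_union_left)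

theorem C2_P (T : Finset ℝ) : C2 T ⊆ P T :=
  convexHull_mono (union_subset_union_right _ subset_union_right)

theorem quad {s : Set E} (hs : Convex ℝ s) {p q r w : E} (hp : p ∈ s) (hq : q ∈ s) (hr : r ∈ s) (hw : w ∈ s)
    {a b c d : ℝ} (ha : 0 ≤ a) (hb : 0 ≤ b) (hc : 0 ≤ c) (hd : 0 ≤ d) (h : a + b + c + d = 1) :
    a • p + b • q + c • r + d • w ∈ s := by
  have := hs.sum_mem (t := Finset.univ) (w := ![a, b, c, d]) (z := ![p, q, r, w])
    (by intro i _; fin_cases i <;> simpa) (by simpa [Fin.sum_univ_four] using h)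
    (by intro i _; fin_cases i <;> simpa)
  simpa [Fin.sum_univ_four] using this

theorem square {s : Set E} (hs : Convex ℝ s) (hA : ∀ i, A i ∈ s) {x : E} (hx : x ∈ Box) (h0 : x 2 = 0) : x ∈ s := by
  rw [mem_Box] at hx
  obtain ⟨h1, h2, h3, h4⟩ := hx
  have := quad hs (hA 0) (hA 1) (hA 2) (hA 3)
    (a := (4 + x 0) * (4 + x 1) / 64) (b := (4 - x 0) * (4 + x 1) / 64) (c := (4 - x 0) * (4 - x 1) / 64)
    (d := (4 + x 0) * (4 - x 1) / 64)
    (div_nonneg (mul_nonneg (by linarith) (by linarith)) (by norm_num))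
    (div_nonneg (mul_nonneg (by linarith) (by linarith)) (by norm_num))
    (div_nonneg (mul_nonneg (by linarith) (by linarith)) (by norm_num))
    (div_nonneg (mul_nonneg (by linarith) (by linarith)) (by norm_num)) (by ring)
  have e : x = ((4 + x 0) * (4 + x 1) / 64) • A 0 + ((4 - x 0) * (4 + x 1) / 64) • A 1 +
      ((4 - x 0) * (4 - x 1) / 64) • A 2 + ((4 + x 0) * (4 - x 1) / 64) • A 3 := by
    ext i
    fin_cases i
    · simp; ring
    · simp; ring
    · simp [h0]
  rw [e]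
  exact this

theorem cross {C D : Set E} (hC : Convex ℝ C) (hA : ∀ i, A i ∈ C) (hbC : C ⊆ Box) (hbD : D ⊆ Box) (σ : ℝ)
    (h1 : ∀ x ∈ C, 0 ≤ σ * x 2) (h2 : ∀ x ∈ D, σ * x 2 ≤ 0) (hσ : σ ≠ 0) {u v : E} (hu : u ∈ C) (hv : v ∈ D)
    {a b : ℝ} (ha : 0 ≤ a) (hb : 0 ≤ b) (hab : a + b = 1) (hx : 0 ≤ σ * (a • u + b • v) 2) :
    a • u + b • v ∈ C := by
  have hp := h1 u hu
  have hq := h2 v hv
  have e : (a • u + b • v) 2 = a * u 2 + b * v 2 := by simp
  rw [e] at hx
  rcases hp.eq_or_lt with hp0 | hp0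
  · have hu2 : u 2 = 0 := by
      rcases mul_eq_zero.1 hp0.symm with h | h
      · exact absurd h hσ
      · exact h
    rw [hu2] at hx
    have hbv : b * (σ * v 2) = 0 := le_antisymm (mul_nonpos_of_nonneg_of_nonpos hb hq) (by linarith)
    rcases mul_eq_zero.1 hbv with h | h
    · have ha1 : a = 1 := by linarith
      rw [h, ha1]
      simpa using hu
    · have hv2 : v 2 = 0 := by
        rcases mul_eq_zero.1 h with h | h
        · exact absurd h hσ
        · exact h
      exact hC hu (square hC hA (hbD hv) hv2) ha hb hab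
  · obtain ⟨p, hpe⟩ : ∃ p, p = σ * u 2 := ⟨_, rfl⟩
    obtain ⟨q, hqe⟩ : ∃ q, q = σ * v 2 := ⟨_, rfl⟩
    have hx' : 0 ≤ a * p + b * q := by
      rw [hpe, hqe]
      linarith
    rw [← hpe] at hp hp0
    rw [← hqe] at hq
    have hs : 0 < p - q := by linarith
    have hs' : p - q ≠ 0 := hs.ne'
    have hp' : p ≠ 0 := hp0.ne'
    have hm : (-q / (p - q)) • u + (p / (p - q)) • v ∈ C := by
      apply square hC hA
      · refine Box_convex (hbC hu) (hbD hv) (div_nonneg (by linarith) hs.le) (div_nonneg hp hs.le) ?_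
        rw [← add_div, div_eq_one_iff_eq hs']
        ring
      · have e1 : ((-q / (p - q)) • u + (p / (p - q)) • v) 2 = (-q / (p - q)) * u 2 + (p / (p - q)) * v 2 := by simp
        have e2 : σ * ((-q / (p - q)) * u 2 + (p / (p - q)) * v 2) = 0 := by
          have : σ * ((-q / (p - q)) * u 2 + (p / (p - q)) * v 2) =
            (-q / (p - q)) * (σ * u 2) + (p / (p - q)) * (σ * v 2) := by ring
          rw [this, ← hpe, ← hqe]
          ring
        rw [e1]
        rcases mul_eq_zero.1 e2 with h | h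
        · exact absurd h hσ
        · exact h
    have k := hC hu hm (a := (a * p + b * q) / p) (b := b * (p - q) / p)
      (div_nonneg hx' hp) (div_nonneg (mul_nonneg hb hs.le) hp) (by
        rw [← add_div, div_eq_one_iff_eq hp']
        have : a = 1 - b := by linarith
        rw [this]
        ring)
    have ea : a = (a * p + b * q) / p + b * (p - q) / p * (-q / (p - q)) := by
      field_simp
      ring
    have eb : b = b * (p - q) / p * (p / (p - q)) := by
      field_simp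
    have ex : a • u + b • v = ((a * p + b * q) / p) • u +
        (b * (p - q) / p) • ((-q / (p - q)) • u + (p / (p - q)) • v) := by
      rw [smul_add, smul_smul, smul_smul, ← add_assoc, ← add_smul, ← ea, ← eb]
    rw [ex]
    exact k

theorem P_join {T : Finset ℝ} {x : E} (hx : x ∈ P T) :
    ∃ u ∈ C1 T, ∃ v ∈ C2 T, ∃ a b : ℝ, 0 ≤ a ∧ 0 ≤ b ∧ a + b = 1 ∧ a • u + b • v = x := by
  have n1 : (C1 T).Nonempty := ⟨A 0, subset_convexHull ℝ _ (Or.inl ⟨0, rfl⟩)⟩
  have n2 : (C2 T).Nonempty := ⟨A 0, subset_convexHull ℝ _ (Or.inl ⟨0, rfl⟩)⟩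
  have hsub : P T ⊆ convexHull ℝ (C1 T ∪ C2 T) := by
    apply convexHull_mono
    rintro v (h | h | h)
    · exact Or.inl (subset_convexHull ℝ _ (Or.inl h))
    · exact Or.inl (subset_convexHull ℝ _ (Or.inr h))
    · exact Or.inr (subset_convexHull ℝ _ (Or.inr h))
  have h := hsub hx
  have hc : convexHull ℝ (C1 T ∪ C2 T) = convexJoin ℝ (C1 T) (C2 T) :=
    (convex_convexHull ℝ _).convexHull_union (convex_convexHull ℝ _) n1 n2
  rw [hc] at h
  obtain ⟨u, hu, v, hv, a, b, ha, hb, hab, e⟩ := mem_convexJoin.1 h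
  exact ⟨u, hu, v, hv, a, b, ha, hb, hab, e⟩

theorem A_C1 (T : Finset ℝ) (i : Fin 4) : A i ∈ C1 T := subset_convexHull ℝ _ (Or.inl ⟨i, rfl⟩)
theorem A_C2 (T : Finset ℝ) (i : Fin 4) : A i ∈ C2 T := subset_convexHull ℝ _ (Or.inl ⟨i, rfl⟩)

theorem mem_C1 {T : Finset ℝ} (h : Ok T) {x : E} : x ∈ C1 T ↔ x ∈ P T ∧ 0 ≤ x 2 := by
  have c1 := C1_sub h
  have c2 := C2_sub h
  constructor
  · intro hx
    refine ⟨C1_P T hx, ?_⟩
    have := (c1 hx).2
    simp only [H, mem_ofPred_eq] at this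
    linarith
  · rintro ⟨hx, h0⟩
    obtain ⟨u, hu, v, hv, a, b, ha, hb, hab, rfl⟩ := P_join hx
    refine cross (convex_convexHull ℝ _) (A_C1 T) (fun y hy => (c1 hy).1) (fun y hy => (c2 hy).1) 1 ?_ ?_
      one_ne_zero hu hv ha hb hab (by rw [one_mul]; exact h0)
    · intro y hy
      have := (c1 hy).2
      simp only [H, mem_ofPred_eq] at this
      linarith
    · intro y hy
      have := (c2 hy).2
      simp only [H, mem_ofPred_eq] at this
      linarith

theorem mem_C2 {T : Finset ℝ} (h : Ok T) {x : E} : x ∈ C2 T ↔ x ∈ P T ∧ x 2 ≤ 0 := by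
  have c1 := C1_sub h
  have c2 := C2_sub h
  constructor
  · intro hx
    refine ⟨C2_P T hx, ?_⟩
    have := (c2 hx).2
    simp only [H, mem_ofPred_eq] at this
    linarith
  · rintro ⟨hx, h0⟩
    obtain ⟨u, hu, v, hv, a, b, ha, hb, hab, rfl⟩ := P_join hx
    rw [add_comm]
    rw [add_comm] at h0
    refine cross (convex_convexHull ℝ _) (A_C2 T) (fun y hy => (c2 hy).1) (fun y hy => (c1 hy).1) (-1) ?_ ?_
      (by norm_num) hv hu hb ha (by linarith) (by linarith)
    · intro y hy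
      have := (c2 hy).2
      simp only [H, mem_ofPred_eq] at this
      linarith
    · intro y hy
      have := (c1 hy).2
      simp only [H, mem_ofPred_eq] at this
      linarith

theorem P_sub_Box {T : Finset ℝ} (h : Ok T) : P T ⊆ Box := by
  intro x hx
  rcases le_total 0 (x 2) with h0 | h0
  · exact (C1_sub h ((mem_C1 h).2 ⟨hx, h0⟩)).1
  · exact (C2_sub h ((mem_C2 h).2 ⟨hx, h0⟩)).1

theorem V_finite (T : Finset ℝ) : (V T).Finite :=
  (finite_range A).union ((T.finite_toSet.image _).union (T.finite_toSet.image _))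

theorem P_closed (T : Finset ℝ) : IsClosed (P T) :=
  ((V_finite T).isCompact_convexHull (𝕜 := ℝ)).isClosed

theorem A_P (T : Finset ℝ) (i : Fin 4) : A i ∈ P T := subset_convexHull ℝ _ (Or.inl ⟨i, rfl⟩)

theorem up_P {T : Finset ℝ} (h : Ok T) : up 0 ∈ P T := subset_convexHull ℝ _ (Or.inr (Or.inl ⟨0, h.1, rfl⟩))
theorem low_P {T : Finset ℝ} (h : Ok T) : low 0 ∈ P T := subset_convexHull ℝ _ (Or.inr (Or.inr ⟨0, h.1, rfl⟩))

theorem cone {T : Finset ℝ} {w : E} (hw : w ∈ P T) {x : E} {t : ℝ} (t0 : 0 ≤ t) (t1 : t < 1)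
    (h1 : -(4 * (1 - t)) ≤ x 0 - t * w 0) (h2 : x 0 - t * w 0 ≤ 4 * (1 - t))
    (h3 : -(4 * (1 - t)) ≤ x 1 - t * w 1) (h4 : x 1 - t * w 1 ≤ 4 * (1 - t)) (h5 : x 2 = t * w 2) :
    x ∈ P T := by
  have u : 0 < 1 - t := by linarith
  have hq : (!₂[(x 0 - t * w 0) / (1 - t), (x 1 - t * w 1) / (1 - t), 0] : E) ∈ P T := by
    apply square (convex_convexHull ℝ _) (A_P T)
    · rw [mem_Box]
      simp only [PiLp.toLp_apply, Matrix.cons_val_zero, Matrix.cons_val_one]
      refine ⟨?_, ?_, ?_, ?_⟩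
      · rw [div_le_iff₀ u]; linarith
      · rw [le_div_iff₀ u]; linarith
      · rw [div_le_iff₀ u]; linarith
      · rw [le_div_iff₀ u]; linarith
    · simp
  have := convex_convexHull ℝ _ hq hw u.le t0 (by ring)
  have e : x = (1 - t) • (!₂[(x 0 - t * w 0) / (1 - t), (x 1 - t * w 1) / (1 - t), 0] : E) + t • w := by
    have u' : (1 - t) ≠ 0 := u.ne'
    ext i
    fin_cases i
    · simp [mul_div_cancel₀ _ u']
    · simp [mul_div_cancel₀ _ u']
    · simp [h5]
  rw [e]
  exact this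

/-- a neighbourhood of the relative interior of the square -/
def N : Set E := {y | |y 0| + 2 * |y 2| < 4 ∧ |y 1| + 2 * |y 2| < 4}

theorem N_open : IsOpen N := by
  have c : ∀ i : Fin 3, Continuous fun y : E => y i := fun i => (EuclideanSpace.proj (𝕜 := ℝ) i).continuous
  apply IsOpen.inter
  · exact isOpen_lt (((c 0).abs).add (((c 2).abs).const_mul 2)) continuous_const
  · exact isOpen_lt (((c 1).abs).add (((c 2).abs).const_mul 2)) continuous_const

theorem N_sub {T : Finset ℝ} (h : Ok T) : N ⊆ P T := by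
  rintro y ⟨h1, h2⟩
  have a1 := le_abs_self (y 0)
  have a2 := neg_abs_le (y 0)
  have b1 := le_abs_self (y 1)
  have b2 := neg_abs_le (y 1)
  have c1 := le_abs_self (y 2)
  have c2 := neg_abs_le (y 2)
  rcases le_total 0 (y 2) with h0 | h0
  · rw [abs_of_nonneg h0] at h1 h2 c1 c2
    have d1 := abs_nonneg (y 0)
    refine cone (w := up 0) (up_P h) (t := y 2 / 3) (by positivity) (by linarith) ?_ ?_ ?_ ?_ ?_ <;>
      norm_num <;> linarith
  · rw [abs_of_nonpos h0] at h1 h2 c1 c2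
    have d1 := abs_nonneg (y 0)
    refine cone (w := low 0) (low_P h) (t := -y 2 / 3) (by linarith) (by linarith) ?_ ?_ ?_ ?_ ?_ <;>
      norm_num <;> linarith

theorem mem_belt (x : E) : x ∈ belt ↔ x ∈ Box ∧ x 2 = 0 ∧ (x 0 = 4 ∨ x 0 = -4 ∨ x 1 = 4 ∨ x 1 = -4) := by
  constructor
  · intro h
    obtain ⟨i, hi⟩ := mem_iUnion.1 h
    have hB : x ∈ Box := Box_convex.segment_subset (A_Box _) (A_Box _) hi
    refine ⟨hB, ?_⟩
    fin_cases i
    · change x ∈ segment ℝ (A 0) (A 1) at hi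
      obtain ⟨a, b, ha, hb, hab, rfl⟩ := hi
      refine ⟨by simp, Or.inr (Or.inr (Or.inl ?_))⟩
      simp
      linarith
    · change x ∈ segment ℝ (A 1) (A 2) at hi
      obtain ⟨a, b, ha, hb, hab, rfl⟩ := hi
      refine ⟨by simp, Or.inr (Or.inl ?_)⟩
      simp
      linarith
    · change x ∈ segment ℝ (A 2) (A 3) at hi
      obtain ⟨a, b, ha, hb, hab, rfl⟩ := hi
      refine ⟨by simp, Or.inr (Or.inr (Or.inr ?_))⟩
      simp
      linarith
    · change x ∈ segment ℝ (A 3) (A 0) at hi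
      obtain ⟨a, b, ha, hb, hab, rfl⟩ := hi
      refine ⟨by simp, Or.inl ?_⟩
      simp
      linarith
  · rintro ⟨hB, h0, h⟩
    rw [mem_Box] at hB
    obtain ⟨h1, h2, h3, h4⟩ := hB
    rcases h with h | h | h | h
    · refine mem_iUnion.2 ⟨3, ?_⟩
      change x ∈ segment ℝ (A 3) (A 0)
      refine ⟨(4 - x 1) / 8, (4 + x 1) / 8, by linarith, by linarith, by ring, ?_⟩
      ext j
      fin_cases j <;> simp [h0, h] <;> ring
    · refine mem_iUnion.2 ⟨1, ?_⟩
      change x ∈ segment ℝ (A 1) (A 2)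
      refine ⟨(4 + x 1) / 8, (4 - x 1) / 8, by linarith, by linarith, by ring, ?_⟩
      ext j
      fin_cases j <;> simp [h0, h] <;> ring
    · refine mem_iUnion.2 ⟨0, ?_⟩
      change x ∈ segment ℝ (A 0) (A 1)
      refine ⟨(4 + x 0) / 8, (4 - x 0) / 8, by linarith, by linarith, by ring, ?_⟩
      ext j
      fin_cases j <;> simp [h0, h] <;> ring
    · refine mem_iUnion.2 ⟨2, ?_⟩
      change x ∈ segment ℝ (A 2) (A 3)
      refine ⟨(4 - x 0) / 8, (4 + x 0) / 8, by linarith, by linarith, by ring, ?_⟩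
      ext j
      fin_cases j <;> simp [h0, h] <;> ring

theorem not_interior {T : Finset ℝ} (h : Ok T) {x : E} (hx : x 0 = 4 ∨ x 0 = -4 ∨ x 1 = 4 ∨ x 1 = -4) :
    x ∉ interior (P T) := by
  intro hI
  have hI' := interior_mono (P_sub_Box h) hI
  simp only [Box, interior_inter] at hI'
  rw [H_interior (lf_ne (by norm_num)), H_interior (lf_ne (by norm_num)), H_interior (lf_ne (by norm_num)),
    H_interior (lf_ne (by norm_num))] at hI'
  obtain ⟨h1, h2, h3, h4⟩ := hI'
  simp only [mem_ofPred_eq] at h1 h2 h3 h4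
  rcases hx with h | h | h | h <;> linarith

theorem frontier_zero {T : Finset ℝ} (h : Ok T) {x : E} (h0 : x 2 = 0) : x ∈ frontier (P T) ↔ x ∈ belt := by
  rw [(P_closed T).frontier_eq, mem_belt]
  constructor
  · rintro ⟨hP, hI⟩
    have hB := P_sub_Box h hP
    refine ⟨hB, h0, ?_⟩
    by_contra hcon
    simp only [not_or] at hcon
    obtain ⟨n1, n2, n3, n4⟩ := hcon
    rw [mem_Box] at hB
    obtain ⟨h1, h2, h3, h4⟩ := hB
    apply hI
    apply interior_maximal (N_sub h) N_open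
    have k0 : |x 0| < 4 := abs_lt.2 ⟨lt_of_le_of_ne h2 (Ne.symm n2), lt_of_le_of_ne h1 n1⟩
    have k1 : |x 1| < 4 := abs_lt.2 ⟨lt_of_le_of_ne h4 (Ne.symm n4), lt_of_le_of_ne h3 n3⟩
    refine ⟨?_, ?_⟩ <;> rw [h0, abs_zero] <;> linarith
  · rintro ⟨hB, -, hx⟩
    exact ⟨square (convex_convexHull ℝ _) (A_P T) hB h0, not_interior h hx⟩

theorem halves_union (T : Finset ℝ) : upperHalf T ∪ lowerHalf T = frontier (P T) := by
  rw [upperHalf, lowerHalf, ← inter_union_distrib_left, inter_eq_left]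
  intro x _
  exact le_total 0 (x 2)

theorem halves_inter {T : Finset ℝ} (h : Ok T) : upperHalf T ∩ lowerHalf T = belt := by
  ext x
  constructor
  · rintro ⟨⟨h1, h2⟩, -, h3⟩
    exact (frontier_zero h (le_antisymm h3 h2)).1 h1
  · intro hx
    have h0 := ((mem_belt x).1 hx).2.1
    have hf := (frontier_zero h h0).2 hx
    exact ⟨⟨hf, h0.ge⟩, hf, h0.le⟩

/-- the rotoreflection of order four -/
noncomputable def G : E →ₗ[ℝ] E where
  toFun x := !₂[-x 1, x 0, -x 2]
  map_add' x y := by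
    ext j
    fin_cases j <;> simp <;> ring
  map_smul' c x := by
    ext j
    fin_cases j <;> simp

theorem G_apply (x : E) : G x = !₂[-x 1, x 0, -x 2] := rfl
@[simp] theorem G_0 (x : E) : G x 0 = -x 1 := by simp [G_apply]
@[simp] theorem G_1 (x : E) : G x 1 = x 0 := by simp [G_apply]
@[simp] theorem G_2 (x : E) : G x 2 = -x 2 := by simp [G_apply]

/-- the rotoreflection as an isometry -/
noncomputable def g : E ≃ᵢ E where
  toFun x := G x
  invFun x := !₂[x 1, -x 0, -x 2]
  left_inv x := by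
    ext j
    fin_cases j <;> simp
  right_inv x := by
    ext j
    fin_cases j <;> simp
  isometry_toFun := by
    apply Isometry.of_dist_eq
    intro x y
    rw [EuclideanSpace.dist_eq, EuclideanSpace.dist_eq, Fin.sum_univ_three, Fin.sum_univ_three]
    simp only [Real.dist_eq, sq_abs]
    congr 1
    simp
    ring

theorem g_apply (x : E) : g x = G x := rfl

theorem G_A (i : Fin 4) : G (A i) = A (i + 1) := by
  fin_cases i <;> ext j <;> fin_cases j <;> simp [G_apply, A0, A1, A2, A3]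

theorem G_up (t : ℝ) : G (up t) = low t := by
  ext j
  fin_cases j <;> simp

theorem g_C1 (T : Finset ℝ) : g '' C1 T = C2 T := by
  have e : (fun x => G x) '' convexHull ℝ (range A ∪ up '' T) = convexHull ℝ (G '' (range A ∪ up '' T)) :=
    LinearMap.image_convexHull G _
  show (fun x => G x) '' C1 T = C2 T
  rw [C1, e, C2, image_union]
  congr 2
  · ext x
    constructor
    · rintro ⟨_, ⟨i, rfl⟩, rfl⟩
      exact ⟨i + 1, (G_A i).symm⟩
    · rintro ⟨i, rfl⟩
      refine ⟨_, ⟨i - 1, rfl⟩, ?_⟩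
      rw [G_A, sub_add_cancel]
  · rw [← image_comp]
    exact image_congr (fun t _ => G_up t)

theorem g_P {T : Finset ℝ} (h : Ok T) {x : E} (h0 : 0 ≤ x 2) : g x ∈ P T ↔ x ∈ P T := by
  have h1 : g x ∈ C2 T ↔ x ∈ C1 T := by
    rw [← g_C1]
    exact g.injective.mem_set_image
  rw [mem_C1 h, mem_C2 h] at h1
  have h2 : (g x) 2 ≤ 0 := by
    rw [g_apply, G_2]
    linarith
  tauto

theorem g_frontier {T : Finset ℝ} (h : Ok T) {x : E} (h0 : 0 ≤ x 2) :
    g x ∈ frontier (P T) ↔ x ∈ frontier (P T) := by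
  rcases h0.eq_or_lt with h0 | h0
  · have h2 : (g x) 2 = 0 := by
      rw [g_apply, G_2]
      linarith
    rw [frontier_zero h h0.symm, frontier_zero h h2, mem_belt, mem_belt, mem_Box, mem_Box]
    simp only [g_apply, G_0, G_1, G_2]
    constructor
    · rintro ⟨⟨h1, h2, h3, h4⟩, h5, h6⟩
      refine ⟨⟨by linarith, by linarith, by linarith, by linarith⟩, by linarith, ?_⟩
      rcases h6 with h | h | h | h
      · exact Or.inr (Or.inr (Or.inr (by linarith)))
      · exact Or.inr (Or.inr (Or.inl (by linarith)))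
      · exact Or.inl (by linarith)
      · exact Or.inr (Or.inl (by linarith))
    · rintro ⟨⟨h1, h2, h3, h4⟩, h5, h6⟩
      refine ⟨⟨by linarith, by linarith, by linarith, by linarith⟩, by linarith, ?_⟩
      rcases h6 with h | h | h | h
      · exact Or.inr (Or.inr (Or.inl (by linarith)))
      · exact Or.inr (Or.inr (Or.inr (by linarith)))
      · exact Or.inr (Or.inl (by linarith))
      · exact Or.inl (by linarith)
  · have hO : IsOpen {x : E | 0 < x 2} :=
      isOpen_lt continuous_const (EuclideanSpace.proj (𝕜 := ℝ) (2 : Fin 3)).continuous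
    have e : g ⁻¹' P T ∩ {x : E | 0 < x 2} = P T ∩ {x : E | 0 < x 2} := by
      ext y
      constructor
      · rintro ⟨h1, h2⟩
        exact ⟨(g_P h (le_of_lt h2)).1 h1, h2⟩
      · rintro ⟨h1, h2⟩
        exact ⟨(g_P h (le_of_lt h2)).2 h1, h2⟩
    have e2 := congrArg interior e
    rw [interior_inter, interior_inter, hO.interior_eq] at e2
    have e3 : g ⁻¹' interior (P T) = interior (g ⁻¹' P T) := g.toHomeomorph.preimage_interior (P T)
    rw [← e3] at e2
    have e4 : g x ∈ interior (P T) ↔ x ∈ interior (P T) := by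
      have := Set.ext_iff.1 e2 x
      simp only [mem_inter_iff, mem_preimage] at this
      have h0' : x ∈ {x : E | 0 < x 2} := h0
      tauto
    rw [(P_closed T).frontier_eq, mem_sdiff, mem_sdiff, e4, g_P h h0.le]

theorem g_halves {T : Finset ℝ} (h : Ok T) : g '' upperHalf T = lowerHalf T := by
  ext y
  constructor
  · rintro ⟨x, ⟨h1, h2⟩, rfl⟩
    refine ⟨(g_frontier h h2).2 h1, ?_⟩
    show (g x) 2 ≤ 0
    rw [g_apply, G_2]
    have : 0 ≤ x 2 := h2
    linarith
  · rintro ⟨h1, h2⟩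
    have h3 : 0 ≤ (g.symm y) 2 := by
      have e : g (g.symm y) = y := g.apply_symm_apply y
      have e2 := congrArg (fun z : E => z 2) e
      rw [g_apply] at e2
      simp only [G_2] at e2
      have : y 2 ≤ 0 := h2
      linarith
    refine ⟨g.symm y, ⟨(g_frontier h h3).1 ?_, h3⟩, g.apply_symm_apply y⟩
    rw [g.apply_symm_apply]
    exact h1

theorem expo {T : Finset ℝ} {v : E} (hv : v ∈ V T) (l : E →L[ℝ] ℝ) (h : ∀ u ∈ V T, u ≠ v → l u < l v)
    (hne : (V T \ {v}).Nonempty) : v ∈ (P T).extremePoints ℝ := by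
  have key : ∀ y ∈ P T, l y ≤ l v ∧ (l y = l v → y = v) := by
    intro y hy
    have hV : V T = insert v (V T \ {v}) := by
      rw [insert_sdiff_singleton, insert_eq_of_mem hv]
    rw [P, hV, convexHull_insert hne] at hy
    obtain ⟨a, ha, b, hb, hyab⟩ := mem_convexJoin.1 hy
    rw [mem_singleton_iff] at ha
    subst ha
    have hlb : l b < l a := by
      have hc : Convex ℝ (l ⁻¹' Iio (l a)) := (convex_Iio (l a)).linear_preimage l.toLinearMap
      exact convexHull_min (fun u hu => h u hu.1 hu.2) hc hb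
    obtain ⟨α, β, h1, h2, h3, rfl⟩ := hyab
    have e : l (α • a + β • b) = l a - β * (l a - l b) := by
      rw [map_add, map_smul, map_smul, smul_eq_mul, smul_eq_mul]
      have : α = 1 - β := by linarith
      rw [this]
      ring
    rw [e]
    refine ⟨by nlinarith [mul_nonneg h2 (sub_nonneg.2 hlb.le)], fun e' => ?_⟩
    have h4 : β * (l a - l b) = 0 := by linarith
    have h5 : β = 0 := by
      rcases mul_eq_zero.1 h4 with h5 | h5
      · exact h5
      · linarith
    have h6 : α = 1 := by linarith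
    rw [h5, h6]
    simp
  refine mem_extremePoints.2 ⟨subset_convexHull ℝ _ hv, fun x₁ h₁ x₂ h₂ hx => ?_⟩
  obtain ⟨a, b, ha, hb, hab, e⟩ := hx
  have e1 : a * l x₁ + b * l x₂ = l v := by
    rw [← e, map_add, map_smul, map_smul, smul_eq_mul, smul_eq_mul]
  have k1 := key x₁ h₁
  have k2 := key x₂ h₂
  have m1 := mul_nonneg ha.le (sub_nonneg.2 k1.1)
  have m2 := mul_nonneg hb.le (sub_nonneg.2 k2.1)
  have m3 : a * (l v - l x₁) + b * (l v - l x₂) = 0 := by
    have : a * l v + b * l v = l v := by rw [← add_mul, hab, one_mul]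
    linarith
  have m4 : a * (l v - l x₁) = 0 := by linarith
  have m5 : b * (l v - l x₂) = 0 := by linarith
  refine ⟨k1.2 ?_, k2.2 ?_⟩
  · rcases mul_eq_zero.1 m4 with h | h
    · exact absurd h ha.ne'
    · linarith
  · rcases mul_eq_zero.1 m5 with h | h
    · exact absurd h hb.ne'
    · linarith

theorem lt_at {v w : E} {a b c : ℝ} (h : a * v 0 + b * v 1 + c * v 2 < a * w 0 + b * w 1 + c * w 2) :
    lf a b c v < lf a b c w := by
  rwa [lf_apply, lf_apply]

theorem A_V (T : Finset ℝ) (i : Fin 4) : A i ∈ V T := Or.inl ⟨i, rfl⟩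

theorem ne_nonempty {T : Finset ℝ} (v : E) : (V T \ {v}).Nonempty := by
  by_cases h : A 0 = v
  · refine ⟨A 1, A_V T 1, fun e => ?_⟩
    rw [mem_singleton_iff, ← h] at e
    have := congrArg (fun x : E => x 0) e
    norm_num at this
  · exact ⟨A 0, A_V T 0, h⟩

theorem A_cases {p : E → Prop} (h0 : p (A 0)) (h1 : p (A 1)) (h2 : p (A 2)) (h3 : p (A 3)) : ∀ i, p (A i) := by
  intro i
  fin_cases i
  exacts [h0, h1, h2, h3]

theorem V_cases {T : Finset ℝ} {p : E → Prop} (h0 : p (A 0)) (h1 : p (A 1)) (h2 : p (A 2)) (h3 : p (A 3))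
    (hu : ∀ t ∈ T, p (up t)) (hl : ∀ t ∈ T, p (low t)) : ∀ v ∈ V T, p v := by
  rintro v (⟨i, rfl⟩ | ⟨t, ht, rfl⟩ | ⟨t, ht, rfl⟩)
  · exact A_cases h0 h1 h2 h3 i
  · exact hu t ht
  · exact hl t ht

theorem ext_P {T : Finset ℝ} (h : Ok T) : (P T).extremePoints ℝ = V T := by
  apply Subset.antisymm extremePoints_convexHull_subset
  refine V_cases ?_ ?_ ?_ ?_ ?_ ?_
  · refine expo (A_V T 0) (lf 1 1 0) (V_cases ?_ ?_ ?_ ?_ ?_ ?_) (ne_nonempty _)
    · exact fun e => absurd rfl e
    · exact fun _ => lt_at (by norm_num)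
    · exact fun _ => lt_at (by norm_num)
    · exact fun _ => lt_at (by norm_num)
    · intro t ht _
      have := (h.2 t ht).2
      apply lt_at
      norm_num
      linarith
    · intro t ht _
      have := (h.2 t ht).2
      apply lt_at
      norm_num
      linarith
  · refine expo (A_V T 1) (lf (-1) 1 0) (V_cases ?_ ?_ ?_ ?_ ?_ ?_) (ne_nonempty _)
    · exact fun _ => lt_at (by norm_num)
    · exact fun e => absurd rfl e
    · exact fun _ => lt_at (by norm_num)
    · exact fun _ => lt_at (by norm_num)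
    · intro t ht _
      have := (h.2 t ht).1
      apply lt_at
      norm_num
      linarith
    · intro t ht _
      have := (h.2 t ht).2
      apply lt_at
      norm_num
      linarith
  · refine expo (A_V T 2) (lf (-1) (-1) 0) (V_cases ?_ ?_ ?_ ?_ ?_ ?_) (ne_nonempty _)
    · exact fun _ => lt_at (by norm_num)
    · exact fun _ => lt_at (by norm_num)
    · exact fun e => absurd rfl e
    · exact fun _ => lt_at (by norm_num)
    · intro t ht _
      have := (h.2 t ht).1
      apply lt_at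
      norm_num
      linarith
    · intro t ht _
      have := (h.2 t ht).1
      apply lt_at
      norm_num
      linarith
  · refine expo (A_V T 3) (lf 1 (-1) 0) (V_cases ?_ ?_ ?_ ?_ ?_ ?_) (ne_nonempty _)
    · exact fun _ => lt_at (by norm_num)
    · exact fun _ => lt_at (by norm_num)
    · exact fun _ => lt_at (by norm_num)
    · exact fun e => absurd rfl e
    · intro t ht _
      have := (h.2 t ht).2
      apply lt_at
      norm_num
      linarith
    · intro t ht _
      have := (h.2 t ht).1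
      apply lt_at
      norm_num
      linarith
  · intro s hs
    have hs1 := h.2 s hs
    have hs2 := sq_small hs1
    refine expo (Or.inr (Or.inl ⟨s, hs, rfl⟩)) (lf (2 * s) 0 1) (V_cases ?_ ?_ ?_ ?_ ?_ ?_) (ne_nonempty _)
    · exact fun _ => lt_at (by simp only [a0_0, a0_1, a0_2, up_0, up_1, up_2]; nlinarith)
    · exact fun _ => lt_at (by simp only [a1_0, a1_1, a1_2, up_0, up_1, up_2]; nlinarith)
    · exact fun _ => lt_at (by simp only [a2_0, a2_1, a2_2, up_0, up_1, up_2]; nlinarith)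
    · exact fun _ => lt_at (by simp only [a3_0, a3_1, a3_2, up_0, up_1, up_2]; nlinarith)
    · intro t ht hne
      have hst : s - t ≠ 0 := fun e => hne (by rw [sub_eq_zero.1 e])
      have := pow_pos (abs_pos.2 hst) 2
      rw [sq_abs] at this
      apply lt_at
      simp only [up_0, up_1, up_2]
      nlinarith
    · intro t ht _
      have ht1 := h.2 t ht
      have ht2 := sq_small ht1
      apply lt_at
      simp only [up_0, up_1, up_2, low_0, low_1, low_2]
      nlinarith
  · intro s hs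
    have hs1 := h.2 s hs
    have hs2 := sq_small hs1
    refine expo (Or.inr (Or.inr ⟨s, hs, rfl⟩)) (lf 0 (2 * s) (-1)) (V_cases ?_ ?_ ?_ ?_ ?_ ?_) (ne_nonempty _)
    · exact fun _ => lt_at (by simp only [a0_0, a0_1, a0_2, low_0, low_1, low_2]; nlinarith)
    · exact fun _ => lt_at (by simp only [a1_0, a1_1, a1_2, low_0, low_1, low_2]; nlinarith)
    · exact fun _ => lt_at (by simp only [a2_0, a2_1, a2_2, low_0, low_1, low_2]; nlinarith)
    · exact fun _ => lt_at (by simp only [a3_0, a3_1, a3_2, low_0, low_1, low_2]; nlinarith)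
    · intro t ht _
      have ht1 := h.2 t ht
      have ht2 := sq_small ht1
      apply lt_at
      simp only [up_0, up_1, up_2, low_0, low_1, low_2]
      nlinarith
    · intro t ht hne
      have hst : s - t ≠ 0 := fun e => hne (by rw [sub_eq_zero.1 e])
      have := pow_pos (abs_pos.2 hst) 2
      rw [sq_abs] at this
      apply lt_at
      simp only [low_0, low_1, low_2]
      nlinarith

theorem ne_of_coord {v w : E} (h : v 0 ≠ w 0 ∨ v 1 ≠ w 1 ∨ v 2 ≠ w 2) : v ≠ w := by
  rintro rfl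
  simp at h

theorem A_card : (range A).ncard = 4 := by
  have e : range A = {A 0, A 1, A 2, A 3} := by
    apply Subset.antisymm
    · rintro _ ⟨i, rfl⟩
      exact A_cases (p := fun v => v ∈ ({A 0, A 1, A 2, A 3} : Set E)) (by simp) (by simp) (by simp) (by simp) i
    · rintro v (rfl | rfl | rfl | rfl) <;> exact ⟨_, rfl⟩
  rw [e, ncard_insert_of_notMem, ncard_insert_of_notMem, ncard_insert_of_notMem, ncard_singleton]
  · exact ne_of_coord (by norm_num)
  · rintro (h | h) <;> exact ne_of_coord (by norm_num) h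
  · rintro (h | h | h) <;> exact ne_of_coord (by norm_num) h

theorem up_inj : Function.Injective up := fun s t e => by
  have := congrArg (fun x : E => x 0) e
  simpa using this

theorem low_inj : Function.Injective low := fun s t e => by
  have := congrArg (fun x : E => x 1) e
  simpa using this

theorem V_card {T : Finset ℝ} (h : Ok T) : (V T).ncard = 4 + 2 * T.card := by
  have d1 : Disjoint (up '' (T : Set ℝ)) (low '' (T : Set ℝ)) := by
    rw [Set.disjoint_left]
    rintro _ ⟨s, hs, rfl⟩ ⟨t, ht, e⟩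
    have := congrArg (fun x : E => x 2) e
    have := sq_small (h.2 s hs)
    have := sq_small (h.2 t ht)
    simp only [up_2, low_2] at *
    linarith
  have d2 : Disjoint (range A) (up '' (T : Set ℝ) ∪ low '' (T : Set ℝ)) := by
    rw [Set.disjoint_left]
    rintro _ ⟨i, rfl⟩ (⟨t, ht, e⟩ | ⟨t, ht, e⟩)
    · have := congrArg (fun x : E => x 2) e
      have := sq_small (h.2 t ht)
      simp only [up_2, A_two] at *
      linarith
    · have := congrArg (fun x : E => x 2) e
      have := sq_small (h.2 t ht)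
      simp only [low_2, A_two] at *
      linarith
  rw [V, ncard_union_eq d2 (finite_range A) ((T.finite_toSet.image _).union (T.finite_toSet.image _)),
    ncard_union_eq d1 (T.finite_toSet.image _) (T.finite_toSet.image _), ncard_image_of_injective _ up_inj,
    ncard_image_of_injective _ low_inj, A_card, ncard_coe_finset]
  ring

/-- the squared distance -/
noncomputable def d2 (x y : E) : ℝ := (x 0 - y 0) ^ 2 + (x 1 - y 1) ^ 2 + (x 2 - y 2) ^ 2

theorem dist_sq (x y : E) : dist x y ^ 2 = d2 x y := by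
  rw [EuclideanSpace.dist_eq, Real.sq_sqrt (by positivity), Fin.sum_univ_three]
  simp only [Real.dist_eq, sq_abs, d2]

theorem d2_map (f : E ≃ᵢ E) (x y : E) : d2 (f x) (f y) = d2 x y := by
  rw [← dist_sq, ← dist_sq, f.dist_eq]

theorem map_V {T : Finset ℝ} (hT : Ok T) (f : E ≃ᵢ E) (h : f '' P T = P T) {v : E} (hv : v ∈ V T) : f v ∈ V T := by
  rw [← ext_P hT] at hv ⊢
  rw [mem_extremePoints] at hv ⊢
  refine ⟨h ▸ mem_image_of_mem f hv.1, fun x₁ h₁ x₂ h₂ hx => ?_⟩
  rw [← h] at h₁ h₂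
  obtain ⟨y₁, h₁, rfl⟩ := h₁
  obtain ⟨y₂, h₂, rfl⟩ := h₂
  have e := image_openSegment ℝ (f.toRealAffineIsometryEquiv.toAffineEquiv.toAffineMap) y₁ y₂
  have c : ∀ z, f.toRealAffineIsometryEquiv.toAffineEquiv.toAffineMap z = f z := fun z => by
    simp
  rw [c, c] at e
  rw [← e] at hx
  obtain ⟨z, hz, hzv⟩ := hx
  rw [c] at hzv
  have : z = v := f.injective hzv
  subst this
  have := hv.2 y₁ h₁ y₂ h₂ hz
  rw [this.1, this.2]
  exact ⟨rfl, rfl⟩

theorem symm_P {T : Finset ℝ} (f : E ≃ᵢ E) (h : f '' P T = P T) : f.symm '' P T = P T := by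
  conv_lhs => rw [← h]
  rw [← image_comp]
  simp

theorem q_bd {t : ℝ} (h : 0 ≤ t ∧ t ≤ 1 / 10) : (3 - t ^ 2) ^ 2 ≤ 9 ∧ 8 ≤ (3 - t ^ 2) ^ 2 := by
  have := sq_small h
  constructor <;> nlinarith

theorem up_far {T : Finset ℝ} (h : Ok T) {s : ℝ} (hs : s ∈ T) : ∀ u ∈ V T, d2 (up s) u < 128 := by
  have hs1 := h.2 s hs
  have hs2 := sq_small hs1
  have hs3 := q_bd hs1
  refine V_cases ?_ ?_ ?_ ?_ ?_ ?_
  · simp only [d2, up_0, up_1, up_2, a0_0, a0_1, a0_2]; nlinarith
  · simp only [d2, up_0, up_1, up_2, a1_0, a1_1, a1_2]; nlinarith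
  · simp only [d2, up_0, up_1, up_2, a2_0, a2_1, a2_2]; nlinarith
  · simp only [d2, up_0, up_1, up_2, a3_0, a3_1, a3_2]; nlinarith
  · intro t ht
    have ht1 := h.2 t ht
    have ht2 := sq_small ht1
    simp only [d2, up_0, up_1, up_2]; nlinarith
  · intro t ht
    have ht1 := h.2 t ht
    have ht2 := sq_small ht1
    simp only [d2, up_0, up_1, up_2, low_0, low_1, low_2]; nlinarith

theorem low_far {T : Finset ℝ} (h : Ok T) {s : ℝ} (hs : s ∈ T) : ∀ u ∈ V T, d2 (low s) u < 128 := by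
  have hs1 := h.2 s hs
  have hs2 := sq_small hs1
  have hs3 := q_bd hs1
  refine V_cases ?_ ?_ ?_ ?_ ?_ ?_
  · simp only [d2, low_0, low_1, low_2, a0_0, a0_1, a0_2]; nlinarith
  · simp only [d2, low_0, low_1, low_2, a1_0, a1_1, a1_2]; nlinarith
  · simp only [d2, low_0, low_1, low_2, a2_0, a2_1, a2_2]; nlinarith
  · simp only [d2, low_0, low_1, low_2, a3_0, a3_1, a3_2]; nlinarith
  · intro t ht
    have ht1 := h.2 t ht
    have ht2 := sq_small ht1
    simp only [d2, up_0, up_1, up_2, low_0, low_1, low_2]; nlinarith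
  · intro t ht
    have ht1 := h.2 t ht
    have ht2 := sq_small ht1
    simp only [d2, low_0, low_1, low_2]; nlinarith

theorem opp (i : Fin 4) : d2 (A i) (A (i + 2)) = 128 := by
  fin_cases i
  · show d2 (A 0) (A 2) = 128
    norm_num [d2]
  · show d2 (A 1) (A 3) = 128
    norm_num [d2]
  · show d2 (A 2) (A 0) = 128
    norm_num [d2]
  · show d2 (A 3) (A 1) = 128
    norm_num [d2]

theorem f_A {T : Finset ℝ} (hT : Ok T) (f : E ≃ᵢ E) (h : f '' P T = P T) (i : Fin 4) : f (A i) ∈ range A := by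
  have h1 := map_V hT f h (A_V T i)
  have h2 := map_V hT f h (A_V T (i + 2))
  have h3 : d2 (f (A i)) (f (A (i + 2))) = 128 := by rw [d2_map, opp]
  rcases h1 with h1 | ⟨t, ht, h1⟩ | ⟨t, ht, h1⟩
  · exact h1
  · have := up_far hT ht _ h2
    rw [h1, h3] at this
    norm_num at this
  · have := low_far hT ht _ h2
    rw [h1, h3] at this
    norm_num at this

theorem f_not {T : Finset ℝ} (hT : Ok T) (f : E ≃ᵢ E) (h : f '' P T = P T) {v : E} (hv : v ∈ V T)
    (h2 : v 2 ≠ 0) : (∃ t ∈ T, f v = up t) ∨ ∃ t ∈ T, f v = low t := by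
  rcases map_V hT f h hv with ⟨i, h1⟩ | ⟨t, ht, h1⟩ | ⟨t, ht, h1⟩
  · exfalso
    obtain ⟨j, hj⟩ := f_A hT f.symm (symm_P f h) i
    rw [h1, f.symm_apply_apply] at hj
    apply h2
    rw [← hj, A_two]
  · exact Or.inl ⟨t, ht, h1.symm⟩
  · exact Or.inr ⟨t, ht, h1.symm⟩

theorem fix {f : E ≃ᵢ E} (h0 : f (A 0) = A 0) (h1 : f (A 1) = A 1) (h2 : f (A 2) = A 2)
    (hU : ∃ t, f (up 0) = up t) (x : E) : f x = x := by
  have k : ∀ x, f x 0 = x 0 ∧ f x 1 = x 1 := by
    intro x
    have e0 := d2_map f x (A 0)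
    have e1 := d2_map f x (A 1)
    have e2 := d2_map f x (A 2)
    rw [h0] at e0
    rw [h1] at e1
    rw [h2] at e2
    simp only [d2, a0_0, a0_1, a0_2] at e0
    simp only [d2, a1_0, a1_1, a1_2] at e1
    simp only [d2, a2_0, a2_1, a2_2] at e2
    constructor <;> linarith
  have hU' : f (up 0) = up 0 := by
    obtain ⟨t, ht⟩ := hU
    have := (k (up 0)).1
    rw [ht] at this
    simp only [up_0, add_zero] at this
    have t0 : t = 0 := by linarith
    rw [ht, t0]
  have e0 := d2_map f x (A 0)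
  have e3 := d2_map f x (up 0)
  rw [h0] at e0
  rw [hU'] at e3
  simp only [d2, a0_0, a0_1, a0_2] at e0
  simp only [d2, up_0, up_1, up_2] at e3
  obtain ⟨k0, k1⟩ := k x
  rw [k0, k1] at e0 e3
  have k2 : f x 2 = x 2 := by linarith
  ext j
  fin_cases j
  · exact k0
  · exact k1
  · exact k2

theorem sym {T : Finset ℝ} (hT : Ok T) (f : E ≃ᵢ E) (h : f '' P T = P T) : f = IsometryEquiv.refl E := by
  have hU : up 0 ∈ V T := Or.inr (Or.inl ⟨0, hT.1, rfl⟩)
  have hL : low 0 ∈ V T := Or.inr (Or.inr ⟨0, hT.1, rfl⟩)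
  have q0 : d2 (f (up 0)) (f (A 0)) = 22 := by
    rw [d2_map]
    norm_num [d2]
  have q1 : d2 (f (up 0)) (f (A 1)) = 54 := by
    rw [d2_map]
    norm_num [d2]
  have q2 : d2 (f (up 0)) (f (A 2)) = 70 := by
    rw [d2_map]
    norm_num [d2]
  have q3 : d2 (f (low 0)) (f (A 1)) = 22 := by
    rw [d2_map]
    norm_num [d2]
  rcases f_not hT f h hU (by norm_num) with ⟨t, ht, e⟩ | ⟨t, ht, e⟩
  · rw [e] at q0 q1 q2
    have ht1 := hT.2 t ht
    have ht3 := q_bd ht1
    have p0 : f (A 0) = A 0 := by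
      obtain ⟨i, hi⟩ := f_A hT f h 0
      rw [← hi] at q0 ⊢
      revert q0
      revert i
      intro i _
      refine A_cases (p := fun v => d2 (up t) v = 22 → v = A 0) ?_ ?_ ?_ ?_ i
      · exact fun _ => rfl
      all_goals
        intro q
        exfalso
        simp only [d2, up_0, up_1, up_2, a1_0, a1_1, a1_2, a2_0, a2_1, a2_2, a3_0, a3_1, a3_2] at q
        nlinarith
    have p1 : f (A 1) = A 1 := by
      obtain ⟨i, hi⟩ := f_A hT f h 1
      rw [← hi] at q1 ⊢
      revert q1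
      revert i
      intro i _
      refine A_cases (p := fun v => d2 (up t) v = 54 → v = A 1) ?_ ?_ ?_ ?_ i
      on_goal 2 => exact fun _ => rfl
      all_goals
        intro q
        exfalso
        simp only [d2, up_0, up_1, up_2, a0_0, a0_1, a0_2, a2_0, a2_1, a2_2, a3_0, a3_1, a3_2] at q
        nlinarith
    have p2 : f (A 2) = A 2 := by
      obtain ⟨i, hi⟩ := f_A hT f h 2
      rw [← hi] at q2 ⊢
      revert q2
      revert i
      intro i _
      refine A_cases (p := fun v => d2 (up t) v = 70 → v = A 2) ?_ ?_ ?_ ?_ i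
      on_goal 3 => exact fun _ => rfl
      all_goals
        intro q
        exfalso
        simp only [d2, up_0, up_1, up_2, a0_0, a0_1, a0_2, a1_0, a1_1, a1_2, a3_0, a3_1, a3_2] at q
        nlinarith
    ext x : 1
    exact fix p0 p1 p2 ⟨t, e⟩ x
  · exfalso
    rw [e] at q1
    have ht1 := hT.2 t ht
    have ht3 := q_bd ht1
    have p1 : f (A 1) = A 2 := by
      obtain ⟨i, hi⟩ := f_A hT f h 1
      rw [← hi] at q1 ⊢
      revert q1
      revert i
      intro i _
      refine A_cases (p := fun v => d2 (low t) v = 54 → v = A 2) ?_ ?_ ?_ ?_ i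
      on_goal 3 => exact fun _ => rfl
      all_goals
        intro q
        exfalso
        simp only [d2, low_0, low_1, low_2, a0_0, a0_1, a0_2, a1_0, a1_1, a1_2, a3_0, a3_1, a3_2] at q
        nlinarith
    rw [p1] at q3
    rcases f_not hT f h hL (by norm_num) with ⟨s, hs, e'⟩ | ⟨s, hs, e'⟩
    · rw [e'] at q3
      have hs1 := hT.2 s hs
      have hs3 := q_bd hs1
      simp only [d2, up_0, up_1, up_2, a2_0, a2_1, a2_2] at q3
      nlinarith
    · rw [e'] at q3
      have hs1 := hT.2 s hs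
      have hs3 := q_bd hs1
      simp only [d2, low_0, low_1, low_2, a2_0, a2_1, a2_2] at q3
      nlinarith

theorem V_frontier {T : Finset ℝ} (h : Ok T) : V T ⊆ frontier (P T) := by
  intro v hv
  rw [(P_closed T).frontier_eq]
  refine ⟨subset_convexHull ℝ _ hv, fun hI => ?_⟩
  rw [← ext_P h] at hv
  obtain ⟨ε, he, hb⟩ := Metric.isOpen_iff.1 isOpen_interior v hI
  obtain ⟨e, hne⟩ : ∃ e : E, e ≠ 0 := exists_ne 0
  obtain ⟨c, hc0, hc⟩ : ∃ c : ℝ, 0 < c ∧ ‖c • e‖ < ε := by
    refine ⟨ε / (2 * ‖e‖), by positivity, ?_⟩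
    have hn : 0 < ‖e‖ := norm_pos_iff.2 hne
    rw [norm_smul, Real.norm_of_nonneg (by positivity)]
    have : ε / (2 * ‖e‖) * ‖e‖ = ε / 2 := by
      field_simp
    rw [this]
    linarith
  have h1 : v + c • e ∈ P T := interior_subset (hb (by simpa [Metric.mem_ball, dist_eq_norm] using hc))
  have h2 : v - c • e ∈ P T := interior_subset (hb (by
    rw [Metric.mem_ball, dist_eq_norm, sub_sub_cancel_left, norm_neg]
    exact hc))
  have h3 := (mem_extremePoints.1 hv).2 _ h1 _ h2 ⟨1 / 2, 1 / 2, by norm_num, by norm_num, by norm_num, by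
    rw [← smul_add, add_add_sub_cancel, ← two_smul ℝ v, smul_smul]
    norm_num⟩
  have h4 : c • e = 0 := by
    have := h3.1
    simpa using this
  rcases smul_eq_zero.1 h4 with h | h
  · exact hc0.ne' h
  · exact hne h

theorem P_frontier {T : Finset ℝ} (h : Ok T) : convexHull ℝ (frontier (P T)) = P T := by
  apply Subset.antisymm
  · exact convexHull_min (P_closed T).frontier_subset (convex_convexHull ℝ _)
  · exact convexHull_mono (V_frontier h)

theorem no_swap {T : Finset ℝ} (hT : Ok T) (f : E ≃ᵢ E) (h1 : f '' upperHalf T = lowerHalf T) :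
    f '' lowerHalf T ≠ upperHalf T := by
  intro h2
  have hF : f '' frontier (P T) = frontier (P T) := by
    rw [← halves_union, image_union, h1, h2, union_comm]
  have hP : f '' P T = P T := by
    have e := AffineMap.image_convexHull f.toRealAffineIsometryEquiv.toAffineEquiv.toAffineMap (frontier (P T))
    have c : ⇑(f.toRealAffineIsometryEquiv.toAffineEquiv.toAffineMap) = f := by
      ext z
      simp
    rw [c, hF, P_frontier hT] at e
    exact e
  have hf := sym hT f hP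
  subst hf
  have h : up 0 ∈ lowerHalf T := by
    rw [← h1]
    refine ⟨up 0, ⟨V_frontier hT (Or.inr (Or.inl ⟨0, hT.1, rfl⟩)), ?_⟩, rfl⟩
    show 0 ≤ up 0 2
    norm_num
  have h3 : up 0 2 ≤ 0 := h.2
  norm_num at h3

/-- The polyhedra `P T`: vertices, the two halves of the surface, the belt, congruence of the halves,
no symmetries. -/
theorem result (T : Finset ℝ) (h0 : 0 ∈ T) (hT : ∀ t ∈ T, 0 ≤ t ∧ t ≤ 1 / 10) :
    (P T).extremePoints ℝ = V T ∧ (V T).ncard = 4 + 2 * T.card ∧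
    upperHalf T ∪ lowerHalf T = frontier (P T) ∧ upperHalf T ∩ lowerHalf T = belt ∧
    (∃ g : E ≃ᵢ E, g '' upperHalf T = lowerHalf T) ∧
    (∀ f : E ≃ᵢ E, f '' P T = P T → f = IsometryEquiv.refl E) ∧
    ∀ f : E ≃ᵢ E, f '' upperHalf T = lowerHalf T → f '' lowerHalf T ≠ upperHalf T :=
  have h : Ok T := ⟨h0, hT⟩
  ⟨ext_P h, V_card h, halves_union T, halves_inter h, ⟨g, g_halves h⟩, sym h, no_swap h⟩

end Pool.Agent.Results.MP_790b9f_lc.AsymmetricHalves

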