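import Mathlib

/-!
# Congruences between the two regions of a splitting of a polyhedral surface: facet normals

The lemmas up to `off_maps` are those of `VerticesOffTheBelt` and `ProperCongruence` (helper88).
-/

set_option autoImplicit false

open Set Metric Topology

namespace Pool.Agent.Results.MP_790b9f_lc.FacetNormals

/-- Euclidean three-space. -/
abbrev E3 := EuclideanSpace ℝ (Fin 3)

/-- A convex polyhedron: the convex hull of a finite set of points, with non-empty interior. -/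
def IsConvexPolyhedron (P : Set E3) : Prop :=
  (interior P).Nonempty ∧ ∃ S : Set E3, S.Finite ∧ P = convexHull ℝ S

/-- The vertices of `P` are its extreme points. -/
def vertices (P : Set E3) : Set E3 := P.extremePoints ℝ

/-- `H₁` and `H₂` are two closed regions of the surface `∂P` which cover it and meet in the
common boundary `B = H₁ ∩ H₂`: each of them is the closure of its part off `B`. -/
structure Splits (P H₁ H₂ : Set E3) : Prop where
  cover : H₁ ∪ H₂ = frontier P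
  reg₁ : closure (H₁ \ H₂) = H₁
  reg₂ : closure (H₂ \ H₁) = H₂

/-! ### Gauge lemma: local inclusion of boundaries -/

theorem local_zero {P Q : Set E3} (hPc : Convex ℝ P) (hQc : Convex ℝ Q)
    (hP0 : P ∈ 𝓝 (0 : E3)) (hQ0 : Q ∈ 𝓝 (0 : E3)) {b : E3} (hb : b ∈ frontier Q)
    {r : ℝ} (hr : 0 < r) (hsub : frontier Q ∩ ball b r ⊆ frontier P) :
    ∃ r' > 0, frontier P ∩ ball b r' ⊆ frontier Q := by
  have hcont : Continuous (gauge Q) := continuous_gauge hQc hQ0
  have hb1 : gauge Q b = 1 := (gauge_eq_one_iff_mem_frontier hQc hQ0).2 hb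
  have hq : ContinuousAt (fun p : E3 => (gauge Q p)⁻¹ • p) b := by
    have h1 : ContinuousAt (fun p : E3 => (gauge Q p)⁻¹) b :=
      (hcont.continuousAt).inv₀ (by rw [hb1]; exact one_ne_zero)
    have h2 : ContinuousAt (fun p : E3 => p) b := continuousAt_id
    exact h1.smul h2
  have hq' : Filter.Tendsto (fun p : E3 => (gauge Q p)⁻¹ • p) (𝓝 b) (𝓝 b) := by
    have := hq.tendsto
    simpa [hb1] using this
  have e1 : ∀ᶠ p in 𝓝 b, (gauge Q p)⁻¹ • p ∈ ball b r := hq' (ball_mem_nhds b hr)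
  have e2 : ∀ᶠ p in 𝓝 b, 0 < gauge Q p :=
    hcont.continuousAt.eventually (lt_mem_nhds (by rw [hb1]; exact one_pos))
  obtain ⟨r', hr', hball⟩ := Metric.eventually_nhds_iff_ball.1 (e1.and e2)
  refine ⟨r', hr', ?_⟩
  rintro p ⟨hp, hpb⟩
  obtain ⟨h1, h2⟩ := hball p hpb
  have hqf : (gauge Q p)⁻¹ • p ∈ frontier Q := by
    rw [← gauge_eq_one_iff_mem_frontier hQc hQ0, gauge_smul_of_nonneg (inv_nonneg.2 h2.le)]
    simp [h2.ne']
  have hqP : (gauge Q p)⁻¹ • p ∈ frontier P := hsub ⟨hqf, h1⟩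
  have hp1 : gauge P p = 1 := (gauge_eq_one_iff_mem_frontier hPc hP0).2 hp
  have h3 := (gauge_eq_one_iff_mem_frontier hPc hP0).2 hqP
  rw [gauge_smul_of_nonneg (inv_nonneg.2 h2.le), hp1] at h3
  have h4 : gauge Q p = 1 := by
    simpa using h3
  exact (gauge_eq_one_iff_mem_frontier hQc hQ0).1 h4

theorem local_incl {P Q : Set E3} (hPc : Convex ℝ P) (hQc : Convex ℝ Q) {c : E3}
    (hcP : c ∈ interior P) (hcQ : c ∈ interior Q) {b : E3} (hb : b ∈ frontier Q)
    {r : ℝ} (hr : 0 < r) (hsub : frontier Q ∩ ball b r ⊆ frontier P) :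
    ∃ r' > 0, frontier P ∩ ball b r' ⊆ frontier Q := by
  let τ : E3 ≃ₜ E3 := Homeomorph.addRight c
  have hτ : ∀ x, τ x = x + c := fun x => rfl
  have hfr : ∀ (S : Set E3) (x : E3), x ∈ frontier (τ ⁻¹' S) ↔ x + c ∈ frontier S := by
    intro S x
    rw [← τ.preimage_frontier]
    rfl
  have hPc' : Convex ℝ (τ ⁻¹' P) := by
    have := hPc.translate_preimage_left c
    exact this
  have hQc' : Convex ℝ (τ ⁻¹' Q) := by
    have := hQc.translate_preimage_left c
    exact this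
  have hP0 : τ ⁻¹' P ∈ 𝓝 (0 : E3) := by
    apply τ.continuous.continuousAt.preimage_mem_nhds
    rw [hτ, zero_add]
    exact mem_interior_iff_mem_nhds.1 hcP
  have hQ0 : τ ⁻¹' Q ∈ 𝓝 (0 : E3) := by
    apply τ.continuous.continuousAt.preimage_mem_nhds
    rw [hτ, zero_add]
    exact mem_interior_iff_mem_nhds.1 hcQ
  have hb' : b - c ∈ frontier (τ ⁻¹' Q) := by
    rw [hfr, sub_add_cancel]; exact hb
  have hsub' : frontier (τ ⁻¹' Q) ∩ ball (b - c) r ⊆ frontier (τ ⁻¹' P) := by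
    rintro x ⟨hx1, hx2⟩
    rw [hfr] at hx1 ⊢
    apply hsub ⟨hx1, ?_⟩
    rw [mem_ball, dist_eq_norm] at hx2 ⊢
    have : x + c - b = x - (b - c) := by abel
    rwa [this]
  obtain ⟨r', hr', h⟩ := local_zero hPc' hQc' hP0 hQ0 hb' hr hsub'
  refine ⟨r', hr', ?_⟩
  rintro p ⟨hp1, hp2⟩
  have h1 : p - c ∈ frontier (τ ⁻¹' P) := by rw [hfr, sub_add_cancel]; exact hp1
  have h2 : p - c ∈ ball (b - c) r' := by
    rw [mem_ball, dist_eq_norm] at hp2 ⊢
    have : p - c - (b - c) = p - b := by abel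
    rwa [this]
  have h3 := h ⟨h1, h2⟩
  rwa [hfr, sub_add_cancel] at h3

/-! ### The two bodies overlap -/

theorem overlap {P : Set E3} (hPc : Convex ℝ P) (hcomp : IsCompact P)
    (hint : (interior P).Nonempty) {H₁ H₂ : Set E3} (hcov : H₁ ∪ H₂ = frontier P)
    (g : E3 ≃ᵃⁱ[ℝ] E3) (hg : g '' H₁ = H₂) :
    ∃ c, c ∈ interior P ∧ c ∈ interior (g '' P) := by
  by_contra hcon
  push Not at hcon
  have hgc : Convex ℝ (g '' P) := by
    have := hPc.affine_image (g.toAffineEquiv : E3 →ᵃ[ℝ] E3)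
    exact this
  have hgint : interior (g '' P) = g '' interior P := by
    have := g.toHomeomorph.image_interior P
    exact this.symm
  have hdisj : Disjoint (interior P) (interior (g '' P)) := by
    rw [Set.disjoint_left]
    exact hcon
  obtain ⟨f, u, hf1, hf2⟩ := geometric_hahn_banach_open_open hPc.interior isOpen_interior
    hgc.interior isOpen_interior hdisj
  have hPcl : closure (interior P) = P := by
    rw [hPc.closure_interior_eq_closure_of_nonempty_interior hint, hcomp.isClosed.closure_eq]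
  have hfP : ∀ y ∈ P, f y ≤ u := by
    intro y hy
    rw [← hPcl] at hy
    have hcl : IsClosed {y : E3 | f y ≤ u} := isClosed_le f.continuous continuous_const
    exact closure_minimal (fun z hz => (hf1 z hz).le) hcl hy
  have hfg : ∀ y ∈ P, u ≤ f (g y) := by
    intro y hy
    rw [← hPcl] at hy
    have hcl : IsClosed {y : E3 | u ≤ f (g y)} :=
      isClosed_le continuous_const (f.continuous.comp g.continuous)
    refine closure_minimal (fun z hz => ?_) hcl hy
    exact (hf2 (g z) (by rw [hgint]; exact ⟨z, hz, rfl⟩)).le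
  have hfrP : frontier P ⊆ P := hcomp.isClosed.frontier_subset
  have hH1 : H₁ ⊆ P := fun x hx => hfrP (hcov ▸ Or.inl hx)
  have hH2 : H₂ ⊆ P := fun x hx => hfrP (hcov ▸ Or.inr hx)
  have hu1 : ∀ x ∈ H₁, f (g x) = u := by
    intro x hx
    have hgx : g x ∈ H₂ := by rw [← hg]; exact ⟨x, hx, rfl⟩
    exact le_antisymm (hfP _ (hH2 hgx)) (hfg x (hH1 hx))
  have hu2 : ∀ x ∈ H₂, f x = u := by
    intro x hx
    obtain ⟨y, hy, rfl⟩ := (hg ▸ hx : x ∈ g '' H₁)
    exact hu1 y hy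
  obtain ⟨c, hc⟩ := hint
  -- a direction parallel to both planes
  let L : E3 →ₗ[ℝ] E3 := g.linearIsometryEquiv.toLinearEquiv.toLinearMap
  let F : E3 →ₗ[ℝ] (Fin 2 → ℝ) :=
    LinearMap.pi ![(f : E3 →ₗ[ℝ] ℝ), (f : E3 →ₗ[ℝ] ℝ).comp L]
  have hker : LinearMap.ker F ≠ ⊥ := by
    apply LinearMap.ker_ne_bot_of_finrank_lt
    simp
  obtain ⟨w, hw, hw0⟩ := (Submodule.ne_bot_iff _).1 hker
  have hFw : F w = 0 := LinearMap.mem_ker.1 hw
  have hw1 : f w = 0 := by
    have := congrFun hFw 0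
    simpa [F] using this
  have hw2 : f (g.linearIsometryEquiv w) = 0 := by
    have := congrFun hFw 1
    simpa [F, L] using this
  have hgw : ∀ t : ℝ, g (c + t • w) = g c + t • g.linearIsometryEquiv w := by
    intro t
    have := g.map_vadd c (t • w)
    simp only [vadd_eq_add] at this
    rw [add_comm c, this, map_smul, add_comm]
  -- the line through c leaves P
  let φ : ℝ → E3 := fun t => c + t • w
  have hφ : Continuous φ := by fun_prop
  have hn : ∃ t : ℝ, c + t • w ∈ frontier P := by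
    have hne : (frontier (φ ⁻¹' P)).Nonempty := by
      rw [nonempty_frontier_iff]
      refine ⟨⟨0, by simpa [φ] using interior_subset hc⟩, fun huniv => ?_⟩
      obtain ⟨R, hR⟩ := hcomp.isBounded.exists_norm_le
      have hmem : c + ((R + ‖c‖ + 1) / ‖w‖) • w ∈ P := by
        have : ((R + ‖c‖ + 1) / ‖w‖) ∈ φ ⁻¹' P := by rw [huniv]; exact mem_univ _
        exact this
      have h1 := hR _ hmem
      have hwpos : 0 < ‖w‖ := norm_pos_iff.2 hw0
      have hR0 : 0 ≤ R := le_trans (norm_nonneg _) h1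
      have h2 : ‖((R + ‖c‖ + 1) / ‖w‖) • w‖ = R + ‖c‖ + 1 := by
        rw [norm_smul, Real.norm_of_nonneg (by positivity)]
        field_simp
      have h3 : ‖((R + ‖c‖ + 1) / ‖w‖) • w‖ ≤ ‖c + ((R + ‖c‖ + 1) / ‖w‖) • w‖ + ‖c‖ := by
        have := norm_sub_le (c + ((R + ‖c‖ + 1) / ‖w‖) • w) c
        simpa using this
      linarith
    obtain ⟨t, ht⟩ := hne
    exact ⟨t, hφ.frontier_preimage_subset P ht⟩
  obtain ⟨t, hx⟩ := hn
  rw [← hcov] at hx
  have hfc : f c < u := hf1 c hc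
  have hfgc : u < f (g c) := hf2 (g c) (by rw [hgint]; exact ⟨c, hc, rfl⟩)
  rcases hx with hx | hx
  · have h := hu1 _ hx
    simp only [hgw] at h
    rw [map_add, map_smul, hw2, smul_zero, add_zero] at h
    linarith
  · have h := hu2 _ hx
    rw [map_add, map_smul, hw1, smul_zero, add_zero] at h
    linarith

/-! ### Off the belt -/

theorem off_ball {P H₁ H₂ : Set E3} (hS : Splits P H₁ H₂) {x : E3} (hx : x ∈ H₁ \ H₂) :
    ∃ r > 0, frontier P ∩ ball x r ⊆ H₁ \ H₂ := by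
  have hcl : IsClosed H₂ := by rw [← hS.reg₂]; exact isClosed_closure
  obtain ⟨r, hr, h⟩ := Metric.isOpen_iff.1 hcl.isOpen_compl x hx.2
  refine ⟨r, hr, ?_⟩
  rintro y ⟨hy1, hy2⟩
  have hy3 : y ∉ H₂ := h hy2
  rw [← hS.cover] at hy1
  exact ⟨hy1.resolve_right hy3, hy3⟩

theorem image_ball (g : E3 ≃ᵃⁱ[ℝ] E3) (P : Set E3) (x : E3) (r : ℝ) :
    g '' (frontier P ∩ ball x r) = frontier (g '' P) ∩ ball (g x) r := by
  rw [Set.image_inter g.injective]
  congr 1
  · exact g.toHomeomorph.image_frontier P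
  · exact g.toIsometryEquiv.image_ball x r

theorem Splits.symm {P H₁ H₂ : Set E3} (hS : Splits P H₁ H₂) : Splits P H₂ H₁ :=
  ⟨by rw [union_comm]; exact hS.cover, hS.reg₂, hS.reg₁⟩

theorem off_maps {P H₁ H₂ : Set E3} (hPc : Convex ℝ P) (hcomp : IsCompact P)
    (hint : (interior P).Nonempty) (hS : Splits P H₁ H₂)
    (g : E3 ≃ᵃⁱ[ℝ] E3) (hg : g '' H₁ = H₂) {x : E3} (hx : x ∈ H₁ \ H₂) :
    g x ∈ H₂ \ H₁ := by
  have hgx : g x ∈ H₂ := by rw [← hg]; exact ⟨x, hx.1, rfl⟩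
  refine ⟨hgx, fun hmem => ?_⟩
  obtain ⟨c, hc1, hc2⟩ := overlap hPc hcomp hint hS.cover g hg
  obtain ⟨r, hr, h⟩ := off_ball hS hx
  have hxf : x ∈ frontier P := by rw [← hS.cover]; exact Or.inl hx.1
  have hgc : Convex ℝ (g '' P) := hPc.affine_image (g.toAffineEquiv : E3 →ᵃ[ℝ] E3)
  have himg := image_ball g P x r
  have hb : g x ∈ frontier (g '' P) := by
    have : g x ∈ g '' (frontier P ∩ ball x r) := ⟨x, ⟨hxf, mem_ball_self hr⟩, rfl⟩
    rw [himg] at this
    exact this.1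
  have hsubH : frontier (g '' P) ∩ ball (g x) r ⊆ H₂ := by
    rw [← himg, ← hg]
    rintro _ ⟨y, hy, rfl⟩
    exact ⟨y, (h hy).1, rfl⟩
  have hsub : frontier (g '' P) ∩ ball (g x) r ⊆ frontier P := by
    refine hsubH.trans ?_
    rw [← hS.cover]
    exact subset_union_right
  obtain ⟨r', hr', h'⟩ := local_incl hPc hgc hc1 hc2 hb hr hsub
  rw [← hS.reg₁, Metric.mem_closure_iff] at hmem
  obtain ⟨z, hz, hzd⟩ := hmem (min r r') (lt_min hr hr')
  rw [dist_comm] at hzd
  have hzf : z ∈ frontier P := by rw [← hS.cover]; exact Or.inl hz.1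
  have hz' : z ∈ frontier (g '' P) :=
    h' ⟨hzf, mem_ball.2 (lt_of_lt_of_le hzd (min_le_right _ _))⟩
  exact hz.2 (hsubH ⟨hz', mem_ball.2 (lt_of_lt_of_le hzd (min_le_left _ _))⟩)

theorem symm_image {H₁ H₂ : Set E3} (g : E3 ≃ᵃⁱ[ℝ] E3) (hg : g '' H₁ = H₂) :
    g.symm '' H₂ = H₁ := by
  rw [← hg, Set.image_image]
  simp

theorem core (W : Submodule ℝ E3) (hW : Module.finrank ℝ W = 2) :
    ∃ n : E3, (∀ L : E3 ≃ₗᵢ[ℝ] E3, (∀ w ∈ W, L w = w) → L n = n ∨ L n = -n) ∧
      (∀ L L' : E3 →ₗ[ℝ] E3, (∀ w ∈ W, L w = L' w) → L n = L' n → L = L') := by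
  have h1 : Module.finrank ℝ Wᗮ = 1 := by
    have := W.finrank_add_finrank_orthogonal
    rw [hW, finrank_euclideanSpace, Fintype.card_fin] at this
    omega
  obtain ⟨⟨n, hn⟩, hn0, hspan⟩ := finrank_eq_one_iff'.1 h1
  have hspan' : ∀ y ∈ Wᗮ, ∃ c : ℝ, c • n = y := by
    intro y hy
    obtain ⟨c, hc⟩ := hspan ⟨y, hy⟩
    exact ⟨c, congrArg Subtype.val hc⟩
  have hn0' : n ≠ 0 := fun h => hn0 (by ext1; exact h)
  refine ⟨n, ?_, ?_⟩
  · intro L hL
    have hmem : L n ∈ Wᗮ := by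
      rw [Submodule.mem_orthogonal]
      intro w hw
      rw [← hL w hw, L.inner_map_map]
      exact (Submodule.mem_orthogonal _ _).1 hn w hw
    obtain ⟨c, hc⟩ := hspan' _ hmem
    have h2 : ‖c • n‖ = ‖n‖ := by rw [hc, L.norm_map]
    rw [norm_smul] at h2
    have h3 : ‖c‖ = 1 := by
      have hp : ‖n‖ ≠ 0 := norm_ne_zero_iff.2 hn0'
      field_simp at h2
      exact h2
    rw [Real.norm_eq_abs] at h3
    rcases (abs_eq (by norm_num : (0:ℝ) ≤ 1)).1 h3 with h | h
    · left; rw [← hc, h, one_smul]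
    · right; rw [← hc, h, neg_smul, one_smul]
  · intro L L' hL hLn
    ext1 x
    obtain ⟨y, hy, z, hz, hx⟩ := W.exists_add_mem_mem_orthogonal x
    obtain ⟨c, hc⟩ := hspan' z hz
    rw [hx, map_add, map_add, hL y hy, ← hc, map_smul, map_smul, hLn]


/-- The linear part of an isometry of space. -/
noncomputable def linearPart (g : E3 ≃ᵢ E3) : E3 ≃ₗᵢ[ℝ] E3 :=
  g.toRealAffineIsometryEquiv.linearIsometryEquiv

/-- The linear part is the linear map `L` with `g (x + v) = g x + L v`. -/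
theorem linearPart_spec (g : E3 ≃ᵢ E3) (x v : E3) : g (x + v) = g x + linearPart g v := by
  have := g.toRealAffineIsometryEquiv.map_vadd x v
  simp only [vadd_eq_add] at this
  rw [add_comm x v]
  refine Eq.trans this ?_
  rw [add_comm]
  rfl

/-! ### Finitely many planes cover the surface of a polyhedron -/

theorem plane_of_ne_top {T : Set E3} (h : affineSpan ℝ T ≠ ⊤) :
    ∃ p : E3 × ℝ, p.1 ≠ 0 ∧ ∀ y ∈ T, inner ℝ p.1 y = p.2 := by
  rcases T.eq_empty_or_nonempty with rfl | ⟨t0, ht0⟩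
  · obtain ⟨e, he⟩ : ∃ e : E3, e ≠ 0 := exists_ne 0
    exact ⟨(e, 0), he, fun y hy => absurd hy (Set.notMem_empty y)⟩
  · have hD : (affineSpan ℝ T).direction ≠ ⊤ := fun hd =>
      h ((AffineSubspace.direction_eq_top_iff_of_nonempty ⟨t0, mem_affineSpan ℝ ht0⟩).1 hd)
    have hD' : ((affineSpan ℝ T).direction)ᗮ ≠ ⊥ := fun hb => hD (Submodule.orthogonal_eq_bot_iff.1 hb)
    obtain ⟨n, hn, hn0⟩ := (Submodule.ne_bot_iff _).1 hD'
    refine ⟨(n, inner ℝ n t0), hn0, fun y hy => ?_⟩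
    have hv : y - t0 ∈ (affineSpan ℝ T).direction :=
      AffineSubspace.vsub_mem_direction (mem_affineSpan ℝ hy) (mem_affineSpan ℝ ht0)
    have h0 := (Submodule.mem_orthogonal' _ _).1 hn _ hv
    rw [inner_sub_right] at h0
    linarith

theorem plane_cover {P : Set E3} (hP : IsConvexPolyhedron P) :
    ∃ N : Set (E3 × ℝ), N.Finite ∧ (∀ p ∈ N, p.1 ≠ 0) ∧
      ∀ x ∈ frontier P, ∃ p ∈ N, inner ℝ p.1 x = p.2 := by
  classical
  obtain ⟨hint, S, hSf, hPS⟩ := hP
  have hcl : IsClosed P := by rw [hPS]; exact (hSf.isCompact_convexHull ℝ).isClosed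
  have hex : ∀ T : Set E3, ∃ p : E3 × ℝ, p.1 ≠ 0 ∧ (affineSpan ℝ T ≠ ⊤ → ∀ y ∈ T, inner ℝ p.1 y = p.2) := by
    intro T
    by_cases h : affineSpan ℝ T = ⊤
    · obtain ⟨e, he⟩ : ∃ e : E3, e ≠ 0 := exists_ne 0
      exact ⟨(e, 0), he, fun h' => absurd h h'⟩
    · obtain ⟨p, h1, h2⟩ := plane_of_ne_top h
      exact ⟨p, h1, fun _ => h2⟩
  choose φ h1 h2 using hex
  refine ⟨φ '' {T | T ⊆ S}, (hSf.finite_subsets).image φ, ?_, ?_⟩
  · rintro _ ⟨T, -, rfl⟩
    exact h1 T
  · intro x hx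
    have hxP : x ∈ P := hcl.frontier_subset hx
    have hxS := hxP
    rw [hPS] at hxS
    obtain ⟨ι, _, z, w, hz, hai, hw, hw1, hwx⟩ := eq_pos_convex_span_of_mem_convexHull hxS
    refine ⟨φ (range z), ⟨range z, hz, rfl⟩, ?_⟩
    have hne : affineSpan ℝ (range z) ≠ ⊤ := by
      intro htop
      let b : AffineBasis ι ℝ E3 := ⟨z, hai, htop⟩
      have hxi : x ∈ interior (convexHull ℝ (range b)) := by
        rw [AffineBasis.interior_convexHull]
        intro i
        have e : x = Finset.univ.affineCombination ℝ b w := by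
          rw [Finset.affineCombination_eq_linear_combination _ _ _ hw1, ← hwx]
          rfl
        rw [e, b.coord_apply_combination_of_mem (Finset.mem_univ i) hw1]
        exact hw i
      have hsub : convexHull ℝ (range b) ⊆ P := by
        rw [hPS]
        exact convexHull_mono hz
      exact hx.2 (interior_mono hsub hxi)
    have h3 := h2 (range z) hne
    rw [← hwx, inner_sum]
    have : ∀ i ∈ Finset.univ, inner ℝ (φ (range z)).1 (w i • z i) = w i * (φ (range z)).2 := by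
      intro i _
      rw [inner_smul_right, h3 (z i) ⟨i, rfl⟩]
    rw [Finset.sum_congr rfl this, ← Finset.sum_mul, hw1, one_mul]

/-- a nonempty relatively open subset of a set covered by finitely many planes lies, after shrinking,
in one of them -/
theorem one_plane (F : Set E3) {N : Set (E3 × ℝ)} (hN : N.Finite) :
    ∀ x ∈ F, ∀ r > 0, (∀ y ∈ F ∩ ball x r, ∃ p ∈ N, inner ℝ p.1 y = p.2) →
      ∃ p ∈ N, ∃ z ∈ F, ∃ ρ > 0, ball z ρ ⊆ ball x r ∧ ∀ y ∈ F ∩ ball z ρ, inner ℝ p.1 y = p.2 := by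
  induction N, hN using Set.Finite.induction_on with
  | empty =>
    intro x hx r hr h
    obtain ⟨p, hp, -⟩ := h x ⟨hx, mem_ball_self hr⟩
    exact absurd hp (Set.notMem_empty p)
  | @insert p0 N' _ _ ih =>
    intro x hx r hr h
    by_cases hall : ∀ y ∈ F ∩ ball x r, inner ℝ p0.1 y = p0.2
    · exact ⟨p0, mem_insert _ _, x, hx, r, hr, Subset.rfl, hall⟩
    · push Not at hall
      obtain ⟨y0, hy0, hne⟩ := hall
      have hopen : IsOpen (ball x r ∩ {y : E3 | inner ℝ p0.1 y ≠ p0.2}) :=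
        isOpen_ball.inter (isOpen_ne_fun (continuous_const.inner continuous_id) continuous_const)
      obtain ⟨r', hr', hsub⟩ := Metric.isOpen_iff.1 hopen y0 ⟨hy0.2, hne⟩
      obtain ⟨p, hp, z, hz, ρ, hρ, hzs, hzp⟩ := ih y0 hy0.1 r' hr' (by
        rintro y ⟨hy1, hy2⟩
        obtain ⟨p, hp, hpe⟩ := h y ⟨hy1, (hsub hy2).1⟩
        rcases hp with rfl | hp
        · exact absurd hpe (hsub hy2).2
        · exact ⟨p, hp, hpe⟩)
      exact ⟨p, mem_insert_of_mem _ hp, z, hz, ρ, hρ, fun y hy => (hsub (hzs hy)).1, hzp⟩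

/-! ### Exit points -/

theorem exit {P : Set E3} (hPc : Convex ℝ P) {c : E3} (hc : c ∈ interior P) {x : E3}
    (hx : x ∈ frontier P) {r : ℝ} (hr : 0 < r) :
    ∃ δ > 0, ∀ q ∈ ball x δ, ∃ s : ℝ, 0 < s ∧ c + s • (q - c) ∈ frontier P ∩ ball x r ∧ (q ∈ P → 1 ≤ s) := by
  let τ : E3 ≃ₜ E3 := Homeomorph.addRight c
  have hτ : ∀ x, τ x = x + c := fun x => rfl
  have hfr : ∀ (x : E3), x ∈ frontier (τ ⁻¹' P) ↔ x + c ∈ frontier P := by
    intro x
    rw [← τ.preimage_frontier]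
    rfl
  have hQc : Convex ℝ (τ ⁻¹' P) := by
    have := hPc.translate_preimage_left c
    exact this
  have hQ0 : τ ⁻¹' P ∈ 𝓝 (0 : E3) := by
    apply τ.continuous.continuousAt.preimage_mem_nhds
    rw [hτ, zero_add]
    exact mem_interior_iff_mem_nhds.1 hc
  set Q := τ ⁻¹' P with hQ
  have hb : x - c ∈ frontier Q := by rw [hfr, sub_add_cancel]; exact hx
  have hcont : Continuous (gauge Q) := continuous_gauge hQc hQ0
  have hb1 : gauge Q (x - c) = 1 := (gauge_eq_one_iff_mem_frontier hQc hQ0).2 hb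
  have hq : ContinuousAt (fun p : E3 => (gauge Q p)⁻¹ • p) (x - c) := by
    have h1 : ContinuousAt (fun p : E3 => (gauge Q p)⁻¹) (x - c) :=
      (hcont.continuousAt).inv₀ (by rw [hb1]; exact one_ne_zero)
    exact h1.smul continuousAt_id
  have hq' : Filter.Tendsto (fun p : E3 => (gauge Q p)⁻¹ • p) (𝓝 (x - c)) (𝓝 (x - c)) := by
    have := hq.tendsto
    simpa [hb1] using this
  have e1 : ∀ᶠ p in 𝓝 (x - c), (gauge Q p)⁻¹ • p ∈ ball (x - c) r := hq' (ball_mem_nhds _ hr)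
  have e2 : ∀ᶠ p in 𝓝 (x - c), 0 < gauge Q p :=
    hcont.continuousAt.eventually (lt_mem_nhds (by rw [hb1]; exact one_pos))
  obtain ⟨δ, hδ, hball⟩ := Metric.eventually_nhds_iff_ball.1 (e1.and e2)
  refine ⟨δ, hδ, fun q hq => ?_⟩
  have hqb : q - c ∈ ball (x - c) δ := by
    rw [mem_ball, dist_eq_norm] at hq ⊢
    rwa [sub_sub_sub_cancel_right]
  obtain ⟨h1, h2⟩ := hball _ hqb
  refine ⟨(gauge Q (q - c))⁻¹, inv_pos.2 h2, ⟨?_, ?_⟩, ?_⟩
  · have hf : (gauge Q (q - c))⁻¹ • (q - c) ∈ frontier Q := by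
      rw [← gauge_eq_one_iff_mem_frontier hQc hQ0, gauge_smul_of_nonneg (inv_nonneg.2 h2.le)]
      simp [h2.ne']
    rw [hfr] at hf
    rwa [add_comm] at hf
  · rw [mem_ball, dist_eq_norm] at h1 ⊢
    have : c + (gauge Q (q - c))⁻¹ • (q - c) - x = (gauge Q (q - c))⁻¹ • (q - c) - (x - c) := by abel
    rwa [this]
  · intro hqP
    have hmem : q - c ∈ Q := by
      show (q - c) + c ∈ P
      rwa [sub_add_cancel]
    exact (one_le_inv₀ h2).2 (gauge_le_one_of_mem hmem)

/-- the surface of `P` near `x` lies in the plane through `x` with outward unit normal `n`, and this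
plane supports `P` -/
def FlatAt (P : Set E3) (n x : E3) : Prop :=
  ‖n‖ = 1 ∧ x ∈ frontier P ∧ (∃ r > 0, ∀ y ∈ frontier P ∩ ball x r, inner ℝ n y = inner ℝ n x) ∧
    ∀ y ∈ P, inner ℝ n y ≤ inner ℝ n x

/-- `n` is the outward unit normal of a facet of `P` -/
def IsFacetNormal (P : Set E3) (n : E3) : Prop := ∃ x, FlatAt P n x

theorem side {P : Set E3} (hPc : Convex ℝ P) (hcl : IsClosed P) {c : E3} (hc : c ∈ interior P) {x : E3}
    (hx : x ∈ frontier P) {r : ℝ} (hr : 0 < r) {n : E3}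
    (hflat : ∀ y ∈ frontier P ∩ ball x r, inner ℝ n y = inner ℝ n x) (hnc : inner ℝ n c < inner ℝ n x) :
    ∀ y ∈ P, inner ℝ n y ≤ inner ℝ n x := by
  intro y hy
  by_contra hcon
  push Not at hcon
  obtain ⟨δ, hδ, hex⟩ := exit hPc hc hx hr
  have hxP : x ∈ P := hcl.frontier_subset hx
  obtain ⟨ε, he0, he1, he⟩ : ∃ ε : ℝ, 0 < ε ∧ ε ≤ 1 ∧ ε * ‖y - x‖ < δ := by
    refine ⟨min 1 (δ / (2 * (‖y - x‖ + 1))), by positivity, min_le_left _ _, ?_⟩
    have hp : 0 < ‖y - x‖ + 1 := by positivity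
    calc min 1 (δ / (2 * (‖y - x‖ + 1))) * ‖y - x‖ ≤ (δ / (2 * (‖y - x‖ + 1))) * (‖y - x‖ + 1) := by
          apply mul_le_mul (min_le_right _ _) (by linarith) (norm_nonneg _) (by positivity)
      _ = δ / 2 := by field_simp
      _ < δ := by linarith
  have hqP : x + ε • (y - x) ∈ P := by
    have := hPc hxP hy (a := 1 - ε) (b := ε) (by linarith) he0.le (by ring)
    have e : x + ε • (y - x) = (1 - ε) • x + ε • y := by
      rw [smul_sub, sub_smul, one_smul]
      abel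
    rwa [e]
  obtain ⟨s, hs0, hs1, hs2⟩ := hex (x + ε • (y - x)) (by
    rw [mem_ball, dist_eq_norm, add_sub_cancel_left, norm_smul, Real.norm_of_nonneg he0.le]
    exact he)
  have hs := hs2 hqP
  have h1 := hflat _ hs1
  rw [inner_add_right, inner_smul_right, inner_sub_right] at h1
  have h2 : inner ℝ n (x + ε • (y - x)) = inner ℝ n x + ε * (inner ℝ n y - inner ℝ n x) := by
    rw [inner_add_right, inner_smul_right, inner_sub_right]
  rw [h2] at h1
  have h3 : 0 < ε * (inner ℝ n y - inner ℝ n x) := mul_pos he0 (by linarith)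
  nlinarith [mul_le_mul_of_nonneg_right hs (by linarith :
    0 ≤ inner ℝ n x + ε * (inner ℝ n y - inner ℝ n x) - inner ℝ n c)]

theorem strict {P : Set E3} {n x : E3} (hn : n ≠ 0) (h : ∀ y ∈ P, inner ℝ n y ≤ inner ℝ n x) {c : E3}
    (hc : c ∈ interior P) : inner ℝ n c < inner ℝ n x := by
  obtain ⟨r, hr, hball⟩ := Metric.isOpen_iff.1 isOpen_interior c hc
  have hnp : 0 < ‖n‖ := norm_pos_iff.2 hn
  have hmem : c + (r / (2 * ‖n‖)) • n ∈ P := by
    apply interior_subset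
    apply hball
    rw [mem_ball, dist_eq_norm, add_sub_cancel_left, norm_smul, Real.norm_of_nonneg (by positivity)]
    have : r / (2 * ‖n‖) * ‖n‖ = r / 2 := by field_simp
    rw [this]
    linarith
  have h1 := h _ hmem
  rw [inner_add_right, inner_smul_right, real_inner_self_eq_norm_sq] at h1
  have h2 : 0 < r / (2 * ‖n‖) * ‖n‖ ^ 2 := by positivity
  linarith

/-- a flat point has an outward unit normal parallel to the given one -/
theorem flat_of_plane {P : Set E3} (hPc : Convex ℝ P) (hcl : IsClosed P) (hint : (interior P).Nonempty)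
    {z : E3} (hz : z ∈ frontier P) {r : ℝ} (hr : 0 < r) {m : E3} (hm : m ≠ 0)
    (hflat : ∀ y ∈ frontier P ∩ ball z r, inner ℝ m y = inner ℝ m z) :
    ∃ n : E3, (n = ‖m‖⁻¹ • m ∨ n = -(‖m‖⁻¹ • m)) ∧ FlatAt P n z := by
  obtain ⟨c0, hc0⟩ := hint
  have hmp : 0 < ‖m‖ := norm_pos_iff.2 hm
  -- an interior point off the plane
  obtain ⟨c, hc, hne⟩ : ∃ c ∈ interior P, inner ℝ m c ≠ inner ℝ m z := by
    by_cases h : inner ℝ m c0 = inner ℝ m z
    · obtain ⟨ρ, hρ, hball⟩ := Metric.isOpen_iff.1 isOpen_interior c0 hc0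
      refine ⟨c0 + (ρ / (2 * ‖m‖)) • m, hball ?_, ?_⟩
      · rw [mem_ball, dist_eq_norm, add_sub_cancel_left, norm_smul, Real.norm_of_nonneg (by positivity)]
        have : ρ / (2 * ‖m‖) * ‖m‖ = ρ / 2 := by field_simp
        rw [this]
        linarith
      · rw [inner_add_right, inner_smul_right, real_inner_self_eq_norm_sq, h]
        have h2 : 0 < ρ / (2 * ‖m‖) * ‖m‖ ^ 2 := by positivity
        intro h3
        linarith
    · exact ⟨c0, hc0, h⟩
  set u := ‖m‖⁻¹ • m with hu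
  have hun : ‖u‖ = 1 := by
    rw [hu, norm_smul, norm_inv, norm_norm, inv_mul_cancel₀ hmp.ne']
  have hiu : ∀ y : E3, inner ℝ u y = ‖m‖⁻¹ * inner ℝ m y := fun y => by rw [hu, real_inner_smul_left]
  have hfu : ∀ y ∈ frontier P ∩ ball z r, inner ℝ u y = inner ℝ u z := fun y hy => by
    rw [hiu, hiu, hflat y hy]
  rcases lt_or_gt_of_ne hne with h | h
  · refine ⟨u, Or.inl rfl, hun, hz, ⟨r, hr, hfu⟩, side hPc hcl hc hz hr hfu ?_⟩
    rw [hiu, hiu]
    exact mul_lt_mul_of_pos_left h (inv_pos.2 hmp)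
  · have hfn : ∀ y ∈ frontier P ∩ ball z r, inner ℝ (-u) y = inner ℝ (-u) z := fun y hy => by
      rw [inner_neg_left, inner_neg_left, hfu y hy]
    refine ⟨-u, Or.inr rfl, by rw [norm_neg]; exact hun, hz, ⟨r, hr, hfn⟩, side hPc hcl hc hz hr hfn ?_⟩
    rw [inner_neg_left, inner_neg_left, hiu, hiu, neg_lt_neg_iff]
    exact mul_lt_mul_of_pos_left h (inv_pos.2 hmp)

theorem poly_convex {P : Set E3} (hP : IsConvexPolyhedron P) : Convex ℝ P ∧ IsCompact P := by
  obtain ⟨hint, S, hSf, hPS⟩ := hP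
  rw [hPS]
  exact ⟨convex_convexHull ℝ S, hSf.isCompact_convexHull ℝ⟩

/-- flat points are dense in the surface -/
theorem dense_flat {P : Set E3} (hP : IsConvexPolyhedron P) {x : E3} (hx : x ∈ frontier P) {r : ℝ}
    (hr : 0 < r) : ∃ z ∈ frontier P ∩ ball x r, ∃ n, FlatAt P n z := by
  obtain ⟨hPc, hcomp⟩ := poly_convex hP
  obtain ⟨N, hN, hN0, hcov⟩ := plane_cover hP
  obtain ⟨p, hp, z, hz, ρ, hρ, hsub, hflat⟩ := one_plane (frontier P) hN x hx r hr (fun y hy => hcov y hy.1)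
  have hzz := hflat z ⟨hz, mem_ball_self hρ⟩
  obtain ⟨n, -, hn⟩ := flat_of_plane hPc hcomp.isClosed hP.1 hz hρ (hN0 p hp)
    (fun y hy => by rw [hflat y hy, hzz])
  exact ⟨z, ⟨hz, hsub (mem_ball_self hρ)⟩, n, hn⟩

/-- two normals of the same flat piece agree -/
theorem flat_unique {P : Set E3} (hPc : Convex ℝ P) {c : E3} (hc : c ∈ interior P) {x : E3}
    (hx : x ∈ frontier P) {r : ℝ} (hr : 0 < r) {n m : E3} (hn1 : ‖n‖ = 1) (hm1 : ‖m‖ = 1)
    (hn : ∀ y ∈ frontier P ∩ ball x r, inner ℝ n y = inner ℝ n x)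
    (hm : ∀ y ∈ frontier P ∩ ball x r, inner ℝ m y = inner ℝ m x)
    (hnc : inner ℝ n c < inner ℝ n x) : m = n ∨ m = -n := by
  -- the component of m orthogonal to n
  set v := m - inner ℝ n m • n with hv
  have hnv : inner ℝ n v = 0 := by
    rw [hv, inner_sub_right, inner_smul_right, real_inner_self_eq_norm_sq, hn1]
    ring
  have hmv : inner ℝ m v = ‖v‖ ^ 2 := by
    have e : m = v + inner ℝ n m • n := by rw [hv]; abel
    conv_lhs => rw [e]
    rw [inner_add_left, real_inner_smul_left, hnv, mul_zero, add_zero, real_inner_self_eq_norm_sq]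
  have hv0 : v = 0 := by
    by_contra hv0
    obtain ⟨δ, hδ, hex⟩ := exit hPc hc hx hr
    have hvp : 0 < ‖v‖ := norm_pos_iff.2 hv0
    obtain ⟨s, hs0, hs1, -⟩ := hex (x + (δ / (2 * ‖v‖)) • v) (by
      rw [mem_ball, dist_eq_norm, add_sub_cancel_left, norm_smul, Real.norm_of_nonneg (by positivity)]
      have : δ / (2 * ‖v‖) * ‖v‖ = δ / 2 := by field_simp
      rw [this]
      linarith)
    have h1 := hn _ hs1
    rw [inner_add_right, inner_smul_right, inner_sub_right, inner_add_right, inner_smul_right, hnv, mul_zero,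
      add_zero] at h1
    have hs : s = 1 := by
      have h2 : (s - 1) * (inner ℝ n x - inner ℝ n c) = 0 := by linarith
      rcases mul_eq_zero.1 h2 with h3 | h3
      · linarith
      · linarith
    have h2 := hm _ hs1
    rw [hs, one_smul, add_sub_cancel, inner_add_right, inner_smul_right, hmv] at h2
    have h3 : 0 < δ / (2 * ‖v‖) * ‖v‖ ^ 2 := by positivity
    linarith
  have hmn : m = inner ℝ n m • n := sub_eq_zero.1 (hv.symm.trans hv0)
  have h4 : |inner ℝ n m| = 1 := by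
    have := congrArg norm hmn
    rw [norm_smul, hn1, hm1, mul_one, Real.norm_eq_abs] at this
    exact this.symm
  rcases (abs_eq (by norm_num : (0:ℝ) ≤ 1)).1 h4 with h | h
  · left
    rw [hmn, h, one_smul]
  · right
    rw [hmn, h, neg_smul, one_smul]

/-- the facet normals of a polyhedron are finite in number -/
theorem normals_finite {P : Set E3} (hP : IsConvexPolyhedron P) : {n | IsFacetNormal P n}.Finite := by
  obtain ⟨hPc, hcomp⟩ := poly_convex hP
  obtain ⟨N, hN, hN0, hcov⟩ := plane_cover hP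
  have hfin : ((fun p : E3 × ℝ => ‖p.1‖⁻¹ • p.1) '' N ∪ (fun p : E3 × ℝ => -(‖p.1‖⁻¹ • p.1)) '' N).Finite :=
    (hN.image _).union (hN.image _)
  refine hfin.subset ?_
  rintro n ⟨x, hn1, hx, ⟨r, hr, hflat⟩, hsup⟩
  obtain ⟨p, hp, z, hz, ρ, hρ, hsub, hzf⟩ := one_plane (frontier P) hN x hx r hr (fun y hy => hcov y hy.1)
  have hzz := hzf z ⟨hz, mem_ball_self hρ⟩
  have hp0 := hN0 p hp
  have hpp : 0 < ‖p.1‖ := norm_pos_iff.2 hp0
  obtain ⟨c, hc⟩ := hP.1
  have hn0 : n ≠ 0 := fun h => by rw [h, norm_zero] at hn1; exact zero_ne_one hn1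
  have hzx : inner ℝ n z = inner ℝ n x := hflat z ⟨hz, hsub (mem_ball_self hρ)⟩
  have hnc : inner ℝ n c < inner ℝ n z := by
    rw [hzx]
    exact strict hn0 hsup hc
  have hu1 : ‖‖p.1‖⁻¹ • p.1‖ = 1 := by
    rw [norm_smul, norm_inv, norm_norm, inv_mul_cancel₀ hpp.ne']
  have hk := flat_unique hPc hc hz hρ hn1 hu1 (fun y hy => by
      rw [hflat y ⟨hy.1, hsub hy.2⟩, hzx]) (fun y hy => by
      rw [real_inner_smul_left, real_inner_smul_left, hzf y hy, hzz]) hnc
  rcases hk with hk | hk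
  · exact Or.inl ⟨p, hp, hk⟩
  · exact Or.inr ⟨p, hp, by simp only [hk, neg_neg]⟩

/-! ### Transfer of flat points -/

theorem local_image {P H₁ H₂ : Set E3} (hPc : Convex ℝ P) (hcomp : IsCompact P)
    (hint : (interior P).Nonempty) (hS : Splits P H₁ H₂)
    (g : E3 ≃ᵃⁱ[ℝ] E3) (hg : g '' H₁ = H₂) {x : E3} (hx : x ∈ H₁ \ H₂) {r0 : ℝ} (hr0 : 0 < r0) :
    ∃ r' > 0, frontier P ∩ ball (g x) r' ⊆ g '' (frontier P ∩ ball x r0) := by
  obtain ⟨c, hc1, hc2⟩ := overlap hPc hcomp hint hS.cover g hg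
  obtain ⟨r1, hr1, h1⟩ := off_ball hS hx
  have hr : 0 < min r1 r0 := lt_min hr1 hr0
  set r := min r1 r0 with hrdef
  have h : frontier P ∩ ball x r ⊆ H₁ \ H₂ := fun y hy =>
    h1 ⟨hy.1, ball_subset_ball (min_le_left _ _) hy.2⟩
  have hxf : x ∈ frontier P := by rw [← hS.cover]; exact Or.inl hx.1
  have hgc : Convex ℝ (g '' P) := hPc.affine_image (g.toAffineEquiv : E3 →ᵃ[ℝ] E3)
  have himg := image_ball g P x r
  have hb : g x ∈ frontier (g '' P) := by
    have : g x ∈ g '' (frontier P ∩ ball x r) := ⟨x, ⟨hxf, mem_ball_self hr⟩, rfl⟩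
    rw [himg] at this
    exact this.1
  have hsubH : frontier (g '' P) ∩ ball (g x) r ⊆ H₂ := by
    rw [← himg, ← hg]
    rintro _ ⟨y, hy, rfl⟩
    exact ⟨y, (h hy).1, rfl⟩
  have hsub : frontier (g '' P) ∩ ball (g x) r ⊆ frontier P := by
    refine hsubH.trans ?_
    rw [← hS.cover]
    exact subset_union_right
  obtain ⟨r', hr', h'⟩ := local_incl hPc hgc hc1 hc2 hb hr hsub
  refine ⟨min r r', lt_min hr hr', ?_⟩
  rintro y ⟨hy1, hy2⟩
  have hy3 : y ∈ frontier (g '' P) := h' ⟨hy1, ball_subset_ball (min_le_right _ _) hy2⟩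
  have hy4 : y ∈ g '' (frontier P ∩ ball x r) := by
    rw [himg]
    exact ⟨hy3, ball_subset_ball (min_le_left _ _) hy2⟩
  obtain ⟨z, hz, rfl⟩ := hy4
  exact ⟨z, ⟨hz.1, ball_subset_ball (min_le_right _ _) hz.2⟩, rfl⟩

theorem lin_inner (g : E3 ≃ᵃⁱ[ℝ] E3) (n y x : E3) :
    inner ℝ (g.linearIsometryEquiv n) (g y) - inner ℝ (g.linearIsometryEquiv n) (g x) =
      inner ℝ n y - inner ℝ n x := by
  have h : g y = g x + g.linearIsometryEquiv (y - x) := by
    have := g.map_vadd x (y - x)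
    simp only [vadd_eq_add, sub_add_cancel] at this
    rw [this, add_comm]
  rw [← inner_sub_right, h, add_sub_cancel_left, g.linearIsometryEquiv.inner_map_map, inner_sub_right]

theorem transfer {P H₁ H₂ : Set E3} (hPc : Convex ℝ P) (hcomp : IsCompact P)
    (hint : (interior P).Nonempty) (hS : Splits P H₁ H₂)
    (g : E3 ≃ᵃⁱ[ℝ] E3) (hg : g '' H₁ = H₂) {x : E3} (hx : x ∈ H₁ \ H₂) {n : E3} (hn : FlatAt P n x) :
    FlatAt P (g.linearIsometryEquiv n) (g x) := by
  obtain ⟨hn1, hxf, ⟨r0, hr0, hflat⟩, hsup⟩ := hn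
  obtain ⟨c, hc1, hc2⟩ := overlap hPc hcomp hint hS.cover g hg
  obtain ⟨r', hr', h⟩ := local_image hPc hcomp hint hS g hg hx hr0
  have hgx : g x ∈ frontier P := by
    rw [← hS.cover]
    right
    rw [← hg]
    exact ⟨x, hx.1, rfl⟩
  have hn0 : n ≠ 0 := fun h => by rw [h, norm_zero] at hn1; exact zero_ne_one hn1
  have hfl : ∀ y ∈ frontier P ∩ ball (g x) r',
      inner ℝ (g.linearIsometryEquiv n) y = inner ℝ (g.linearIsometryEquiv n) (g x) := by
    intro y hy
    obtain ⟨z, hz, rfl⟩ := h hy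
    have h1 := lin_inner g n z x
    rw [hflat z hz, sub_self] at h1
    linarith
  refine ⟨by rw [g.linearIsometryEquiv.norm_map, hn1], hgx, ⟨r', hr', hfl⟩,
    side hPc hcomp.isClosed hc1 hgx hr' hfl ?_⟩
  have hgi : interior (g '' P) = g '' interior P := by
    have := g.toHomeomorph.image_interior P
    exact this.symm
  rw [hgi] at hc2
  obtain ⟨c0, hc0, rfl⟩ := hc2
  have h1 := lin_inner g n c0 x
  have h2 := strict hn0 hsup hc0
  linarith

/-! ### Two independent normals -/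

theorem line_exit {P : Set E3} (hcomp : IsCompact P) {c : E3} (hcP : c ∈ P) {w : E3} (hw0 : w ≠ 0) :
    ∃ t : ℝ, c + t • w ∈ frontier P := by
  let φ : ℝ → E3 := fun t => c + t • w
  have hφ : Continuous φ := by fun_prop
  have hne : (frontier (φ ⁻¹' P)).Nonempty := by
    rw [nonempty_frontier_iff]
    refine ⟨⟨0, by simpa [φ] using hcP⟩, fun huniv => ?_⟩
    obtain ⟨R, hR⟩ := hcomp.isBounded.exists_norm_le
    have hmem : c + ((R + ‖c‖ + 1) / ‖w‖) • w ∈ P := by
      have : ((R + ‖c‖ + 1) / ‖w‖) ∈ φ ⁻¹' P := by rw [huniv]; exact mem_univ _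
      exact this
    have h1 := hR _ hmem
    have hwpos : 0 < ‖w‖ := norm_pos_iff.2 hw0
    have hR0 : 0 ≤ R := le_trans (norm_nonneg _) h1
    have h2 : ‖((R + ‖c‖ + 1) / ‖w‖) • w‖ = R + ‖c‖ + 1 := by
      rw [norm_smul, Real.norm_of_nonneg (by positivity)]
      field_simp
    have h3 : ‖((R + ‖c‖ + 1) / ‖w‖) • w‖ ≤ ‖c + ((R + ‖c‖ + 1) / ‖w‖) • w‖ + ‖c‖ := by
      have := norm_sub_le (c + ((R + ‖c‖ + 1) / ‖w‖) • w) c
      simpa using this
    linarith
  obtain ⟨t, ht⟩ := hne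
  exact ⟨t, hφ.frontier_preimage_subset P ht⟩

/-- linear independence of two vectors -/
def Indep (n₁ n₂ : E3) : Prop := ∀ a b : ℝ, a • n₁ + b • n₂ = 0 → a = 0 ∧ b = 0

theorem not_indep {n₁ n : E3} (h1 : ‖n₁‖ = 1) (h2 : ‖n‖ = 1) (h : ¬ Indep n₁ n) : n = n₁ ∨ n = -n₁ := by
  have hn0 : n₁ ≠ 0 := fun h => by rw [h, norm_zero] at h1; exact zero_ne_one h1
  have hli : ¬ LinearIndependent ℝ ![n₁, n] := fun hl => h (fun a b hab => (LinearIndependent.pair_iff.1 hl) a b hab)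
  rw [LinearIndependent.pair_iff' hn0] at hli
  push Not at hli
  obtain ⟨a, ha⟩ := hli
  have h3 : |a| = 1 := by
    have := congrArg norm ha
    rw [norm_smul, h1, h2, mul_one, Real.norm_eq_abs] at this
    exact this
  rcases (abs_eq (by norm_num : (0:ℝ) ≤ 1)).1 h3 with h | h
  · left; rw [← ha, h, one_smul]
  · right; rw [← ha, h, neg_smul, one_smul]

theorem two_normals {P H₁ H₂ : Set E3} (hP : IsConvexPolyhedron P) (hS : Splits P H₁ H₂)
    (g : E3 ≃ᵃⁱ[ℝ] E3) (hg : g '' H₁ = H₂) :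
    ∃ n₁ n₂, Indep n₁ n₂ ∧ IsFacetNormal P n₁ ∧ IsFacetNormal P n₂ ∧
      IsFacetNormal P (g.linearIsometryEquiv n₁) ∧ IsFacetNormal P (g.linearIsometryEquiv n₂) := by
  obtain ⟨hPc, hcomp⟩ := poly_convex hP
  have hint := hP.1
  obtain ⟨c, hc⟩ := hP.1
  have hcP : c ∈ P := interior_subset hc
  have hfrP : frontier P ⊆ P := hcomp.isClosed.frontier_subset
  -- a point of `H₁` off the belt
  have hne : (H₁ \ H₂).Nonempty := by
    rw [Set.nonempty_iff_ne_empty]
    intro h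
    have h0 := hS.reg₁
    rw [h, closure_empty] at h0
    have h2 : H₂ = ∅ := by rw [← hg, ← h0, Set.image_empty]
    obtain ⟨e, he⟩ : ∃ e : E3, e ≠ 0 := exists_ne 0
    obtain ⟨t, ht⟩ := line_exit hcomp hcP he
    rw [← hS.cover, ← h0, h2, Set.union_empty] at ht
    exact Set.notMem_empty _ ht
  -- flat points with good normals near every point of `H₁` off the belt
  have hgood : ∀ x ∈ H₁ \ H₂, ∀ ε > 0, ∃ z ∈ H₁ \ H₂, z ∈ ball x ε ∧ ∃ n, FlatAt P n z := by
    intro x hx ε hε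
    obtain ⟨r, hr, h⟩ := off_ball hS hx
    have hxf : x ∈ frontier P := by rw [← hS.cover]; exact Or.inl hx.1
    obtain ⟨z, hz, n, hn⟩ := dense_flat hP hxf (lt_min hr hε)
    exact ⟨z, h ⟨hz.1, ball_subset_ball (min_le_left _ _) hz.2⟩, ball_subset_ball (min_le_right _ _) hz.2, n, hn⟩
  by_contra hcon
  obtain ⟨x0, hx0⟩ := hne
  obtain ⟨x1, hx1, -, n₁, hn₁⟩ := hgood x0 hx0 1 one_pos
  have hdep : ∀ n, (∃ x ∈ H₁ \ H₂, FlatAt P n x) → n = n₁ ∨ n = -n₁ := by
    rintro n ⟨x, hx, hn⟩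
    apply not_indep hn₁.1 hn.1
    intro hi
    exact hcon ⟨n₁, n, hi, ⟨x1, hn₁⟩, ⟨x, hn⟩, ⟨g x1, transfer hPc hcomp hint hS g hg hx1 hn₁⟩,
      ⟨g x, transfer hPc hcomp hint hS g hg hx hn⟩⟩
  -- `H₁` lies in the supporting planes of good normals
  let D : E3 → Set E3 := fun n => {z | (∃ x ∈ H₁ \ H₂, FlatAt P n x) ∧ ∀ y ∈ P, inner ℝ n y ≤ inner ℝ n z}
  have hDc : ∀ n, IsClosed (D n) := by
    intro n
    by_cases hn : ∃ x ∈ H₁ \ H₂, FlatAt P n x
    · have : D n = ⋂ y ∈ P, {z | inner ℝ n y ≤ inner ℝ n z} := by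
        ext z
        simp only [D, mem_ofPred_eq, mem_iInter]
        exact ⟨fun h => h.2, fun h => ⟨hn, h⟩⟩
      rw [this]
      exact isClosed_biInter (fun y _ => isClosed_le continuous_const (continuous_const.inner continuous_id))
    · have : D n = ∅ := by
        ext z
        simp only [D, mem_ofPred_eq, mem_empty_iff_false, iff_false]
        exact fun h => hn h.1
      rw [this]
      exact isClosed_empty
  have hDu : IsClosed (D n₁ ∪ D (-n₁)) := (hDc n₁).union (hDc (-n₁))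
  have hH₁ : H₁ ⊆ D n₁ ∪ D (-n₁) := by
    rw [← hS.reg₁]
    apply closure_minimal _ hDu
    intro x hx
    rw [← hDu.closure_eq, Metric.mem_closure_iff]
    intro ε hε
    obtain ⟨z, hz, hzb, n, hn⟩ := hgood x hx ε hε
    refine ⟨z, ?_, by rw [dist_comm]; exact hzb⟩
    rcases hdep n ⟨z, hz, hn⟩ with h | h
    · left
      rw [← h]
      exact ⟨⟨z, hz, hn⟩, hn.2.2.2⟩
    · right
      rw [← h]
      exact ⟨⟨z, hz, hn⟩, hn.2.2.2⟩
  -- a direction parallel to all these planes and their images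
  let F : E3 →ₗ[ℝ] (Fin 2 → ℝ) :=
    LinearMap.pi ![(innerSL ℝ n₁ : E3 →ₗ[ℝ] ℝ), (innerSL ℝ (g.linearIsometryEquiv n₁) : E3 →ₗ[ℝ] ℝ)]
  have hker : LinearMap.ker F ≠ ⊥ := by
    apply LinearMap.ker_ne_bot_of_finrank_lt
    simp
  obtain ⟨w, hw, hw0⟩ := (Submodule.ne_bot_iff _).1 hker
  have hFw : F w = 0 := LinearMap.mem_ker.1 hw
  have hw1 : inner ℝ n₁ w = 0 := by
    have := congrFun hFw 0
    simpa [F] using this
  have hw2 : inner ℝ (g.linearIsometryEquiv n₁) w = 0 := by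
    have := congrFun hFw 1
    simpa [F] using this
  obtain ⟨t, ht⟩ := line_exit hcomp hcP hw0
  have hD : ∀ z ∈ H₁, ∃ n, (n = n₁ ∨ n = -n₁) ∧ z ∈ D n := by
    intro z hz
    rcases hH₁ hz with h | h
    · exact ⟨n₁, Or.inl rfl, h⟩
    · exact ⟨-n₁, Or.inr rfl, h⟩
  rw [← hS.cover] at ht
  rcases ht with ht | ht
  · obtain ⟨n, hn, ⟨⟨x, hx, hfl⟩, hsup⟩⟩ := hD _ ht
    have hn0 : n ≠ 0 := fun h => by
      have := hfl.1
      rw [h, norm_zero] at this
      exact zero_ne_one this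
    have h1 := strict hn0 hsup hc
    have h2 : inner ℝ n w = 0 := by
      rcases hn with rfl | rfl
      · exact hw1
      · rw [inner_neg_left, hw1, neg_zero]
    rw [inner_add_right, inner_smul_right, h2] at h1
    linarith
  · obtain ⟨z, hz, hzz⟩ := (hg ▸ ht : c + t • w ∈ g '' H₁)
    obtain ⟨n, hn, ⟨⟨x, hx, hfl⟩, hsup⟩⟩ := hD _ hz
    have htr := transfer hPc hcomp hint hS g hg hx hfl
    have hn0 : g.linearIsometryEquiv n ≠ 0 := fun h => by
      have := htr.1
      rw [h, norm_zero] at this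
      exact zero_ne_one this
    have hxP : x ∈ P := hfrP hfl.2.1
    have hd := lin_inner g n z x
    have hxz := hsup x hxP
    have hsup' : ∀ y ∈ P, inner ℝ (g.linearIsometryEquiv n) y ≤ inner ℝ (g.linearIsometryEquiv n) (g z) := by
      intro y hy
      have := htr.2.2.2 y hy
      linarith
    have h1 := strict hn0 hsup' hc
    have h2 : inner ℝ (g.linearIsometryEquiv n) w = 0 := by
      rcases hn with rfl | rfl
      · exact hw2
      · rw [map_neg, inner_neg_left, hw2, neg_zero]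
    rw [hzz, inner_add_right, inner_smul_right, h2] at h1
    linarith

/-! ### At most two isometries with given images of two independent vectors -/

theorem at_most_two {n₁ n₂ : E3} (h : Indep n₁ n₂) (m₁ m₂ : E3) :
    {L : E3 ≃ₗᵢ[ℝ] E3 | L n₁ = m₁ ∧ L n₂ = m₂}.encard ≤ 2 := by
  have hli : LinearIndependent ℝ ![n₁, n₂] := LinearIndependent.pair_iff.2 (fun a b hab => h a b hab)
  have hW : Module.finrank ℝ (Submodule.span ℝ (Set.range ![n₁, n₂])) = 2 := by
    rw [finrank_span_eq_card hli]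
    simp
  obtain ⟨n, hc1, hc2⟩ := core _ hW
  have hspan : ∀ (L L' : E3 →ₗ[ℝ] E3), L n₁ = L' n₁ → L n₂ = L' n₂ →
      ∀ x ∈ Submodule.span ℝ (Set.range ![n₁, n₂]), L x = L' x := by
    intro L L' e1 e2 x hx
    induction hx using Submodule.span_induction with
    | mem x hx =>
      obtain ⟨i, rfl⟩ := hx
      fin_cases i
      · exact e1
      · exact e2
    | zero => simp
    | add x y _ _ hx hy => rw [map_add, map_add, hx, hy]
    | smul c x _ hx => rw [map_smul, map_smul, hx]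
  rcases Set.eq_empty_or_nonempty {L : E3 ≃ₗᵢ[ℝ] E3 | L n₁ = m₁ ∧ L n₂ = m₂} with he | ⟨L0, hL0⟩
  · rw [he]
    simp
  · have hinj : Set.InjOn (fun L : E3 ≃ₗᵢ[ℝ] E3 => L n) {L : E3 ≃ₗᵢ[ℝ] E3 | L n₁ = m₁ ∧ L n₂ = m₂} := by
      rintro L ⟨a1, a2⟩ L' ⟨b1, b2⟩ hLL
      have := hc2 (L.toLinearEquiv : E3 →ₗ[ℝ] E3) (L'.toLinearEquiv : E3 →ₗ[ℝ] E3)
        (hspan _ _ (a1.trans b1.symm) (a2.trans b2.symm)) hLL
      ext1 x
      exact LinearMap.congr_fun this x
    rw [← hinj.encard_image]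
    have hsub : (fun L : E3 ≃ₗᵢ[ℝ] E3 => L n) '' {L : E3 ≃ₗᵢ[ℝ] E3 | L n₁ = m₁ ∧ L n₂ = m₂} ⊆
        {L0 n, -(L0 n)} := by
      rintro _ ⟨L, ⟨a1, a2⟩, rfl⟩
      have hfix := hspan ((L.trans L0.symm).toLinearEquiv : E3 →ₗ[ℝ] E3) LinearMap.id
        (by
          show L0.symm (L n₁) = n₁
          rw [a1, ← hL0.1, L0.symm_apply_apply])
        (by
          show L0.symm (L n₂) = n₂
          rw [a2, ← hL0.2, L0.symm_apply_apply])
      rcases hc1 (L.trans L0.symm) (fun w hw => hfix w hw) with h | h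
      · left
        have h' : L0.symm (L n) = n := h
        show L n = L0 n
        rw [← L0.apply_symm_apply (L n), h']
      · right
        have h' : L0.symm (L n) = -n := h
        show L n = -(L0 n)
        rw [← L0.apply_symm_apply (L n), h', map_neg]
    refine (Set.encard_le_encard hsub).trans ((Set.encard_insert_le _ _).trans ?_)
    rw [Set.encard_singleton]
    norm_num

/-- `g` maps one of the two regions of some splitting of the surface of `P` onto the other -/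
def Dissects (P : Set E3) (g : E3 ≃ᵢ E3) : Prop := ∃ H₁ H₂, Splits P H₁ H₂ ∧ g '' H₁ = H₂

theorem dissects_normals {P : Set E3} (hP : IsConvexPolyhedron P) {g : E3 ≃ᵢ E3} (hg : Dissects P g) :
    ∃ n₁ n₂, Indep n₁ n₂ ∧ IsFacetNormal P n₁ ∧ IsFacetNormal P n₂ ∧
      IsFacetNormal P (linearPart g n₁) ∧ IsFacetNormal P (linearPart g n₂) := by
  obtain ⟨H₁, H₂, hS, h⟩ := hg
  exact two_normals hP hS g.toRealAffineIsometryEquiv h

theorem bound {P : Set E3} (hP : IsConvexPolyhedron P) :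
    (linearPart '' {g | Dissects P g}).Finite ∧
      (linearPart '' {g | Dissects P g}).ncard ≤ 2 * {n | IsFacetNormal P n}.ncard ^ 4 := by
  classical
  have hN := normals_finite hP
  let Nf := hN.toFinset
  let Q := (Nf ×ˢ Nf) ×ˢ (Nf ×ˢ Nf)
  let A : (E3 × E3) × (E3 × E3) → Set (E3 ≃ₗᵢ[ℝ] E3) := fun q => {L | L q.1.1 = q.2.1 ∧ L q.1.2 = q.2.2}
  have hA : ∀ q, Indep q.1.1 q.1.2 → (A q).Finite := fun q hq =>
    Set.finite_of_encard_le_coe (k := 2) (at_most_two hq _ _)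
  let f : (E3 × E3) × (E3 × E3) → Finset (E3 ≃ₗᵢ[ℝ] E3) := fun q =>
    if h : Indep q.1.1 q.1.2 then (hA q h).toFinset else ∅
  have hf : ∀ q ∈ Q, (f q).card ≤ 2 := by
    intro q _
    by_cases h : Indep q.1.1 q.1.2
    · have h2 := at_most_two h q.2.1 q.2.2
      have e : f q = (hA q h).toFinset := by
        simp only [f, h, dif_pos]
      rw [e]
      have h3 : (A q).encard ≤ 2 := h2
      rw [(hA q h).encard_eq_coe_toFinset_card] at h3
      exact_mod_cast h3
    · have e : f q = ∅ := by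
        simp only [f, h, dif_neg, not_false_eq_true]
      rw [e]
      simp
  have hsub : linearPart '' {g | Dissects P g} ⊆ ((Q.biUnion f : Finset (E3 ≃ₗᵢ[ℝ] E3)) : Set (E3 ≃ₗᵢ[ℝ] E3)) := by
    rintro _ ⟨g, hg, rfl⟩
    obtain ⟨n₁, n₂, hi, a1, a2, a3, a4⟩ := dissects_normals hP hg
    rw [Finset.mem_coe, Finset.mem_biUnion]
    refine ⟨((n₁, n₂), (linearPart g n₁, linearPart g n₂)), ?_, ?_⟩
    · simp only [Q, Nf, Finset.mem_product, Set.Finite.mem_toFinset, mem_ofPred_eq]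
      exact ⟨⟨a1, a2⟩, a3, a4⟩
    · have e : f ((n₁, n₂), (linearPart g n₁, linearPart g n₂)) = (hA ((n₁, n₂), (linearPart g n₁, linearPart g n₂)) hi).toFinset := by
        simp only [f, hi, dif_pos]
      rw [e, Set.Finite.mem_toFinset]
      exact ⟨rfl, rfl⟩
  refine ⟨(Q.biUnion f).finite_toSet.subset hsub, ?_⟩
  have h1 := Set.ncard_le_ncard hsub (Q.biUnion f).finite_toSet
  rw [Set.ncard_coe_finset] at h1
  have h2 := Finset.card_biUnion_le_card_mul Q f 2 hf
  have h3 : Q.card = {n | IsFacetNormal P n}.ncard ^ 4 := by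
    rw [Set.ncard_eq_toFinset_card _ hN]
    simp only [Q, Finset.card_product]
    ring
  rw [h3] at h2
  linarith

/-- Let `P` be a convex polyhedron. It has finitely many facet normals. If an isometry `g` maps one of
the two regions of a splitting of the surface of `P` onto the other, its linear part maps two linearly
independent facet normals to facet normals. Over all splittings and all `g` at most `2 f ^ 4` linear
parts occur, where `f` is the number of facet normals. -/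
theorem result (P : Set E3) (hP : IsConvexPolyhedron P) :
    {n | IsFacetNormal P n}.Finite ∧
    (∀ g : E3 ≃ᵢ E3, Dissects P g → ∃ n₁ n₂, Indep n₁ n₂ ∧ IsFacetNormal P n₁ ∧ IsFacetNormal P n₂ ∧
      IsFacetNormal P (linearPart g n₁) ∧ IsFacetNormal P (linearPart g n₂)) ∧
    (linearPart '' {g | Dissects P g}).Finite ∧
    (linearPart '' {g | Dissects P g}).ncard ≤ 2 * {n | IsFacetNormal P n}.ncard ^ 4 :=
  ⟨normals_finite hP, fun _ hg => dissects_normals hP hg, (bound hP).1, (bound hP).2⟩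

end Pool.Agent.Results.MP_790b9f_lc.FacetNormals
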