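import Mathlib

set_option autoImplicit false

open Set Metric Topology

namespace Pool.Agent.Results.MP_790b9f_lc.ProperCongruence

/-- Euclidean three-space. -/
abbrev E3 := EuclideanSpace ℝ (Fin 3)

/-- A convex polyhedron: the convex hull of a finite set of points, with non-empty interior. -/
def IsConvexPolyhedron (P : Set E3) : Prop :=
  (interior P).Nonempty ∧ ∃ S : Set E3, S.Finite ∧ P = convexHull ℝ S

/-- The vertices of `P` are its extreme points. -/
def vertices (P : Set E3) : Set E3 := P.extremePoints ℝ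

/-- `H₁` and `H₂` are two closed regions of the surface `∂P` which cover it and meet in the
common boundary `B = H₁ ∩ H₂`: each of them is the closure of its part off `B`. -/
structure Splits (P H₁ H₂ : Set E3) : Prop where
  cover : H₁ ∪ H₂ = frontier P
  reg₁ : closure (H₁ \ H₂) = H₁
  reg₂ : closure (H₂ \ H₁) = H₂

/-! ### Gauge lemma: local inclusion of boundaries -/

theorem local_zero {P Q : Set E3} (hPc : Convex ℝ P) (hQc : Convex ℝ Q)
    (hP0 : P ∈ 𝓝 (0 : E3)) (hQ0 : Q ∈ 𝓝 (0 : E3)) {b : E3} (hb : b ∈ frontier Q)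
    {r : ℝ} (hr : 0 < r) (hsub : frontier Q ∩ ball b r ⊆ frontier P) :
    ∃ r' > 0, frontier P ∩ ball b r' ⊆ frontier Q := by
  have hcont : Continuous (gauge Q) := continuous_gauge hQc hQ0
  have hb1 : gauge Q b = 1 := (gauge_eq_one_iff_mem_frontier hQc hQ0).2 hb
  have hq : ContinuousAt (fun p : E3 => (gauge Q p)⁻¹ • p) b := by
    have h1 : ContinuousAt (fun p : E3 => (gauge Q p)⁻¹) b :=
      (hcont.continuousAt).inv₀ (by rw [hb1]; exact one_ne_zero)
    have h2 : ContinuousAt (fun p : E3 => p) b := continuousAt_id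
    exact h1.smul h2
  have hq' : Filter.Tendsto (fun p : E3 => (gauge Q p)⁻¹ • p) (𝓝 b) (𝓝 b) := by
    have := hq.tendsto
    simpa [hb1] using this
  have e1 : ∀ᶠ p in 𝓝 b, (gauge Q p)⁻¹ • p ∈ ball b r := hq' (ball_mem_nhds b hr)
  have e2 : ∀ᶠ p in 𝓝 b, 0 < gauge Q p :=
    hcont.continuousAt.eventually (lt_mem_nhds (by rw [hb1]; exact one_pos))
  obtain ⟨r', hr', hball⟩ := Metric.eventually_nhds_iff_ball.1 (e1.and e2)
  refine ⟨r', hr', ?_⟩
  rintro p ⟨hp, hpb⟩
  obtain ⟨h1, h2⟩ := hball p hpb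
  have hqf : (gauge Q p)⁻¹ • p ∈ frontier Q := by
    rw [← gauge_eq_one_iff_mem_frontier hQc hQ0, gauge_smul_of_nonneg (inv_nonneg.2 h2.le)]
    simp [h2.ne']
  have hqP : (gauge Q p)⁻¹ • p ∈ frontier P := hsub ⟨hqf, h1⟩
  have hp1 : gauge P p = 1 := (gauge_eq_one_iff_mem_frontier hPc hP0).2 hp
  have h3 := (gauge_eq_one_iff_mem_frontier hPc hP0).2 hqP
  rw [gauge_smul_of_nonneg (inv_nonneg.2 h2.le), hp1] at h3
  have h4 : gauge Q p = 1 := by
    simpa using h3
  exact (gauge_eq_one_iff_mem_frontier hQc hQ0).1 h4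

theorem local_incl {P Q : Set E3} (hPc : Convex ℝ P) (hQc : Convex ℝ Q) {c : E3}
    (hcP : c ∈ interior P) (hcQ : c ∈ interior Q) {b : E3} (hb : b ∈ frontier Q)
    {r : ℝ} (hr : 0 < r) (hsub : frontier Q ∩ ball b r ⊆ frontier P) :
    ∃ r' > 0, frontier P ∩ ball b r' ⊆ frontier Q := by
  let τ : E3 ≃ₜ E3 := Homeomorph.addRight c
  have hτ : ∀ x, τ x = x + c := fun x => rfl
  have hfr : ∀ (S : Set E3) (x : E3), x ∈ frontier (τ ⁻¹' S) ↔ x + c ∈ frontier S := by
    intro S x
    rw [← τ.preimage_frontier]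
    rfl
  have hPc' : Convex ℝ (τ ⁻¹' P) := by
    have := hPc.translate_preimage_left c
    exact this
  have hQc' : Convex ℝ (τ ⁻¹' Q) := by
    have := hQc.translate_preimage_left c
    exact this
  have hP0 : τ ⁻¹' P ∈ 𝓝 (0 : E3) := by
    apply τ.continuous.continuousAt.preimage_mem_nhds
    rw [hτ, zero_add]
    exact mem_interior_iff_mem_nhds.1 hcP
  have hQ0 : τ ⁻¹' Q ∈ 𝓝 (0 : E3) := by
    apply τ.continuous.continuousAt.preimage_mem_nhds
    rw [hτ, zero_add]
    exact mem_interior_iff_mem_nhds.1 hcQ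
  have hb' : b - c ∈ frontier (τ ⁻¹' Q) := by
    rw [hfr, sub_add_cancel]; exact hb
  have hsub' : frontier (τ ⁻¹' Q) ∩ ball (b - c) r ⊆ frontier (τ ⁻¹' P) := by
    rintro x ⟨hx1, hx2⟩
    rw [hfr] at hx1 ⊢
    apply hsub ⟨hx1, ?_⟩
    rw [mem_ball, dist_eq_norm] at hx2 ⊢
    have : x + c - b = x - (b - c) := by abel
    rwa [this]
  obtain ⟨r', hr', h⟩ := local_zero hPc' hQc' hP0 hQ0 hb' hr hsub'
  refine ⟨r', hr', ?_⟩
  rintro p ⟨hp1, hp2⟩
  have h1 : p - c ∈ frontier (τ ⁻¹' P) := by rw [hfr, sub_add_cancel]; exact hp1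
  have h2 : p - c ∈ ball (b - c) r' := by
    rw [mem_ball, dist_eq_norm] at hp2 ⊢
    have : p - c - (b - c) = p - b := by abel
    rwa [this]
  have h3 := h ⟨h1, h2⟩
  rwa [hfr, sub_add_cancel] at h3

/-! ### The two bodies overlap -/

theorem overlap {P : Set E3} (hPc : Convex ℝ P) (hcomp : IsCompact P)
    (hint : (interior P).Nonempty) {H₁ H₂ : Set E3} (hcov : H₁ ∪ H₂ = frontier P)
    (g : E3 ≃ᵃⁱ[ℝ] E3) (hg : g '' H₁ = H₂) :
    ∃ c, c ∈ interior P ∧ c ∈ interior (g '' P) := by
  by_contra hcon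
  push Not at hcon
  have hgc : Convex ℝ (g '' P) := by
    have := hPc.affine_image (g.toAffineEquiv : E3 →ᵃ[ℝ] E3)
    exact this
  have hgint : interior (g '' P) = g '' interior P := by
    have := g.toHomeomorph.image_interior P
    exact this.symm
  have hdisj : Disjoint (interior P) (interior (g '' P)) := by
    rw [Set.disjoint_left]
    exact hcon
  obtain ⟨f, u, hf1, hf2⟩ := geometric_hahn_banach_open_open hPc.interior isOpen_interior
    hgc.interior isOpen_interior hdisj
  have hPcl : closure (interior P) = P := by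
    rw [hPc.closure_interior_eq_closure_of_nonempty_interior hint, hcomp.isClosed.closure_eq]
  have hfP : ∀ y ∈ P, f y ≤ u := by
    intro y hy
    rw [← hPcl] at hy
    have hcl : IsClosed {y : E3 | f y ≤ u} := isClosed_le f.continuous continuous_const
    exact closure_minimal (fun z hz => (hf1 z hz).le) hcl hy
  have hfg : ∀ y ∈ P, u ≤ f (g y) := by
    intro y hy
    rw [← hPcl] at hy
    have hcl : IsClosed {y : E3 | u ≤ f (g y)} :=
      isClosed_le continuous_const (f.continuous.comp g.continuous)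
    refine closure_minimal (fun z hz => ?_) hcl hy
    exact (hf2 (g z) (by rw [hgint]; exact ⟨z, hz, rfl⟩)).le
  have hfrP : frontier P ⊆ P := hcomp.isClosed.frontier_subset
  have hH1 : H₁ ⊆ P := fun x hx => hfrP (hcov ▸ Or.inl hx)
  have hH2 : H₂ ⊆ P := fun x hx => hfrP (hcov ▸ Or.inr hx)
  have hu1 : ∀ x ∈ H₁, f (g x) = u := by
    intro x hx
    have hgx : g x ∈ H₂ := by rw [← hg]; exact ⟨x, hx, rfl⟩
    exact le_antisymm (hfP _ (hH2 hgx)) (hfg x (hH1 hx))
  have hu2 : ∀ x ∈ H₂, f x = u := by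
    intro x hx
    obtain ⟨y, hy, rfl⟩ := (hg ▸ hx : x ∈ g '' H₁)
    exact hu1 y hy
  obtain ⟨c, hc⟩ := hint
  -- a direction parallel to both planes
  let L : E3 →ₗ[ℝ] E3 := g.linearIsometryEquiv.toLinearEquiv.toLinearMap
  let F : E3 →ₗ[ℝ] (Fin 2 → ℝ) :=
    LinearMap.pi ![(f : E3 →ₗ[ℝ] ℝ), (f : E3 →ₗ[ℝ] ℝ).comp L]
  have hker : LinearMap.ker F ≠ ⊥ := by
    apply LinearMap.ker_ne_bot_of_finrank_lt
    simp
  obtain ⟨w, hw, hw0⟩ := (Submodule.ne_bot_iff _).1 hker
  have hFw : F w = 0 := LinearMap.mem_ker.1 hw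
  have hw1 : f w = 0 := by
    have := congrFun hFw 0
    simpa [F] using this
  have hw2 : f (g.linearIsometryEquiv w) = 0 := by
    have := congrFun hFw 1
    simpa [F, L] using this
  have hgw : ∀ t : ℝ, g (c + t • w) = g c + t • g.linearIsometryEquiv w := by
    intro t
    have := g.map_vadd c (t • w)
    simp only [vadd_eq_add] at this
    rw [add_comm c, this, map_smul, add_comm]
  -- the line through c leaves P
  let φ : ℝ → E3 := fun t => c + t • w
  have hφ : Continuous φ := by fun_prop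
  have hn : ∃ t : ℝ, c + t • w ∈ frontier P := by
    have hne : (frontier (φ ⁻¹' P)).Nonempty := by
      rw [nonempty_frontier_iff]
      refine ⟨⟨0, by simpa [φ] using interior_subset hc⟩, fun huniv => ?_⟩
      obtain ⟨R, hR⟩ := hcomp.isBounded.exists_norm_le
      have hmem : c + ((R + ‖c‖ + 1) / ‖w‖) • w ∈ P := by
        have : ((R + ‖c‖ + 1) / ‖w‖) ∈ φ ⁻¹' P := by rw [huniv]; exact mem_univ _
        exact this
      have h1 := hR _ hmem
      have hwpos : 0 < ‖w‖ := norm_pos_iff.2 hw0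
      have hR0 : 0 ≤ R := le_trans (norm_nonneg _) h1
      have h2 : ‖((R + ‖c‖ + 1) / ‖w‖) • w‖ = R + ‖c‖ + 1 := by
        rw [norm_smul, Real.norm_of_nonneg (by positivity)]
        field_simp
      have h3 : ‖((R + ‖c‖ + 1) / ‖w‖) • w‖ ≤ ‖c + ((R + ‖c‖ + 1) / ‖w‖) • w‖ + ‖c‖ := by
        have := norm_sub_le (c + ((R + ‖c‖ + 1) / ‖w‖) • w) c
        simpa using this
      linarith
    obtain ⟨t, ht⟩ := hne
    exact ⟨t, hφ.frontier_preimage_subset P ht⟩
  obtain ⟨t, hx⟩ := hn
  rw [← hcov] at hx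
  have hfc : f c < u := hf1 c hc
  have hfgc : u < f (g c) := hf2 (g c) (by rw [hgint]; exact ⟨c, hc, rfl⟩)
  rcases hx with hx | hx
  · have h := hu1 _ hx
    simp only [hgw] at h
    rw [map_add, map_smul, hw2, smul_zero, add_zero] at h
    linarith
  · have h := hu2 _ hx
    rw [map_add, map_smul, hw1, smul_zero, add_zero] at h
    linarith

/-! ### Off the belt -/

theorem off_ball {P H₁ H₂ : Set E3} (hS : Splits P H₁ H₂) {x : E3} (hx : x ∈ H₁ \ H₂) :
    ∃ r > 0, frontier P ∩ ball x r ⊆ H₁ \ H₂ := by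
  have hcl : IsClosed H₂ := by rw [← hS.reg₂]; exact isClosed_closure
  obtain ⟨r, hr, h⟩ := Metric.isOpen_iff.1 hcl.isOpen_compl x hx.2
  refine ⟨r, hr, ?_⟩
  rintro y ⟨hy1, hy2⟩
  have hy3 : y ∉ H₂ := h hy2
  rw [← hS.cover] at hy1
  exact ⟨hy1.resolve_right hy3, hy3⟩

theorem image_ball (g : E3 ≃ᵃⁱ[ℝ] E3) (P : Set E3) (x : E3) (r : ℝ) :
    g '' (frontier P ∩ ball x r) = frontier (g '' P) ∩ ball (g x) r := by
  rw [Set.image_inter g.injective]
  congr 1
  · exact g.toHomeomorph.image_frontier P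
  · exact g.toIsometryEquiv.image_ball x r

theorem Splits.symm {P H₁ H₂ : Set E3} (hS : Splits P H₁ H₂) : Splits P H₂ H₁ :=
  ⟨by rw [union_comm]; exact hS.cover, hS.reg₂, hS.reg₁⟩

theorem off_maps {P H₁ H₂ : Set E3} (hPc : Convex ℝ P) (hcomp : IsCompact P)
    (hint : (interior P).Nonempty) (hS : Splits P H₁ H₂)
    (g : E3 ≃ᵃⁱ[ℝ] E3) (hg : g '' H₁ = H₂) {x : E3} (hx : x ∈ H₁ \ H₂) :
    g x ∈ H₂ \ H₁ := by
  have hgx : g x ∈ H₂ := by rw [← hg]; exact ⟨x, hx.1, rfl⟩
  refine ⟨hgx, fun hmem => ?_⟩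
  obtain ⟨c, hc1, hc2⟩ := overlap hPc hcomp hint hS.cover g hg
  obtain ⟨r, hr, h⟩ := off_ball hS hx
  have hxf : x ∈ frontier P := by rw [← hS.cover]; exact Or.inl hx.1
  have hgc : Convex ℝ (g '' P) := hPc.affine_image (g.toAffineEquiv : E3 →ᵃ[ℝ] E3)
  have himg := image_ball g P x r
  have hb : g x ∈ frontier (g '' P) := by
    have : g x ∈ g '' (frontier P ∩ ball x r) := ⟨x, ⟨hxf, mem_ball_self hr⟩, rfl⟩
    rw [himg] at this
    exact this.1
  have hsubH : frontier (g '' P) ∩ ball (g x) r ⊆ H₂ := by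
    rw [← himg, ← hg]
    rintro _ ⟨y, hy, rfl⟩
    exact ⟨y, (h hy).1, rfl⟩
  have hsub : frontier (g '' P) ∩ ball (g x) r ⊆ frontier P := by
    refine hsubH.trans ?_
    rw [← hS.cover]
    exact subset_union_right
  obtain ⟨r', hr', h'⟩ := local_incl hPc hgc hc1 hc2 hb hr hsub
  rw [← hS.reg₁, Metric.mem_closure_iff] at hmem
  obtain ⟨z, hz, hzd⟩ := hmem (min r r') (lt_min hr hr')
  rw [dist_comm] at hzd
  have hzf : z ∈ frontier P := by rw [← hS.cover]; exact Or.inl hz.1
  have hz' : z ∈ frontier (g '' P) :=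
    h' ⟨hzf, mem_ball.2 (lt_of_lt_of_le hzd (min_le_right _ _))⟩
  exact hz.2 (hsubH ⟨hz', mem_ball.2 (lt_of_lt_of_le hzd (min_le_left _ _))⟩)

theorem symm_image {H₁ H₂ : Set E3} (g : E3 ≃ᵃⁱ[ℝ] E3) (hg : g '' H₁ = H₂) :
    g.symm '' H₂ = H₁ := by
  rw [← hg, Set.image_image]
  simp

theorem off_iff {P H₁ H₂ : Set E3} (hPc : Convex ℝ P) (hcomp : IsCompact P)
    (hint : (interior P).Nonempty) (hS : Splits P H₁ H₂)
    (g : E3 ≃ᵃⁱ[ℝ] E3) (hg : g '' H₁ = H₂) (x : E3) :
    g x ∈ H₂ \ H₁ ↔ x ∈ H₁ \ H₂ := by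
  constructor
  · intro h
    have := off_maps hPc hcomp hint hS.symm g.symm (symm_image g hg) h
    simpa using this
  · exact off_maps hPc hcomp hint hS g hg

theorem off_image {P H₁ H₂ : Set E3} (hPc : Convex ℝ P) (hcomp : IsCompact P)
    (hint : (interior P).Nonempty) (hS : Splits P H₁ H₂)
    (g : E3 ≃ᵃⁱ[ℝ] E3) (hg : g '' H₁ = H₂) :
    g '' (H₁ \ H₂) = H₂ \ H₁ := by
  ext y
  constructor
  · rintro ⟨x, hx, rfl⟩
    exact (off_iff hPc hcomp hint hS g hg x).2 hx
  · intro hy
    refine ⟨g.symm y, ?_, by simp⟩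
    rw [← off_iff hPc hcomp hint hS g hg]
    simpa using hy

theorem belt_image {P H₁ H₂ : Set E3} (hPc : Convex ℝ P) (hcomp : IsCompact P)
    (hint : (interior P).Nonempty) (hS : Splits P H₁ H₂)
    (g : E3 ≃ᵃⁱ[ℝ] E3) (hg : g '' H₁ = H₂) :
    g '' (H₁ ∩ H₂) = H₁ ∩ H₂ := by
  have h1 : H₁ ∩ H₂ = H₁ \ (H₁ \ H₂) := by rw [sdiff_sdiff_right_self]
  have h2 : H₁ ∩ H₂ = H₂ \ (H₂ \ H₁) := by rw [sdiff_sdiff_right_self, inter_comm]
  conv_lhs => rw [h1]
  rw [Set.image_sdiff g.injective, hg, off_image hPc hcomp hint hS g hg, ← h2]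

theorem extreme_frontier {P : Set E3} {v : E3} (hv : v ∈ P.extremePoints ℝ) :
    v ∈ frontier P := by
  refine ⟨subset_closure hv.1, fun hint => ?_⟩
  obtain ⟨r, hr, hball⟩ := Metric.isOpen_iff.1 isOpen_interior v hint
  let e : E3 := EuclideanSpace.single (0 : Fin 3) (1 : ℝ)
  have he : ‖e‖ = 1 := by simp [e]
  have h1 : v + (r / 2) • e ∈ P := by
    apply interior_subset
    apply hball
    rw [mem_ball, dist_eq_norm, add_sub_cancel_left, norm_smul, he, Real.norm_of_nonneg (by positivity)]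
    linarith
  have h2 : v - (r / 2) • e ∈ P := by
    apply interior_subset
    apply hball
    rw [mem_ball, dist_eq_norm, sub_sub_cancel_left, norm_neg, norm_smul, he,
      Real.norm_of_nonneg (by positivity)]
    linarith
  have h3 : v ∈ openSegment ℝ (v + (r / 2) • e) (v - (r / 2) • e) := by
    refine ⟨1 / 2, 1 / 2, by norm_num, by norm_num, by norm_num, ?_⟩
    rw [← smul_add]
    have : v + (r / 2) • e + (v - (r / 2) • e) = (2 : ℝ) • v := by
      rw [two_smul]; abel
    rw [this, smul_smul]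
    norm_num
  have h4 := hv.2 h1 h2 h3
  have h5 : (r / 2) • e = 0 := by simpa using h4
  have h6 : ‖(r / 2) • e‖ = r / 2 := by
    rw [norm_smul, he, Real.norm_of_nonneg (by positivity), mul_one]
  rw [h5, norm_zero] at h6
  linarith

theorem core (W : Submodule ℝ E3) (hW : Module.finrank ℝ W = 2) :
    ∃ n : E3, (∀ L : E3 ≃ₗᵢ[ℝ] E3, (∀ w ∈ W, L w = w) → L n = n ∨ L n = -n) ∧
      (∀ L L' : E3 →ₗ[ℝ] E3, (∀ w ∈ W, L w = L' w) → L n = L' n → L = L') := by
  have h1 : Module.finrank ℝ Wᗮ = 1 := by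
    have := W.finrank_add_finrank_orthogonal
    rw [hW, finrank_euclideanSpace, Fintype.card_fin] at this
    omega
  obtain ⟨⟨n, hn⟩, hn0, hspan⟩ := finrank_eq_one_iff'.1 h1
  have hspan' : ∀ y ∈ Wᗮ, ∃ c : ℝ, c • n = y := by
    intro y hy
    obtain ⟨c, hc⟩ := hspan ⟨y, hy⟩
    exact ⟨c, congrArg Subtype.val hc⟩
  have hn0' : n ≠ 0 := fun h => hn0 (by ext1; exact h)
  refine ⟨n, ?_, ?_⟩
  · intro L hL
    have hmem : L n ∈ Wᗮ := by
      rw [Submodule.mem_orthogonal]
      intro w hw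
      rw [← hL w hw, L.inner_map_map]
      exact (Submodule.mem_orthogonal _ _).1 hn w hw
    obtain ⟨c, hc⟩ := hspan' _ hmem
    have h2 : ‖c • n‖ = ‖n‖ := by rw [hc, L.norm_map]
    rw [norm_smul] at h2
    have h3 : ‖c‖ = 1 := by
      have hp : ‖n‖ ≠ 0 := norm_ne_zero_iff.2 hn0'
      field_simp at h2
      exact h2
    rw [Real.norm_eq_abs] at h3
    rcases (abs_eq (by norm_num : (0:ℝ) ≤ 1)).1 h3 with h | h
    · left; rw [← hc, h, one_smul]
    · right; rw [← hc, h, neg_smul, one_smul]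
  · intro L L' hL hLn
    ext1 x
    obtain ⟨y, hy, z, hz, hx⟩ := W.exists_add_mem_mem_orthogonal x
    obtain ⟨c, hc⟩ := hspan' z hz
    rw [hx, map_add, map_add, hL y hy, ← hc, map_smul, map_smul, hLn]


/-! ### A linear isometry whose square fixes a plane -/

theorem square_fix (L : E3 ≃ₗᵢ[ℝ] E3) (W : Submodule ℝ E3) (hW : Module.finrank ℝ W = 2)
    (hM : ∀ w ∈ W, L (L w) = w) : ∀ x, L (L x) = x := by
  have h1 : Module.finrank ℝ Wᗮ = 1 := by
    have := W.finrank_add_finrank_orthogonal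
    rw [hW, finrank_euclideanSpace, Fintype.card_fin] at this
    omega
  obtain ⟨⟨n, hn⟩, hn0, hspan⟩ := finrank_eq_one_iff'.1 h1
  have hspan' : ∀ y ∈ Wᗮ, ∃ c : ℝ, c • n = y := by
    intro y hy
    obtain ⟨c, hc⟩ := hspan ⟨y, hy⟩
    exact ⟨c, congrArg Subtype.val hc⟩
  have hn0' : n ≠ 0 := fun h => hn0 (by ext1; exact h)
  have hnn : ‖n‖ ≠ 0 := norm_ne_zero_iff.2 hn0'
  -- a multiple of `n` which is the image of `n` under an isometry is `± n`
  have hpm : ∀ c : ℝ, ‖c • n‖ = ‖n‖ → c = 1 ∨ c = -1 := by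
    intro c h2
    rw [norm_smul] at h2
    have h3 : ‖c‖ = 1 := by
      field_simp at h2
      exact h2
    rw [Real.norm_eq_abs] at h3
    exact (abs_eq (by norm_num : (0:ℝ) ≤ 1)).1 h3
  have hMn : L (L n) ∈ Wᗮ := by
    rw [Submodule.mem_orthogonal]
    intro w hw
    rw [← hM w hw, L.inner_map_map, L.inner_map_map]
    exact (Submodule.mem_orthogonal _ _).1 hn w hw
  obtain ⟨c, hc⟩ := hspan' _ hMn
  have hcc := hpm c (by rw [hc, L.norm_map, L.norm_map])
  have hfix : L (L n) = n := by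
    rcases hcc with h | h
    · rw [← hc, h, one_smul]
    · exfalso
      have hneg : L (L n) = -n := by rw [← hc, h, neg_smul, one_smul]
      -- `L` preserves `W`
      have hLW : ∀ w ∈ W, L w ∈ W := by
        intro w hw
        obtain ⟨y, hy, z, hz, hx⟩ := W.exists_add_mem_mem_orthogonal (L w)
        obtain ⟨d, hd⟩ := hspan' z hz
        have e1 : L (L (L w)) = L w := congrArg L (hM w hw)
        have e2 : L (L (L w)) = y - z := by
          rw [hx, map_add, map_add, hM y hy, ← hd, map_smul, map_smul, hneg, smul_neg]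
          abel
        rw [e1, hx] at e2
        have e3 : (2 : ℝ) • z = 0 := by
          rw [two_smul]
          have : z + z = (y + z) - (y - z) := by abel
          rw [this, ← e2]; abel
        have e4 : z = 0 := by
          rcases smul_eq_zero.1 e3 with h | h
          · norm_num at h
          · exact h
        rw [hx, e4, add_zero]
        exact hy
      have hLn : L n ∈ Wᗮ := by
        rw [Submodule.mem_orthogonal]
        intro w hw
        have : inner ℝ w (L n) = inner ℝ (L (L w)) (L n) := by rw [hM w hw]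
        rw [this, L.inner_map_map]
        exact (Submodule.mem_orthogonal _ _).1 hn _ (hLW w hw)
      obtain ⟨k, hk⟩ := hspan' _ hLn
      have hk1 := hpm k (by rw [hk, L.norm_map])
      have : L (L n) = n := by
        rw [← hk, map_smul, ← hk, smul_smul]
        rcases hk1 with h | h <;> rw [h] <;> norm_num
      rw [this] at hneg
      have h2 : (2 : ℝ) • n = 0 := by
        rw [two_smul]
        nth_rewrite 1 [hneg]
        abel
      rcases smul_eq_zero.1 h2 with h | h
      · norm_num at h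
      · exact hn0' h
  intro x
  obtain ⟨y, hy, z, hz, hx⟩ := W.exists_add_mem_mem_orthogonal x
  obtain ⟨d, hd⟩ := hspan' z hz
  rw [hx, map_add, map_add, hM y hy, ← hd, map_smul, map_smul, hfix]

/-! ### A fixed point in a compact convex set -/

theorem fixed_point {K : Set E3} (hK : Convex ℝ K) (hcomp : IsCompact K) (hne : K.Nonempty)
    (g : E3 ≃ᵃⁱ[ℝ] E3) (hg : ∀ x ∈ K, g x ∈ K) : ∃ c ∈ K, g c = c := by
  obtain ⟨x0, hx0⟩ := hne
  obtain ⟨c, hcK, hcmin⟩ := hcomp.exists_isMinOn ⟨x0, hx0⟩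
    (f := fun x => dist (g x) x) (g.continuous.dist continuous_id).continuousOn
  refine ⟨c, hcK, ?_⟩
  have hiter : ∀ n : ℕ, g^[n] x0 ∈ K := by
    intro n
    induction n with
    | zero => exact hx0
    | succ n ih => rw [Function.iterate_succ_apply']; exact hg _ ih
  obtain ⟨R, hR⟩ := hcomp.isBounded.exists_norm_le
  have hR0 : 0 ≤ R := (norm_nonneg _).trans (hR x0 hx0)
  have hlin : ∀ y, g y = g 0 + g.linearIsometryEquiv y := by
    intro y
    have := g.map_vadd 0 y
    simp only [vadd_eq_add, add_zero] at this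
    rw [this, add_comm]
  have key : ∀ n : ℕ, 0 < n → dist (g c) c ≤ 2 * R / n := by
    intro n hn
    have hn' : (0 : ℝ) < n := by exact_mod_cast hn
    let xn : E3 := (n : ℝ)⁻¹ • ∑ k ∈ Finset.range n, g^[k] x0
    have hxn : xn ∈ K := by
      have h1 : xn = ∑ k ∈ Finset.range n, (n : ℝ)⁻¹ • g^[k] x0 := by
        simp only [xn, Finset.smul_sum]
      rw [h1]
      apply hK.sum_mem
      · intro i _; positivity
      · rw [Finset.sum_const, Finset.card_range, nsmul_eq_mul, mul_inv_cancel₀ hn'.ne']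
      · intro i _; exact hiter i
    have hgx : g xn = (n : ℝ)⁻¹ • ∑ k ∈ Finset.range n, g^[k + 1] x0 := by
      rw [hlin]
      simp only [xn]
      rw [map_smul, map_sum]
      have h2 : ∑ k ∈ Finset.range n, g^[k + 1] x0 =
          (n : ℝ) • g 0 + ∑ k ∈ Finset.range n, g.linearIsometryEquiv (g^[k] x0) := by
        have : ∀ k ∈ Finset.range n, g^[k + 1] x0 = g 0 + g.linearIsometryEquiv (g^[k] x0) := by
          intro k _
          rw [Function.iterate_succ_apply', ← hlin]
        rw [Finset.sum_congr rfl this, Finset.sum_add_distrib, Finset.sum_const,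
          Finset.card_range, Nat.cast_smul_eq_nsmul]
      rw [h2, smul_add, smul_smul, inv_mul_cancel₀ hn'.ne', one_smul]
    have hdiff : g xn - xn = (n : ℝ)⁻¹ • (g^[n] x0 - x0) := by
      rw [hgx]
      simp only [xn]
      rw [← smul_sub, ← Finset.sum_sub_distrib, Finset.sum_range_sub (fun k => g^[k] x0)]
      rfl
    have h3 : dist (g xn) xn ≤ 2 * R / n := by
      rw [dist_eq_norm, hdiff, norm_smul, norm_inv, Real.norm_of_nonneg hn'.le]
      have h4 : ‖g^[n] x0 - x0‖ ≤ 2 * R := by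
        calc ‖g^[n] x0 - x0‖ ≤ ‖g^[n] x0‖ + ‖x0‖ := norm_sub_le _ _
          _ ≤ R + R := add_le_add (hR _ (hiter n)) (hR _ hx0)
          _ = 2 * R := by ring
      rw [div_eq_inv_mul]
      exact mul_le_mul_of_nonneg_left h4 (by positivity)
    exact (hcmin hxn).trans h3
  have h0 : dist (g c) c ≤ 0 := by
    have hlim : Filter.Tendsto (fun n : ℕ => 2 * R / (n : ℝ)) Filter.atTop (𝓝 0) :=
      tendsto_const_div_atTop_nhds_zero_nat _
    refine ge_of_tendsto hlim ?_
    filter_upwards [Filter.eventually_gt_atTop 0] with n hn using key n hn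
  exact dist_le_zero.1 h0

/-! ### The belt is not empty -/

theorem belt_nonempty {P H₁ H₂ : Set E3} (hPc : Convex ℝ P) (hcomp : IsCompact P)
    (hint : (interior P).Nonempty) (hS : Splits P H₁ H₂)
    (g : E3 ≃ᵃⁱ[ℝ] E3) (hg : g '' H₁ = H₂) : (H₁ ∩ H₂).Nonempty := by
  obtain ⟨h, -, -, hfr⟩ :=
    exists_homeomorph_image_interior_closure_frontier_eq_unitBall hPc hint hcomp.isBounded
  have hrank : 1 < Module.rank ℝ E3 := by
    rw [← Module.finrank_eq_rank, finrank_euclideanSpace, Fintype.card_fin]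
    norm_num
  have hconn : IsPreconnected (frontier P) := by
    have h1 : frontier P = h.symm '' sphere (0 : E3) 1 := by
      rw [← hfr, Set.image_image]; simp
    rw [h1]
    exact (isPreconnected_sphere hrank 0 1).image _ h.symm.continuous.continuousOn
  have hfne : (frontier P).Nonempty := by
    have h1 : (sphere (0 : E3) 1).Nonempty := NormedSpace.sphere_nonempty.2 (by norm_num)
    rw [← hfr] at h1
    exact h1.of_image
  have hH1 : H₁.Nonempty := by
    rw [Set.nonempty_iff_ne_empty]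
    intro h0
    have h2 : H₂ = ∅ := by rw [← hg, h0, Set.image_empty]
    rw [← hS.cover, h0, h2, Set.union_empty] at hfne
    exact Set.not_nonempty_empty hfne
  have hH2 : H₂.Nonempty := by rw [← hg]; exact hH1.image g
  have hc1 : IsClosed H₁ := by rw [← hS.reg₁]; exact isClosed_closure
  have hc2 : IsClosed H₂ := by rw [← hS.reg₂]; exact isClosed_closure
  have hs1 : H₁ ⊆ frontier P := by rw [← hS.cover]; exact subset_union_left
  have hs2 : H₂ ⊆ frontier P := by rw [← hS.cover]; exact subset_union_right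
  have h3 := isPreconnected_closed_iff.1 hconn H₁ H₂ hc1 hc2 (by rw [hS.cover])
    (by rw [inter_eq_right.2 hs1]; exact hH1) (by rw [inter_eq_right.2 hs2]; exact hH2)
  exact h3.mono inter_subset_right

/-! ### Orientation preserving isometries fix a direction -/

theorem fixed_vector (L : E3 ≃ₗᵢ[ℝ] E3)
    (hdet : LinearMap.det (L.toLinearEquiv : E3 →ₗ[ℝ] E3) = 1) : ∃ w : E3, w ≠ 0 ∧ L w = w := by
  let b := (EuclideanSpace.basisFun (Fin 3) ℝ)
  let A : Matrix (Fin 3) (Fin 3) ℝ :=
    LinearMap.toMatrix b.toBasis b.toBasis (L.toLinearEquiv : E3 →ₗ[ℝ] E3)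
  let C : Matrix (Fin 3) (Fin 3) ℝ :=
    LinearMap.toMatrix b.toBasis b.toBasis (L.symm.toLinearEquiv : E3 →ₗ[ℝ] E3)
  have hAC : A * C = 1 := by
    simp only [A, C]
    rw [← LinearMap.toMatrix_comp]
    have : (L.toLinearEquiv : E3 →ₗ[ℝ] E3) ∘ₗ (L.symm.toLinearEquiv : E3 →ₗ[ℝ] E3) =
        LinearMap.id := by
      ext1 x
      simp
    rw [this, LinearMap.toMatrix_id]
  have hCt : C = A.transpose := by
    ext i j
    simp only [A, C, Matrix.transpose_apply, LinearMap.toMatrix_apply]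
    have e1 : ∀ (x : E3) (k : Fin 3), b.toBasis.repr x k = inner ℝ (b k) x := by
      intro x k
      rw [OrthonormalBasis.coe_toBasis_repr_apply, OrthonormalBasis.repr_apply_apply]
    rw [e1, e1]
    simp only [OrthonormalBasis.coe_toBasis]
    have e2 : inner ℝ (b i) (L.symm (b j)) = inner ℝ (L (b i)) (b j) := by
      rw [← L.inner_map_map, L.apply_symm_apply]
    have e3 : inner ℝ (b j) (L (b i)) = inner ℝ (L (b i)) (b j) := real_inner_comm _ _
    exact e2.trans e3.symm
  have hdetA : A.det = 1 := by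
    simp only [A]
    rw [LinearMap.det_toMatrix]
    exact hdet
  have hz : (A - 1).det = 0 := by
    have h1 : A - 1 = A * (1 - A.transpose) := by
      rw [mul_sub, mul_one, ← hCt, hAC]
    have h2 : (A - 1).det = (1 - A).det := by
      conv_lhs => rw [h1]
      rw [Matrix.det_mul, hdetA, one_mul]
      have : (1 - A.transpose) = (1 - A).transpose := by
        rw [Matrix.transpose_sub, Matrix.transpose_one]
      rw [this, Matrix.det_transpose]
    have h3 : (1 - A).det = -(A - 1).det := by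
      have : (1 - A) = -(A - 1) := by abel
      rw [this, Matrix.det_neg]
      simp
      norm_num
    linarith
  have hdet0 : LinearMap.det ((L.toLinearEquiv : E3 →ₗ[ℝ] E3) - LinearMap.id) = 0 := by
    rw [← LinearMap.det_toMatrix b.toBasis, map_sub, LinearMap.toMatrix_id]
    exact hz
  have hker := LinearMap.bot_lt_ker_of_det_eq_zero hdet0
  obtain ⟨w, hw, hw0⟩ := (Submodule.ne_bot_iff _).1 hker.ne'
  refine ⟨w, hw0, ?_⟩
  have := LinearMap.mem_ker.1 hw
  simp only [LinearMap.sub_apply, LinearMap.id_apply] at this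
  exact sub_eq_zero.1 this

/-! ### Simple polygons -/

/-- `B` is, near each of its points `a`, the union of two different segments which start in `a`.
Every simple closed polygon has this property. -/
def LocallyTwoSegments (B : Set E3) : Prop :=
  ∀ a ∈ B, ∃ r : ℝ, 0 < r ∧ ∃ u₁ u₂ : E3, ‖u₁‖ = 1 ∧ ‖u₂‖ = 1 ∧ u₁ ≠ u₂ ∧
    B ∩ ball a r = {x | ∃ t : ℝ, 0 ≤ t ∧ t < r ∧ (x = a + t • u₁ ∨ x = a + t • u₂)}

/-- At a fixed point `a` of `g` on an invariant set which is locally two segments the square of the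
linear part of `g` fixes both directions. -/
theorem branches {B : Set E3} (g : E3 ≃ᵃⁱ[ℝ] E3) (hB : g '' B = B) {a : E3} (ha : g a = a)
    {r : ℝ} (hr : 0 < r) {u₁ u₂ : E3} (h1 : ‖u₁‖ = 1) (h2 : ‖u₂‖ = 1) (h12 : u₁ ≠ u₂)
    (hloc : B ∩ ball a r = {x | ∃ t : ℝ, 0 ≤ t ∧ t < r ∧ (x = a + t • u₁ ∨ x = a + t • u₂)}) :
    g.linearIsometryEquiv (g.linearIsometryEquiv u₁) = u₁ ∧
      g.linearIsometryEquiv (g.linearIsometryEquiv u₂) = u₂ := by
  set L := g.linearIsometryEquiv with hL
  have hlin : ∀ v : E3, g (a + v) = a + L v := by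
    intro v
    have := g.map_vadd a v
    simp only [vadd_eq_add] at this
    rw [add_comm a v, this, ha, add_comm]
  have hperm : ∀ u : E3, ‖u‖ = 1 → (u = u₁ ∨ u = u₂) → (L u = u₁ ∨ L u = u₂) := by
    intro u hu huu
    have hx : a + (r / 2) • u ∈ B ∩ ball a r := by
      rw [hloc]
      refine ⟨r / 2, by positivity, by linarith, ?_⟩
      rcases huu with h | h
      · left; rw [h]
      · right; rw [h]
    have hgx : g (a + (r / 2) • u) ∈ B ∩ ball a r := by
      refine ⟨by rw [← hB]; exact ⟨_, hx.1, rfl⟩, ?_⟩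
      have h3 := hx.2
      rw [mem_ball] at h3 ⊢
      calc dist (g (a + (r / 2) • u)) a = dist (g (a + (r / 2) • u)) (g a) := by rw [ha]
        _ = dist (a + (r / 2) • u) a := g.dist_map _ _
        _ < r := h3
    rw [hlin, map_smul, hloc] at hgx
    obtain ⟨t, ht0, -, ht⟩ := hgx
    have key : ∀ v : E3, ‖v‖ = 1 → a + (r / 2) • L u = a + t • v → L u = v := by
      intro v hv h
      have h4 : (r / 2) • L u = t • v := add_left_cancel h
      have h5 : r / 2 = t := by
        have := congrArg norm h4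
        rw [norm_smul, norm_smul, L.norm_map, hu, hv, mul_one, mul_one,
          Real.norm_of_nonneg (by positivity), Real.norm_of_nonneg ht0] at this
        exact this
      rw [← h5] at h4
      exact smul_right_injective E3 (by positivity : r / 2 ≠ 0) h4
    rcases ht with h | h
    · exact Or.inl (key u₁ h1 h)
    · exact Or.inr (key u₂ h2 h)
  have p1 := hperm u₁ h1 (Or.inl rfl)
  have p2 := hperm u₂ h2 (Or.inr rfl)
  rcases p1 with p1 | p1
  · rcases p2 with p2 | p2
    · exact absurd (L.injective (p1.trans p2.symm)) h12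
    · exact ⟨by rw [p1, p1], by rw [p2, p2]⟩
  · rcases p2 with p2 | p2
    · exact ⟨by rw [p1, p2], by rw [p2, p1]⟩
    · exact absurd (L.injective (p1.trans p2.symm)) h12

theorem involution {P H₁ H₂ : Set E3} (hPc : Convex ℝ P) (hcomp : IsCompact P)
    (hint : (interior P).Nonempty) (hS : Splits P H₁ H₂)
    (hB : LocallyTwoSegments (H₁ ∩ H₂)) (g : E3 ≃ᵃⁱ[ℝ] E3) (hg : g '' H₁ = H₂)
    (hw : ∃ w : E3, w ≠ 0 ∧ g.linearIsometryEquiv w = w) : ∀ x, g (g x) = x := by
  obtain ⟨w, hw0, hLw⟩ := hw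
  set L := g.linearIsometryEquiv with hL
  set B := H₁ ∩ H₂ with hBdef
  have hBg : g '' B = B := belt_image hPc hcomp hint hS g hg
  have hfrP : frontier P ⊆ P := hcomp.isClosed.frontier_subset
  have hBP : B ⊆ P := fun x hx => hfrP (hS.cover ▸ Or.inl hx.1)
  have hc1 : IsClosed H₁ := by rw [← hS.reg₁]; exact isClosed_closure
  have hc2 : IsClosed H₂ := by rw [← hS.reg₂]; exact isClosed_closure
  have hBc : IsClosed B := hc1.inter hc2
  -- a fixed point in the hull of the belt
  have hKP : closure (convexHull ℝ B) ⊆ P :=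
    closure_minimal (convexHull_min hBP hPc) hcomp.isClosed
  have hKcomp : IsCompact (closure (convexHull ℝ B)) :=
    hcomp.of_isClosed_subset isClosed_closure hKP
  have hKne : (closure (convexHull ℝ B)).Nonempty :=
    ((belt_nonempty hPc hcomp hint hS g hg).convexHull).closure
  have hKg : ∀ x ∈ closure (convexHull ℝ B), g x ∈ closure (convexHull ℝ B) := by
    intro x hx
    refine map_mem_closure g.continuous hx (fun y hy => ?_)
    have h1 := (g.toAffineEquiv : E3 →ᵃ[ℝ] E3).image_convexHull B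
    have h2 : g '' convexHull ℝ B = convexHull ℝ (g '' B) := h1
    rw [hBg] at h2
    rw [← h2]
    exact ⟨y, hy, rfl⟩
  obtain ⟨c, hcK, hgc⟩ := fixed_point (convex_convexHull ℝ B).closure hKcomp hKne g hKg
  have hcP : c ∈ P := hKP hcK
  have hlin : ∀ (y v : E3), g (y + v) = g y + L v := by
    intro y v
    have := g.map_vadd y v
    simp only [vadd_eq_add] at this
    rw [add_comm y v, this, add_comm]
  have hline : ∀ t : ℝ, g (c + t • w) = c + t • w := by
    intro t
    rw [hlin, hgc, map_smul, hLw]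
  -- fixed points of the surface are on the belt
  have hfixB : ∀ x ∈ frontier P, g x = x → x ∈ B := by
    intro x hx hgx
    rw [← hS.cover] at hx
    by_cases h1 : x ∈ H₁
    · by_cases h2 : x ∈ H₂
      · exact ⟨h1, h2⟩
      · have := off_maps hPc hcomp hint hS g hg ⟨h1, h2⟩
        rw [hgx] at this
        exact absurd h1 this.2
    · have h2 : x ∈ H₂ := hx.resolve_left h1
      have h3 : g x ∈ H₂ \ H₁ := by rw [hgx]; exact ⟨h2, h1⟩
      have := (off_iff hPc hcomp hint hS g hg x).1 h3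
      exact absurd this.1 h1
  let φ : ℝ → E3 := fun t => c + t • w
  have hφ : Continuous φ := by fun_prop
  -- the axis leaves P
  obtain ⟨R, hR⟩ := hcomp.isBounded.exists_norm_le
  have hfar : c + ((R + ‖c‖ + 1) / ‖w‖) • w ∉ P := by
    intro hmem
    have h1 := hR _ hmem
    have hwpos : 0 < ‖w‖ := norm_pos_iff.2 hw0
    have hR0 : 0 ≤ R := le_trans (norm_nonneg _) h1
    have h2 : ‖((R + ‖c‖ + 1) / ‖w‖) • w‖ = R + ‖c‖ + 1 := by
      rw [norm_smul, Real.norm_of_nonneg (by positivity)]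
      field_simp
    have h3 : ‖((R + ‖c‖ + 1) / ‖w‖) • w‖ ≤ ‖c + ((R + ‖c‖ + 1) / ‖w‖) • w‖ + ‖c‖ := by
      have := norm_sub_le (c + ((R + ‖c‖ + 1) / ‖w‖) • w) c
      simpa using this
    linarith
  have hn : ∃ t : ℝ, c + t • w ∈ frontier P := by
    have hne : (frontier (φ ⁻¹' P)).Nonempty := by
      rw [nonempty_frontier_iff]
      refine ⟨⟨0, by simpa [φ] using hcP⟩, fun huniv => hfar ?_⟩
      have : ((R + ‖c‖ + 1) / ‖w‖) ∈ φ ⁻¹' P := by rw [huniv]; exact mem_univ _
      exact this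
    obtain ⟨t, ht⟩ := hne
    exact ⟨t, hφ.frontier_preimage_subset P ht⟩
  obtain ⟨t0, ht0⟩ := hn
  have ht0B : c + t0 • w ∈ B := hfixB _ ht0 (hline t0)
  -- a fixed point of the belt with a transversal branch
  have htrans : ∃ t : ℝ, c + t • w ∈ B ∧ ∃ r : ℝ, 0 < r ∧ ∃ u₁ u₂ : E3, ‖u₁‖ = 1 ∧ ‖u₂‖ = 1 ∧
      u₁ ≠ u₂ ∧ B ∩ ball (c + t • w) r =
        {x | ∃ s : ℝ, 0 ≤ s ∧ s < r ∧ (x = c + t • w + s • u₁ ∨ x = c + t • w + s • u₂)} ∧
      ((∀ α : ℝ, α • w ≠ u₁) ∨ (∀ α : ℝ, α • w ≠ u₂)) := by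
    by_contra hcon
    have hopen : IsOpen (φ ⁻¹' B) := by
      rw [Metric.isOpen_iff]
      intro t ht
      obtain ⟨r, hr, u₁, u₂, h1, h2, h12, hloc⟩ := hB _ ht
      have hpar : ¬ ((∀ α : ℝ, α • w ≠ u₁) ∨ (∀ α : ℝ, α • w ≠ u₂)) := fun h =>
        hcon ⟨t, ht, r, hr, u₁, u₂, h1, h2, h12, hloc, h⟩
      push Not at hpar
      obtain ⟨⟨α, hα⟩, ⟨β, hβ⟩⟩ := hpar
      have hwpos : 0 < ‖w‖ := norm_pos_iff.2 hw0
      have hα1 : |α| * ‖w‖ = 1 := by
        rw [← Real.norm_eq_abs, ← norm_smul, hα]; exact h1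
      have hβ1 : |β| * ‖w‖ = 1 := by
        rw [← Real.norm_eq_abs, ← norm_smul, hβ]; exact h2
      have hαβ : α ≠ β := by
        intro h
        apply h12
        rw [← hα, ← hβ, h]
      have hαβ' : β = -α := by
        have h3 : |α| = |β| := by
          have : |α| * ‖w‖ = |β| * ‖w‖ := by rw [hα1, hβ1]
          exact mul_right_cancel₀ hwpos.ne' this
        rcases abs_eq_abs.1 h3 with h | h
        · exact absurd h hαβ
        · rw [h]; ring
      refine ⟨r / ‖w‖, by positivity, ?_⟩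
      intro t' ht'
      rw [mem_ball, Real.dist_eq, lt_div_iff₀ hwpos] at ht'
      have hα0 : α ≠ 0 := by
        intro h
        rw [h, abs_zero, zero_mul] at hα1
        exact one_ne_zero hα1.symm
      have hmem : c + t' • w ∈ B ∩ ball (c + t • w) r := by
        have hloc' : B ∩ ball (c + t • w) r = {x | ∃ s : ℝ, 0 ≤ s ∧ s < r ∧
          (x = c + t • w + s • u₁ ∨ x = c + t • w + s • u₂)} := hloc
        rw [hloc']
        have hs : |(t' - t) / α| < r := by
          have : |(t' - t) / α| = |t' - t| * ‖w‖ := by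
            rw [abs_div, div_eq_iff (abs_ne_zero.2 hα0), mul_assoc, mul_comm ‖w‖, hα1, mul_one]
          rw [this]; exact ht'
        rcases le_total 0 ((t' - t) / α) with h | h
        · refine ⟨(t' - t) / α, h, (le_abs_self _).trans_lt hs, Or.inl ?_⟩
          rw [← hα, smul_smul, div_mul_cancel₀ _ hα0, sub_smul]
          abel
        · refine ⟨-((t' - t) / α), by linarith, (neg_le_abs _).trans_lt hs, Or.inr ?_⟩
          rw [← hβ, hαβ', smul_smul, neg_mul_neg, div_mul_cancel₀ _ hα0, sub_smul]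
          abel
      exact hmem.1
    have hclosed : IsClosed (φ ⁻¹' B) := hBc.preimage hφ
    have huniv := IsClopen.eq_univ ⟨hclosed, hopen⟩ ⟨t0, ht0B⟩
    have : ((R + ‖c‖ + 1) / ‖w‖) ∈ φ ⁻¹' B := by rw [huniv]; exact mem_univ _
    exact hfar (hBP this)
  obtain ⟨t, htB, r, hr, u₁, u₂, h1, h2, h12, hloc, hpar⟩ := htrans
  obtain ⟨q1, q2⟩ := branches g hBg (hline t) hr h1 h2 h12 hloc
  have hW : ∃ W : Submodule ℝ E3, Module.finrank ℝ W = 2 ∧ ∀ x ∈ W, L (L x) = x := by
    have key : ∀ u : E3, (∀ α : ℝ, α • w ≠ u) → L (L u) = u →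
        ∃ W : Submodule ℝ E3, Module.finrank ℝ W = 2 ∧ ∀ x ∈ W, L (L x) = x := by
      intro u hu hLu
      refine ⟨Submodule.span ℝ (Set.range ![w, u]), ?_, ?_⟩
      · rw [finrank_span_eq_card ((LinearIndependent.pair_iff' hw0).2 hu)]
        simp
      · intro x hx
        induction hx using Submodule.span_induction with
        | mem x hx =>
          obtain ⟨i, rfl⟩ := hx
          fin_cases i
          · show L (L w) = w
            rw [hLw, hLw]
          · exact hLu
        | zero => simp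
        | add x y _ _ hx hy => rw [map_add, map_add, hx, hy]
        | smul c x _ hx => rw [map_smul, map_smul, hx]
    rcases hpar with h | h
    · exact key u₁ h q1
    · exact key u₂ h q2
  obtain ⟨W, hW2, hWfix⟩ := hW
  have hsq := square_fix L W hW2 hWfix
  intro x
  have e1 : x = c + (x - c) := by abel
  have e2 : g x = c + L (x - c) := by
    conv_lhs => rw [e1]
    rw [hlin, hgc]
  rw [e2, hlin, hgc, hsq]
  abel

/-! ### The theorem -/

/-- The linear part of an isometry of space. -/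
noncomputable def linearPart (g : E3 ≃ᵢ E3) : E3 ≃ₗᵢ[ℝ] E3 :=
  g.toRealAffineIsometryEquiv.linearIsometryEquiv

/-- The linear part is the linear map `L` with `g (x + v) = g x + L v`. -/
theorem linearPart_spec (g : E3 ≃ᵢ E3) (x v : E3) : g (x + v) = g x + linearPart g v := by
  have := g.toRealAffineIsometryEquiv.map_vadd x v
  simp only [vadd_eq_add] at this
  rw [add_comm x v]
  refine Eq.trans this ?_
  rw [add_comm]
  rfl

/-- The matrix of the linear part of `g`: its columns are the vectors `g(e_j) - g(0)`. -/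
noncomputable def linearMatrix (g : E3 → E3) : Matrix (Fin 3) (Fin 3) ℝ :=
  fun i j => g (EuclideanSpace.single j 1) i - g 0 i

theorem det_linearMatrix (g : E3 ≃ᵢ E3) :
    (linearMatrix g).det = LinearMap.det ((linearPart g).toLinearEquiv : E3 →ₗ[ℝ] E3) := by
  let b := (EuclideanSpace.basisFun (Fin 3) ℝ)
  rw [← LinearMap.det_toMatrix b.toBasis]
  congr 1
  ext i j
  rw [LinearMap.toMatrix_apply, OrthonormalBasis.coe_toBasis_repr_apply]
  have h := linearPart_spec g 0 (EuclideanSpace.single j 1)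
  rw [zero_add] at h
  have h2 : b.toBasis j = EuclideanSpace.single j 1 := by
    rw [OrthonormalBasis.coe_toBasis]
    exact EuclideanSpace.basisFun_apply (Fin 3) ℝ j
  rw [h2]
  have h3 : b.repr (linearPart g (EuclideanSpace.single j 1)) i =
      linearPart g (EuclideanSpace.single j 1) i := rfl
  refine Eq.trans ?_ h3.symm
  unfold linearMatrix
  rw [h]
  simp

/-- Let the surface of a convex polyhedron `P` be split by a belt `B = H₁ ∩ H₂`, which near each of
its points is the union of two segments (a simple polygon), into two closed regions, and let `g` be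
an isometry of space with `g(H₁) = H₂`. Then either `g` is an involution, not the identity, it
exchanges `H₁` and `H₂`, and it is a symmetry of `P`, or `g` is not an involution, the determinant of
its linear part is not one and its linear part fixes no nonzero vector (`g` is a rotoreflection). -/
theorem result (P H₁ H₂ : Set E3) (hP : IsConvexPolyhedron P) (hS : Splits P H₁ H₂)
    (hB : LocallyTwoSegments (H₁ ∩ H₂)) (g : E3 ≃ᵢ E3) (hg : g '' H₁ = H₂) :
    ((∀ x, g (g x) = x) ∧ (∃ x, g x ≠ x) ∧ g '' H₂ = H₁ ∧ g '' P = P) ∨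
    (¬ (∀ x, g (g x) = x) ∧ (linearMatrix g).det ≠ 1 ∧
      ∀ w : E3, (∀ x, g (x + w) = g x + w) → w = 0) := by
  obtain ⟨hint, S, hSf, hPS⟩ := hP
  have hPc : Convex ℝ P := by rw [hPS]; exact convex_convexHull ℝ S
  have hcomp : IsCompact P := by rw [hPS]; exact hSf.isCompact_convexHull ℝ
  by_cases hinv : ∀ x, g (g x) = x
  swap
  · right
    have hno : ¬ ∃ w : E3, w ≠ 0 ∧ linearPart g w = w := fun hw =>
      hinv (involution hPc hcomp hint hS hB g.toRealAffineIsometryEquiv hg hw)
    refine ⟨hinv, fun h => hno (fixed_vector _ ?_), fun w hw => ?_⟩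
    · rw [← det_linearMatrix]; exact h
    · by_contra h0
      refine hno ⟨w, h0, ?_⟩
      have h1 := hw 0
      rw [linearPart_spec] at h1
      exact add_left_cancel h1
  left
  have hgH2 : g '' H₂ = H₁ := by
    rw [← hg, Set.image_image]
    simp [hinv]
  have hfr : g '' frontier P = frontier P := by
    rw [← hS.cover, Set.image_union, hg, hgH2, union_comm]
  have hhull : convexHull ℝ (frontier P) = P := by
    apply Subset.antisymm
    · exact convexHull_min hcomp.isClosed.frontier_subset hPc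
    · have hfin : (P.extremePoints ℝ).Finite := by
        apply hSf.subset
        rw [hPS]
        exact extremePoints_convexHull_subset
      have h1 := closure_convexHull_extremePoints hcomp hPc
      rw [(hfin.isCompact_convexHull ℝ).isClosed.closure_eq] at h1
      conv_lhs => rw [← h1]
      exact convexHull_mono (fun v hv => extreme_frontier hv)
  refine ⟨hinv, ?_, hgH2, ?_⟩
  · by_contra h1
    push Not at h1
    have h12 : H₁ = H₂ := by
      have h2 : (g : E3 → E3) = id := funext h1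
      rw [← hg, h2, Set.image_id]
    have hne := belt_nonempty hPc hcomp hint hS g.toRealAffineIsometryEquiv hg
    have h0 := hS.reg₁
    rw [h12, sdiff_self, closure_empty] at h0
    rw [← h0, Set.inter_empty] at hne
    exact Set.not_nonempty_empty hne
  · have h1 := (g.toRealAffineIsometryEquiv.toAffineEquiv :
      E3 →ᵃ[ℝ] E3).image_convexHull (frontier P)
    have h2 : g '' convexHull ℝ (frontier P) = convexHull ℝ (g '' frontier P) := h1
    rw [hfr, hhull] at h2
    exact h2

end Pool.Agent.Results.MP_790b9f_lc.ProperCongruence
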