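import Mathlib

set_option autoImplicit false

open Set Metric Topology

namespace Pool.Agent.Results.MP_790b9f_lc.VerticesOffTheBelt

/-- Euclidean three-space. -/
abbrev E3 := EuclideanSpace ℝ (Fin 3)

/-- A convex polyhedron: the convex hull of a finite set of points, with non-empty interior. -/
def IsConvexPolyhedron (P : Set E3) : Prop :=
  (interior P).Nonempty ∧ ∃ S : Set E3, S.Finite ∧ P = convexHull ℝ S

/-- The vertices of `P` are its extreme points. -/
def vertices (P : Set E3) : Set E3 := P.extremePoints ℝ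

/-- `H₁` and `H₂` are two closed regions of the surface `∂P` which cover it and meet in the
common boundary `B = H₁ ∩ H₂`: each of them is the closure of its part off `B`. -/
structure Splits (P H₁ H₂ : Set E3) : Prop where
  cover : H₁ ∪ H₂ = frontier P
  reg₁ : closure (H₁ \ H₂) = H₁
  reg₂ : closure (H₂ \ H₁) = H₂

/-- The surface of `P` near `v` is congruent to the surface of `P` near `w`. -/
def LocCong (P : Set E3) (v w : E3) : Prop :=
  ∃ (h : E3 ≃ᵢ E3) (r : ℝ), 0 < r ∧ h v = w ∧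
    h '' (frontier P ∩ ball v r) = frontier P ∩ ball w r

/-! ### Gauge lemma: local inclusion of boundaries -/

theorem local_zero {P Q : Set E3} (hPc : Convex ℝ P) (hQc : Convex ℝ Q)
    (hP0 : P ∈ 𝓝 (0 : E3)) (hQ0 : Q ∈ 𝓝 (0 : E3)) {b : E3} (hb : b ∈ frontier Q)
    {r : ℝ} (hr : 0 < r) (hsub : frontier Q ∩ ball b r ⊆ frontier P) :
    ∃ r' > 0, frontier P ∩ ball b r' ⊆ frontier Q := by
  have hcont : Continuous (gauge Q) := continuous_gauge hQc hQ0
  have hb1 : gauge Q b = 1 := (gauge_eq_one_iff_mem_frontier hQc hQ0).2 hb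
  have hq : ContinuousAt (fun p : E3 => (gauge Q p)⁻¹ • p) b := by
    have h1 : ContinuousAt (fun p : E3 => (gauge Q p)⁻¹) b :=
      (hcont.continuousAt).inv₀ (by rw [hb1]; exact one_ne_zero)
    have h2 : ContinuousAt (fun p : E3 => p) b := continuousAt_id
    exact h1.smul h2
  have hq' : Filter.Tendsto (fun p : E3 => (gauge Q p)⁻¹ • p) (𝓝 b) (𝓝 b) := by
    have := hq.tendsto
    simpa [hb1] using this
  have e1 : ∀ᶠ p in 𝓝 b, (gauge Q p)⁻¹ • p ∈ ball b r := hq' (ball_mem_nhds b hr)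
  have e2 : ∀ᶠ p in 𝓝 b, 0 < gauge Q p :=
    hcont.continuousAt.eventually (lt_mem_nhds (by rw [hb1]; exact one_pos))
  obtain ⟨r', hr', hball⟩ := Metric.eventually_nhds_iff_ball.1 (e1.and e2)
  refine ⟨r', hr', ?_⟩
  rintro p ⟨hp, hpb⟩
  obtain ⟨h1, h2⟩ := hball p hpb
  have hqf : (gauge Q p)⁻¹ • p ∈ frontier Q := by
    rw [← gauge_eq_one_iff_mem_frontier hQc hQ0, gauge_smul_of_nonneg (inv_nonneg.2 h2.le)]
    simp [h2.ne']
  have hqP : (gauge Q p)⁻¹ • p ∈ frontier P := hsub ⟨hqf, h1⟩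
  have hp1 : gauge P p = 1 := (gauge_eq_one_iff_mem_frontier hPc hP0).2 hp
  have h3 := (gauge_eq_one_iff_mem_frontier hPc hP0).2 hqP
  rw [gauge_smul_of_nonneg (inv_nonneg.2 h2.le), hp1] at h3
  have h4 : gauge Q p = 1 := by
    simpa using h3
  exact (gauge_eq_one_iff_mem_frontier hQc hQ0).1 h4

theorem local_incl {P Q : Set E3} (hPc : Convex ℝ P) (hQc : Convex ℝ Q) {c : E3}
    (hcP : c ∈ interior P) (hcQ : c ∈ interior Q) {b : E3} (hb : b ∈ frontier Q)
    {r : ℝ} (hr : 0 < r) (hsub : frontier Q ∩ ball b r ⊆ frontier P) :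
    ∃ r' > 0, frontier P ∩ ball b r' ⊆ frontier Q := by
  let τ : E3 ≃ₜ E3 := Homeomorph.addRight c
  have hτ : ∀ x, τ x = x + c := fun x => rfl
  have hfr : ∀ (S : Set E3) (x : E3), x ∈ frontier (τ ⁻¹' S) ↔ x + c ∈ frontier S := by
    intro S x
    rw [← τ.preimage_frontier]
    rfl
  have hPc' : Convex ℝ (τ ⁻¹' P) := by
    have := hPc.translate_preimage_left c
    exact this
  have hQc' : Convex ℝ (τ ⁻¹' Q) := by
    have := hQc.translate_preimage_left c
    exact this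
  have hP0 : τ ⁻¹' P ∈ 𝓝 (0 : E3) := by
    apply τ.continuous.continuousAt.preimage_mem_nhds
    rw [hτ, zero_add]
    exact mem_interior_iff_mem_nhds.1 hcP
  have hQ0 : τ ⁻¹' Q ∈ 𝓝 (0 : E3) := by
    apply τ.continuous.continuousAt.preimage_mem_nhds
    rw [hτ, zero_add]
    exact mem_interior_iff_mem_nhds.1 hcQ
  have hb' : b - c ∈ frontier (τ ⁻¹' Q) := by
    rw [hfr, sub_add_cancel]; exact hb
  have hsub' : frontier (τ ⁻¹' Q) ∩ ball (b - c) r ⊆ frontier (τ ⁻¹' P) := by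
    rintro x ⟨hx1, hx2⟩
    rw [hfr] at hx1 ⊢
    apply hsub ⟨hx1, ?_⟩
    rw [mem_ball, dist_eq_norm] at hx2 ⊢
    have : x + c - b = x - (b - c) := by abel
    rwa [this]
  obtain ⟨r', hr', h⟩ := local_zero hPc' hQc' hP0 hQ0 hb' hr hsub'
  refine ⟨r', hr', ?_⟩
  rintro p ⟨hp1, hp2⟩
  have h1 : p - c ∈ frontier (τ ⁻¹' P) := by rw [hfr, sub_add_cancel]; exact hp1
  have h2 : p - c ∈ ball (b - c) r' := by
    rw [mem_ball, dist_eq_norm] at hp2 ⊢
    have : p - c - (b - c) = p - b := by abel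
    rwa [this]
  have h3 := h ⟨h1, h2⟩
  rwa [hfr, sub_add_cancel] at h3

/-! ### The two bodies overlap -/

theorem overlap {P : Set E3} (hPc : Convex ℝ P) (hcomp : IsCompact P)
    (hint : (interior P).Nonempty) {H₁ H₂ : Set E3} (hcov : H₁ ∪ H₂ = frontier P)
    (g : E3 ≃ᵃⁱ[ℝ] E3) (hg : g '' H₁ = H₂) :
    ∃ c, c ∈ interior P ∧ c ∈ interior (g '' P) := by
  by_contra hcon
  push Not at hcon
  have hgc : Convex ℝ (g '' P) := by
    have := hPc.affine_image (g.toAffineEquiv : E3 →ᵃ[ℝ] E3)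
    exact this
  have hgint : interior (g '' P) = g '' interior P := by
    have := g.toHomeomorph.image_interior P
    exact this.symm
  have hdisj : Disjoint (interior P) (interior (g '' P)) := by
    rw [Set.disjoint_left]
    exact hcon
  obtain ⟨f, u, hf1, hf2⟩ := geometric_hahn_banach_open_open hPc.interior isOpen_interior
    hgc.interior isOpen_interior hdisj
  have hPcl : closure (interior P) = P := by
    rw [hPc.closure_interior_eq_closure_of_nonempty_interior hint, hcomp.isClosed.closure_eq]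
  have hfP : ∀ y ∈ P, f y ≤ u := by
    intro y hy
    rw [← hPcl] at hy
    have hcl : IsClosed {y : E3 | f y ≤ u} := isClosed_le f.continuous continuous_const
    exact closure_minimal (fun z hz => (hf1 z hz).le) hcl hy
  have hfg : ∀ y ∈ P, u ≤ f (g y) := by
    intro y hy
    rw [← hPcl] at hy
    have hcl : IsClosed {y : E3 | u ≤ f (g y)} :=
      isClosed_le continuous_const (f.continuous.comp g.continuous)
    refine closure_minimal (fun z hz => ?_) hcl hy
    exact (hf2 (g z) (by rw [hgint]; exact ⟨z, hz, rfl⟩)).le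
  have hfrP : frontier P ⊆ P := hcomp.isClosed.frontier_subset
  have hH1 : H₁ ⊆ P := fun x hx => hfrP (hcov ▸ Or.inl hx)
  have hH2 : H₂ ⊆ P := fun x hx => hfrP (hcov ▸ Or.inr hx)
  have hu1 : ∀ x ∈ H₁, f (g x) = u := by
    intro x hx
    have hgx : g x ∈ H₂ := by rw [← hg]; exact ⟨x, hx, rfl⟩
    exact le_antisymm (hfP _ (hH2 hgx)) (hfg x (hH1 hx))
  have hu2 : ∀ x ∈ H₂, f x = u := by
    intro x hx
    obtain ⟨y, hy, rfl⟩ := (hg ▸ hx : x ∈ g '' H₁)
    exact hu1 y hy
  obtain ⟨c, hc⟩ := hint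
  -- a direction parallel to both planes
  let L : E3 →ₗ[ℝ] E3 := g.linearIsometryEquiv.toLinearEquiv.toLinearMap
  let F : E3 →ₗ[ℝ] (Fin 2 → ℝ) :=
    LinearMap.pi ![(f : E3 →ₗ[ℝ] ℝ), (f : E3 →ₗ[ℝ] ℝ).comp L]
  have hker : LinearMap.ker F ≠ ⊥ := by
    apply LinearMap.ker_ne_bot_of_finrank_lt
    simp
  obtain ⟨w, hw, hw0⟩ := (Submodule.ne_bot_iff _).1 hker
  have hFw : F w = 0 := LinearMap.mem_ker.1 hw
  have hw1 : f w = 0 := by
    have := congrFun hFw 0
    simpa [F] using this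
  have hw2 : f (g.linearIsometryEquiv w) = 0 := by
    have := congrFun hFw 1
    simpa [F, L] using this
  have hgw : ∀ t : ℝ, g (c + t • w) = g c + t • g.linearIsometryEquiv w := by
    intro t
    have := g.map_vadd c (t • w)
    simp only [vadd_eq_add] at this
    rw [add_comm c, this, map_smul, add_comm]
  -- the line through c leaves P
  let φ : ℝ → E3 := fun t => c + t • w
  have hφ : Continuous φ := by fun_prop
  have hn : ∃ t : ℝ, c + t • w ∈ frontier P := by
    have hne : (frontier (φ ⁻¹' P)).Nonempty := by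
      rw [nonempty_frontier_iff]
      refine ⟨⟨0, by simpa [φ] using interior_subset hc⟩, fun huniv => ?_⟩
      obtain ⟨R, hR⟩ := hcomp.isBounded.exists_norm_le
      have hmem : c + ((R + ‖c‖ + 1) / ‖w‖) • w ∈ P := by
        have : ((R + ‖c‖ + 1) / ‖w‖) ∈ φ ⁻¹' P := by rw [huniv]; exact mem_univ _
        exact this
      have h1 := hR _ hmem
      have hwpos : 0 < ‖w‖ := norm_pos_iff.2 hw0
      have hR0 : 0 ≤ R := le_trans (norm_nonneg _) h1
      have h2 : ‖((R + ‖c‖ + 1) / ‖w‖) • w‖ = R + ‖c‖ + 1 := by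
        rw [norm_smul, Real.norm_of_nonneg (by positivity)]
        field_simp
      have h3 : ‖((R + ‖c‖ + 1) / ‖w‖) • w‖ ≤ ‖c + ((R + ‖c‖ + 1) / ‖w‖) • w‖ + ‖c‖ := by
        have := norm_sub_le (c + ((R + ‖c‖ + 1) / ‖w‖) • w) c
        simpa using this
      linarith
    obtain ⟨t, ht⟩ := hne
    exact ⟨t, hφ.frontier_preimage_subset P ht⟩
  obtain ⟨t, hx⟩ := hn
  rw [← hcov] at hx
  have hfc : f c < u := hf1 c hc
  have hfgc : u < f (g c) := hf2 (g c) (by rw [hgint]; exact ⟨c, hc, rfl⟩)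
  rcases hx with hx | hx
  · have h := hu1 _ hx
    simp only [hgw] at h
    rw [map_add, map_smul, hw2, smul_zero, add_zero] at h
    linarith
  · have h := hu2 _ hx
    rw [map_add, map_smul, hw1, smul_zero, add_zero] at h
    linarith

/-! ### Off the belt -/

theorem off_ball {P H₁ H₂ : Set E3} (hS : Splits P H₁ H₂) {x : E3} (hx : x ∈ H₁ \ H₂) :
    ∃ r > 0, frontier P ∩ ball x r ⊆ H₁ \ H₂ := by
  have hcl : IsClosed H₂ := by rw [← hS.reg₂]; exact isClosed_closure
  obtain ⟨r, hr, h⟩ := Metric.isOpen_iff.1 hcl.isOpen_compl x hx.2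
  refine ⟨r, hr, ?_⟩
  rintro y ⟨hy1, hy2⟩
  have hy3 : y ∉ H₂ := h hy2
  rw [← hS.cover] at hy1
  exact ⟨hy1.resolve_right hy3, hy3⟩

theorem image_ball (g : E3 ≃ᵃⁱ[ℝ] E3) (P : Set E3) (x : E3) (r : ℝ) :
    g '' (frontier P ∩ ball x r) = frontier (g '' P) ∩ ball (g x) r := by
  rw [Set.image_inter g.injective]
  congr 1
  · exact g.toHomeomorph.image_frontier P
  · exact g.toIsometryEquiv.image_ball x r

theorem Splits.symm {P H₁ H₂ : Set E3} (hS : Splits P H₁ H₂) : Splits P H₂ H₁ :=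
  ⟨by rw [union_comm]; exact hS.cover, hS.reg₂, hS.reg₁⟩

theorem off_maps {P H₁ H₂ : Set E3} (hPc : Convex ℝ P) (hcomp : IsCompact P)
    (hint : (interior P).Nonempty) (hS : Splits P H₁ H₂)
    (g : E3 ≃ᵃⁱ[ℝ] E3) (hg : g '' H₁ = H₂) {x : E3} (hx : x ∈ H₁ \ H₂) :
    g x ∈ H₂ \ H₁ := by
  have hgx : g x ∈ H₂ := by rw [← hg]; exact ⟨x, hx.1, rfl⟩
  refine ⟨hgx, fun hmem => ?_⟩
  obtain ⟨c, hc1, hc2⟩ := overlap hPc hcomp hint hS.cover g hg
  obtain ⟨r, hr, h⟩ := off_ball hS hx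
  have hxf : x ∈ frontier P := by rw [← hS.cover]; exact Or.inl hx.1
  have hgc : Convex ℝ (g '' P) := hPc.affine_image (g.toAffineEquiv : E3 →ᵃ[ℝ] E3)
  have himg := image_ball g P x r
  have hb : g x ∈ frontier (g '' P) := by
    have : g x ∈ g '' (frontier P ∩ ball x r) := ⟨x, ⟨hxf, mem_ball_self hr⟩, rfl⟩
    rw [himg] at this
    exact this.1
  have hsubH : frontier (g '' P) ∩ ball (g x) r ⊆ H₂ := by
    rw [← himg, ← hg]
    rintro _ ⟨y, hy, rfl⟩
    exact ⟨y, (h hy).1, rfl⟩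
  have hsub : frontier (g '' P) ∩ ball (g x) r ⊆ frontier P := by
    refine hsubH.trans ?_
    rw [← hS.cover]
    exact subset_union_right
  obtain ⟨r', hr', h'⟩ := local_incl hPc hgc hc1 hc2 hb hr hsub
  rw [← hS.reg₁, Metric.mem_closure_iff] at hmem
  obtain ⟨z, hz, hzd⟩ := hmem (min r r') (lt_min hr hr')
  rw [dist_comm] at hzd
  have hzf : z ∈ frontier P := by rw [← hS.cover]; exact Or.inl hz.1
  have hz' : z ∈ frontier (g '' P) :=
    h' ⟨hzf, mem_ball.2 (lt_of_lt_of_le hzd (min_le_right _ _))⟩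
  exact hz.2 (hsubH ⟨hz', mem_ball.2 (lt_of_lt_of_le hzd (min_le_left _ _))⟩)

theorem symm_image {H₁ H₂ : Set E3} (g : E3 ≃ᵃⁱ[ℝ] E3) (hg : g '' H₁ = H₂) :
    g.symm '' H₂ = H₁ := by
  rw [← hg, Set.image_image]
  simp

theorem off_iff {P H₁ H₂ : Set E3} (hPc : Convex ℝ P) (hcomp : IsCompact P)
    (hint : (interior P).Nonempty) (hS : Splits P H₁ H₂)
    (g : E3 ≃ᵃⁱ[ℝ] E3) (hg : g '' H₁ = H₂) (x : E3) :
    g x ∈ H₂ \ H₁ ↔ x ∈ H₁ \ H₂ := by
  constructor
  · intro h
    have := off_maps hPc hcomp hint hS.symm g.symm (symm_image g hg) h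
    simpa using this
  · exact off_maps hPc hcomp hint hS g hg

theorem off_image {P H₁ H₂ : Set E3} (hPc : Convex ℝ P) (hcomp : IsCompact P)
    (hint : (interior P).Nonempty) (hS : Splits P H₁ H₂)
    (g : E3 ≃ᵃⁱ[ℝ] E3) (hg : g '' H₁ = H₂) :
    g '' (H₁ \ H₂) = H₂ \ H₁ := by
  ext y
  constructor
  · rintro ⟨x, hx, rfl⟩
    exact (off_iff hPc hcomp hint hS g hg x).2 hx
  · intro hy
    refine ⟨g.symm y, ?_, by simp⟩
    rw [← off_iff hPc hcomp hint hS g hg]
    simpa using hy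

theorem belt_image {P H₁ H₂ : Set E3} (hPc : Convex ℝ P) (hcomp : IsCompact P)
    (hint : (interior P).Nonempty) (hS : Splits P H₁ H₂)
    (g : E3 ≃ᵃⁱ[ℝ] E3) (hg : g '' H₁ = H₂) :
    g '' (H₁ ∩ H₂) = H₁ ∩ H₂ := by
  have h1 : H₁ ∩ H₂ = H₁ \ (H₁ \ H₂) := by rw [sdiff_sdiff_right_self]
  have h2 : H₁ ∩ H₂ = H₂ \ (H₂ \ H₁) := by rw [sdiff_sdiff_right_self, inter_comm]
  conv_lhs => rw [h1]
  rw [Set.image_sdiff g.injective, hg, off_image hPc hcomp hint hS g hg, ← h2]

/-- local congruence at a point off the belt -/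
theorem off_local {P H₁ H₂ : Set E3} (hPc : Convex ℝ P) (hcomp : IsCompact P)
    (hint : (interior P).Nonempty) (hS : Splits P H₁ H₂)
    (g : E3 ≃ᵃⁱ[ℝ] E3) (hg : g '' H₁ = H₂) {x : E3} (hx : x ∈ H₁ \ H₂) :
    ∃ r > 0, g '' (frontier P ∩ ball x r) = frontier P ∩ ball (g x) r := by
  obtain ⟨r₁, hr₁, h₁⟩ := off_ball hS hx
  obtain ⟨r₂, hr₂, h₂⟩ := off_ball hS.symm (off_maps hPc hcomp hint hS g hg hx)
  have him := off_image hPc hcomp hint hS g hg
  refine ⟨min r₁ r₂, lt_min hr₁ hr₂, ?_⟩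
  have hb := g.toIsometryEquiv.image_ball x (min r₁ r₂)
  have hb' : g '' ball x (min r₁ r₂) = ball (g x) (min r₁ r₂) := hb
  have e1 : frontier P ∩ ball x (min r₁ r₂) = (H₁ \ H₂) ∩ ball x (min r₁ r₂) := by
    apply Subset.antisymm
    · rintro y ⟨hy1, hy2⟩
      exact ⟨h₁ ⟨hy1, ball_subset_ball (min_le_left _ _) hy2⟩, hy2⟩
    · rintro y ⟨hy1, hy2⟩
      exact ⟨by rw [← hS.cover]; exact Or.inl hy1.1, hy2⟩
  have e2 : frontier P ∩ ball (g x) (min r₁ r₂) = (H₂ \ H₁) ∩ ball (g x) (min r₁ r₂) := by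
    apply Subset.antisymm
    · rintro y ⟨hy1, hy2⟩
      exact ⟨h₂ ⟨hy1, ball_subset_ball (min_le_right _ _) hy2⟩, hy2⟩
    · rintro y ⟨hy1, hy2⟩
      exact ⟨by rw [← hS.cover]; exact Or.inr hy1.1, hy2⟩
  rw [e1, e2, Set.image_inter g.injective, him, hb']

/-! ### Extreme points -/

theorem extreme_frontier {P : Set E3} {v : E3} (hv : v ∈ P.extremePoints ℝ) :
    v ∈ frontier P := by
  refine ⟨subset_closure hv.1, fun hint => ?_⟩
  obtain ⟨r, hr, hball⟩ := Metric.isOpen_iff.1 isOpen_interior v hint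
  let e : E3 := EuclideanSpace.single (0 : Fin 3) (1 : ℝ)
  have he : ‖e‖ = 1 := by simp [e]
  have h1 : v + (r / 2) • e ∈ P := by
    apply interior_subset
    apply hball
    rw [mem_ball, dist_eq_norm, add_sub_cancel_left, norm_smul, he, Real.norm_of_nonneg (by positivity)]
    linarith
  have h2 : v - (r / 2) • e ∈ P := by
    apply interior_subset
    apply hball
    rw [mem_ball, dist_eq_norm, sub_sub_cancel_left, norm_neg, norm_smul, he,
      Real.norm_of_nonneg (by positivity)]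
    linarith
  have h3 : v ∈ openSegment ℝ (v + (r / 2) • e) (v - (r / 2) • e) := by
    refine ⟨1 / 2, 1 / 2, by norm_num, by norm_num, by norm_num, ?_⟩
    rw [← smul_add]
    have : v + (r / 2) • e + (v - (r / 2) • e) = (2 : ℝ) • v := by
      rw [two_smul]; abel
    rw [this, smul_smul]
    norm_num
  have h4 := hv.2 h1 h2 h3
  have h5 : (r / 2) • e = 0 := by simpa using h4
  have h6 : ‖(r / 2) • e‖ = r / 2 := by
    rw [norm_smul, he, Real.norm_of_nonneg (by positivity), mul_one]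
  rw [h5, norm_zero] at h6
  linarith

theorem extreme_transfer {P : Set E3} (hPc : Convex ℝ P) (hcl : IsClosed P)
    (hint : (interior P).Nonempty) (g : E3 ≃ᵃⁱ[ℝ] E3) {v : E3} {r : ℝ} (hr : 0 < r)
    (hv : v ∈ P.extremePoints ℝ)
    (hg : g '' (frontier P ∩ ball v r) = frontier P ∩ ball (g v) r) :
    g v ∈ P.extremePoints ℝ := by
  have hgv : g v ∈ frontier P := by
    have : g v ∈ g '' (frontier P ∩ ball v r) := ⟨v, ⟨extreme_frontier hv, mem_ball_self hr⟩, rfl⟩
    rw [hg] at this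
    exact this.1
  have hfrP : frontier P ⊆ P := hcl.frontier_subset
  obtain ⟨f, hf⟩ := geometric_hahn_banach_open_point hPc.interior isOpen_interior
    (x := g v) hgv.2
  have hPcl : closure (interior P) = P := by
    rw [hPc.closure_interior_eq_closure_of_nonempty_interior hint, hcl.closure_eq]
  have hfP : ∀ y ∈ P, f y ≤ f (g v) := by
    intro y hy
    rw [← hPcl] at hy
    have hcl : IsClosed {y : E3 | f y ≤ f (g v)} := isClosed_le f.continuous continuous_const
    exact closure_minimal (fun z hz => (hf z hz).le) hcl hy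
  refine ⟨hfrP hgv, ?_⟩
  rintro a ha b hb ⟨s, t, hs, ht, hst, hab⟩
  -- both ends lie in the supporting plane
  have hfa : f a = f (g v) ∧ f b = f (g v) := by
    have h1 : s * f a + t * f b = f (g v) := by
      rw [← hab, map_add, map_smul, map_smul, smul_eq_mul, smul_eq_mul]
    have ha1 := sub_nonneg.2 (hfP a ha)
    have hb1 := sub_nonneg.2 (hfP b hb)
    have h2 : s * (f (g v) - f a) + t * (f (g v) - f b) = 0 := by
      linear_combination (f (g v)) * hst - h1
    have h3 := mul_nonneg hs.le ha1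
    have h4 := mul_nonneg ht.le hb1
    have h5 : s * (f (g v) - f a) = 0 := by linarith
    have h6 : t * (f (g v) - f b) = 0 := by linarith
    constructor
    · have := (mul_eq_zero.1 h5).resolve_left hs.ne'
      linarith
    · have := (mul_eq_zero.1 h6).resolve_left ht.ne'
      linarith
  have hseg : ∀ q : ℝ, 0 ≤ q → q ≤ 1 → a + q • (b - a) ∈ frontier P := by
    intro q hq0 hq1
    have hmem : a + q • (b - a) ∈ P := by
      have := hPc ha hb (sub_nonneg.2 hq1) hq0 (by ring)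
      have e : a + q • (b - a) = (1 - q) • a + q • b := by
        rw [smul_sub, sub_smul, one_smul]; abel
      rw [e]; exact this
    refine ⟨subset_closure hmem, fun hi => ?_⟩
    have h1 := hf _ hi
    rw [map_add, map_smul, map_sub, hfa.1, hfa.2] at h1
    simp at h1
  have hgve : g v = a + t • (b - a) := by
    rw [← hab, smul_sub]
    have : s = 1 - t := by linarith
    rw [this, sub_smul, one_smul]; abel
  -- a small parameter
  let N : ℝ := ‖b - a‖ + 1
  have hN : 0 < N := by positivity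
  obtain ⟨ε, hε, hε1, hε2, hε3⟩ : ∃ ε : ℝ, 0 < ε ∧ ε ≤ s ∧ ε ≤ t ∧ ε * N < r := by
    refine ⟨min (min s t) (r / (2 * N)), lt_min (lt_min hs ht) (by positivity),
      (min_le_left _ _).trans (min_le_left _ _), (min_le_left _ _).trans (min_le_right _ _), ?_⟩
    have h1 : min (min s t) (r / (2 * N)) ≤ r / (2 * N) := min_le_right _ _
    have h2 : r / (2 * N) * N = r / 2 := by field_simp
    nlinarith
  have hnorm : ‖ε • (b - a)‖ < r := by
    rw [norm_smul, Real.norm_of_nonneg hε.le]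
    have : ‖b - a‖ ≤ N := by simp [N]
    nlinarith
  have hp1 : g v + ε • (b - a) ∈ frontier P ∩ ball (g v) r := by
    constructor
    · rw [hgve]
      have := hseg (t + ε) (by linarith) (by linarith)
      rw [add_smul, ← add_assoc] at this
      exact this
    · rw [mem_ball, dist_eq_norm, add_sub_cancel_left]; exact hnorm
  have hp2 : g v - ε • (b - a) ∈ frontier P ∩ ball (g v) r := by
    constructor
    · rw [hgve]
      have := hseg (t - ε) (by linarith) (by linarith)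
      rw [sub_smul, ← add_sub_assoc] at this
      exact this
    · rw [mem_ball, dist_eq_norm, sub_sub_cancel_left, norm_neg]; exact hnorm
  rw [← hg] at hp1 hp2
  obtain ⟨y1, ⟨hy1, -⟩, he1⟩ := hp1
  obtain ⟨y2, ⟨hy2, -⟩, he2⟩ := hp2
  have hmid : v ∈ openSegment ℝ y1 y2 := by
    refine ⟨1 / 2, 1 / 2, by norm_num, by norm_num, by norm_num, ?_⟩
    apply g.injective
    have h1 : (1 / 2 : ℝ) • y1 + (1 / 2 : ℝ) • y2 = midpoint ℝ y1 y2 := by
      rw [midpoint_eq_smul_add, smul_add]; norm_num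
    rw [h1]
    have h2 : g (midpoint ℝ y1 y2) = midpoint ℝ (g y1) (g y2) := by
      have := g.toAffineEquiv.map_midpoint y1 y2
      exact this
    rw [h2, he1, he2, midpoint_eq_smul_add]
    have : g v + ε • (b - a) + (g v - ε • (b - a)) = (2 : ℝ) • g v := by
      rw [two_smul]; abel
    rw [this, smul_smul]
    norm_num
  have hy12 : y1 = v := hv.2 (hfrP hy1) (hfrP hy2) hmid
  rw [hy12] at he1
  have h0 : ε • (b - a) = 0 := by simpa using he1.symm
  have hba : b - a = 0 := by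
    rcases smul_eq_zero.1 h0 with h | h
    · linarith
    · exact h
  rw [hgve, hba, smul_zero, add_zero]

/-! ### Isometries fixing a plane -/

theorem core (W : Submodule ℝ E3) (hW : Module.finrank ℝ W = 2) :
    ∃ n : E3, (∀ L : E3 ≃ₗᵢ[ℝ] E3, (∀ w ∈ W, L w = w) → L n = n ∨ L n = -n) ∧
      (∀ L L' : E3 →ₗ[ℝ] E3, (∀ w ∈ W, L w = L' w) → L n = L' n → L = L') := by
  have h1 : Module.finrank ℝ Wᗮ = 1 := by
    have := W.finrank_add_finrank_orthogonal
    rw [hW, finrank_euclideanSpace, Fintype.card_fin] at this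
    omega
  obtain ⟨⟨n, hn⟩, hn0, hspan⟩ := finrank_eq_one_iff'.1 h1
  have hspan' : ∀ y ∈ Wᗮ, ∃ c : ℝ, c • n = y := by
    intro y hy
    obtain ⟨c, hc⟩ := hspan ⟨y, hy⟩
    exact ⟨c, congrArg Subtype.val hc⟩
  have hn0' : n ≠ 0 := fun h => hn0 (by ext1; exact h)
  refine ⟨n, ?_, ?_⟩
  · intro L hL
    have hmem : L n ∈ Wᗮ := by
      rw [Submodule.mem_orthogonal]
      intro w hw
      rw [← hL w hw, L.inner_map_map]
      exact (Submodule.mem_orthogonal _ _).1 hn w hw
    obtain ⟨c, hc⟩ := hspan' _ hmem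
    have h2 : ‖c • n‖ = ‖n‖ := by rw [hc, L.norm_map]
    rw [norm_smul] at h2
    have h3 : ‖c‖ = 1 := by
      have hp : ‖n‖ ≠ 0 := norm_ne_zero_iff.2 hn0'
      field_simp at h2
      exact h2
    rw [Real.norm_eq_abs] at h3
    rcases (abs_eq (by norm_num : (0:ℝ) ≤ 1)).1 h3 with h | h
    · left; rw [← hc, h, one_smul]
    · right; rw [← hc, h, neg_smul, one_smul]
  · intro L L' hL hLn
    ext1 x
    obtain ⟨y, hy, z, hz, hx⟩ := W.exists_add_mem_mem_orthogonal x
    obtain ⟨c, hc⟩ := hspan' z hz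
    rw [hx, map_add, map_add, hL y hy, ← hc, map_smul, map_smul, hLn]

theorem fiber_le_two {v1 v2 v3 : E3} (hv : ¬ Collinear ℝ ({v1, v2, v3} : Set E3))
    (w1 w2 w3 : E3) :
    {g : E3 ≃ᵢ E3 | g v1 = w1 ∧ g v2 = w2 ∧ g v3 = w3}.Finite ∧
    {g : E3 ≃ᵢ E3 | g v1 = w1 ∧ g v2 = w2 ∧ g v3 = w3}.ncard ≤ 2 := by
  set G := {g : E3 ≃ᵢ E3 | g v1 = w1 ∧ g v2 = w2 ∧ g v3 = w3} with hG
  rcases G.eq_empty_or_nonempty with he | ⟨g0, hg0⟩
  · rw [he]; simp
  let W : Submodule ℝ E3 := vectorSpan ℝ ({v1, v2, v3} : Set E3)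
  have hW : Module.finrank ℝ W = 2 := by
    have h1 := affineIndependent_iff_not_collinear_set.2 hv
    have h2 := h1.finrank_vectorSpan (n := 2) (by simp)
    have h3 : Set.range ![v1, v2, v3] = {v1, v2, v3} := by
      simp [Matrix.range_cons, Set.insert_def, Set.union_def]
    rw [h3] at h2
    exact h2
  obtain ⟨n, hn1, hn2⟩ := core W hW
  let A : (E3 ≃ᵢ E3) → (E3 ≃ₗᵢ[ℝ] E3) := fun g => g.toRealAffineIsometryEquiv.linearIsometryEquiv
  have hA : ∀ (g : E3 ≃ᵢ E3) (x y : E3), A g (x - y) = g x - g y := by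
    intro g x y
    have := g.toRealAffineIsometryEquiv.map_vsub x y
    simpa using this
  have hWA : ∀ g ∈ G, ∀ g' ∈ G, ∀ w ∈ W, A g w = A g' w := by
    intro g hg g' hg' w hw
    have hw' : w ∈ Submodule.span ℝ ((· -ᵥ v1) '' ({v1, v2, v3} : Set E3)) := by
      rw [← vectorSpan_eq_span_vsub_set_right ℝ (by simp : v1 ∈ ({v1, v2, v3} : Set E3))]
      exact hw
    clear hw
    induction hw' using Submodule.span_induction with
    | mem x hx =>
      obtain ⟨y, hy, rfl⟩ := hx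
      simp only [vsub_eq_sub]
      rw [hA, hA]
      rcases hy with rfl | rfl | rfl
      · simp
      · rw [hg.1, hg.2.1, hg'.1, hg'.2.1]
      · rw [hg.1, hg.2.2, hg'.1, hg'.2.2]
    | zero => simp
    | add x y _ _ hx hy => rw [map_add, map_add, hx, hy]
    | smul c x _ hx => rw [map_smul, map_smul, hx]
  have hmap : ∀ g ∈ G, A g n ∈ ({A g0 n, -(A g0 n)} : Set E3) := by
    intro g hg
    have h := hn1 ((A g).trans (A g0).symm) (fun w hw => by
      rw [LinearIsometryEquiv.trans_apply, hWA g hg g0 hg0 w hw,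
        LinearIsometryEquiv.symm_apply_apply])
    rw [LinearIsometryEquiv.trans_apply] at h
    rcases h with h | h
    · left
      rw [← LinearIsometryEquiv.apply_symm_apply (A g0) (A g n), h]
    · right
      rw [← LinearIsometryEquiv.apply_symm_apply (A g0) (A g n), h, map_neg]
      rfl
  have hinj : Set.InjOn (fun g : E3 ≃ᵢ E3 => A g n) G := by
    intro g hg g' hg' h
    have hL := hn2 (A g).toLinearEquiv.toLinearMap (A g').toLinearEquiv.toLinearMap
      (fun w hw => hWA g hg g' hg' w hw) h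
    ext1 x
    have h1 := hA g x v1
    have h2 := hA g' x v1
    have h3 : A g (x - v1) = A g' (x - v1) := LinearMap.congr_fun hL (x - v1)
    rw [h1, h2, hg.1, hg'.1] at h3
    exact sub_left_injective h3
  have hfin2 : ({A g0 n, -(A g0 n)} : Set E3).Finite := by simp
  have hfin : G.Finite := Set.Finite.of_injOn hmap hinj hfin2
  refine ⟨hfin, ?_⟩
  calc G.ncard ≤ ({A g0 n, -(A g0 n)} : Set E3).ncard :=
        Set.ncard_le_ncard_of_injOn _ hmap hinj hfin2
    _ ≤ 2 := by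
        refine (Set.ncard_insert_le _ _).trans ?_
        simp

theorem not_collinear {P : Set E3} {v1 v2 v3 : E3} (h1 : v1 ∈ P.extremePoints ℝ)
    (h2 : v2 ∈ P.extremePoints ℝ) (h3 : v3 ∈ P.extremePoints ℝ) (h12 : v1 ≠ v2) (h13 : v1 ≠ v3)
    (h23 : v2 ≠ v3) : ¬ Collinear ℝ ({v1, v2, v3} : Set E3) := by
  have key : ∀ x y z : E3, x ∈ P.extremePoints ℝ → y ∈ P.extremePoints ℝ →
      z ∈ P.extremePoints ℝ → x ≠ y → z ≠ y → ¬ Wbtw ℝ x y z := by
    intro x y z hx hy hz hxy hzy hw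
    have hseg : y ∈ segment ℝ x z := mem_segment_iff_wbtw.2 hw
    exact hxy (hy.2 hx.1 hz.1 (mem_openSegment_of_ne_left_right hxy hzy hseg))
  intro h
  rcases h.wbtw_or_wbtw_or_wbtw with h | h | h
  · exact key v1 v2 v3 h1 h2 h3 h12 h23.symm h
  · exact key v2 v3 v1 h2 h3 h1 h23 h13 h
  · exact key v3 v1 v2 h3 h1 h2 h13.symm h12.symm h

theorem vertices_finite {P : Set E3} (hP : IsConvexPolyhedron P) : (vertices P).Finite := by
  obtain ⟨-, S, hSf, hPS⟩ := hP
  apply hSf.subset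
  unfold vertices
  rw [hPS]
  exact extremePoints_convexHull_subset

/-- The isometries of space which carry one half onto the other for some splitting of the surface
of `P` such that at least three vertices of `P` lie in the first half off the belt. -/
def motions (P : Set E3) : Set (E3 ≃ᵢ E3) :=
  {g | ∃ H₁ H₂ : Set E3, Splits P H₁ H₂ ∧ g '' H₁ = H₂ ∧
    3 ≤ (vertices P ∩ (H₁ \ H₂)).ncard}

open Classical in
theorem motions_card {P : Set E3} (hV : (vertices P).Finite)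
    (hmap : ∀ (g : E3 ≃ᵢ E3) (H₁ H₂ : Set E3), Splits P H₁ H₂ → g '' H₁ = H₂ →
      g '' (vertices P ∩ (H₁ \ H₂)) ⊆ vertices P) :
    (motions P).Finite ∧ (motions P).ncard ≤ 2 * (vertices P).ncard ^ 6 := by
  let V : Finset E3 := hV.toFinset
  let F : (E3 × E3 × E3) × (E3 × E3 × E3) → Finset (E3 ≃ᵢ E3) := fun τ =>
    if h : ¬ Collinear ℝ ({τ.1.1, τ.1.2.1, τ.1.2.2} : Set E3) then
      (fiber_le_two h τ.2.1 τ.2.2.1 τ.2.2.2).1.toFinset else ∅
  have hF : ∀ τ, (F τ).card ≤ 2 := by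
    intro τ
    by_cases h : ¬ Collinear ℝ ({τ.1.1, τ.1.2.1, τ.1.2.2} : Set E3)
    · have h2 := (fiber_le_two h τ.2.1 τ.2.2.1 τ.2.2.2).2
      rw [Set.ncard_eq_toFinset_card _ (fiber_le_two h τ.2.1 τ.2.2.1 τ.2.2.2).1] at h2
      simp only [F, dif_pos h]
      exact h2
    · simp only [F, dif_neg h]
      simp
  let T : Finset ((E3 × E3 × E3) × (E3 × E3 × E3)) := (V ×ˢ V ×ˢ V) ×ˢ (V ×ˢ V ×ˢ V)
  have hT : T.card = V.card ^ 6 := by
    simp only [T, Finset.card_product]
    ring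
  have hsub : motions P ⊆ ↑(T.biUnion F) := by
    rintro g ⟨H₁, H₂, hS, hg, h3⟩
    have hfin : (vertices P ∩ (H₁ \ H₂)).Finite := hV.subset inter_subset_left
    obtain ⟨a, b, c, ha, hb, hc, hab, hac, hbc⟩ := (Set.two_lt_ncard_iff hfin).1 h3
    have him : ∀ x ∈ vertices P ∩ (H₁ \ H₂), g x ∈ vertices P :=
      fun x hx => hmap g H₁ H₂ hS hg ⟨x, hx, rfl⟩
    have hnc := not_collinear ha.1 hb.1 hc.1 hab hac hbc
    rw [Finset.mem_coe, Finset.mem_biUnion]
    refine ⟨((a, b, c), (g a, g b, g c)), ?_, ?_⟩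
    · simp only [T, V, Finset.mem_product, Set.Finite.mem_toFinset]
      exact ⟨⟨ha.1, hb.1, hc.1⟩, him a ha, him b hb, him c hc⟩
    · simp only [F, dif_pos hnc]
      rw [Set.Finite.mem_toFinset]
      exact ⟨rfl, rfl, rfl⟩
  have hfin : (motions P).Finite := (Finset.finite_toSet _).subset hsub
  refine ⟨hfin, ?_⟩
  calc (motions P).ncard ≤ (↑(T.biUnion F) : Set (E3 ≃ᵢ E3)).ncard :=
        Set.ncard_le_ncard hsub (Finset.finite_toSet _)
    _ = (T.biUnion F).card := Set.ncard_coe_finset _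
    _ ≤ T.card * 2 := Finset.card_biUnion_le_card_mul _ _ _ (fun τ _ => hF τ)
    _ = 2 * (vertices P).ncard ^ 6 := by
        rw [hT, Set.ncard_eq_toFinset_card _ hV]
        ring

theorem square_id {v1 v2 v3 : E3} (hv : ¬ Collinear ℝ ({v1, v2, v3} : Set E3)) (h : E3 ≃ᵢ E3)
    (h1 : h v1 = v1) (h2 : h v2 = v2) (h3 : h v3 = v3) : h ^ 2 = 1 := by
  obtain ⟨hfin, hcard⟩ := fiber_le_two hv v1 v2 v3
  set G := {g : E3 ≃ᵢ E3 | g v1 = v1 ∧ g v2 = v2 ∧ g v3 = v3} with hG
  by_contra hne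
  have hne1 : h ≠ 1 := fun h' => hne (by rw [h']; simp)
  have hne2 : h ^ 2 ≠ h := fun h' => hne1 (by
    have : h * h = h * 1 := by rw [← pow_two, h', mul_one]
    exact mul_left_cancel this)
  have hG1 : (1 : E3 ≃ᵢ E3) ∈ G := ⟨rfl, rfl, rfl⟩
  have hGh : h ∈ G := ⟨h1, h2, h3⟩
  have hGh2 : h ^ 2 ∈ G := by
    have e : ∀ x, (h ^ 2) x = h (h x) := fun x => by rw [pow_two]; rfl
    refine ⟨?_, ?_, ?_⟩
    · rw [e, h1, h1]
    · rw [e, h2, h2]
    · rw [e, h3, h3]
  have : 2 < G.ncard := (Set.two_lt_ncard_iff hfin).2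
    ⟨1, h, h ^ 2, hG1, hGh, hGh2, fun h' => hne1 h'.symm, fun h' => hne h'.symm,
      fun h' => hne2 h'.symm⟩
  omega

theorem image_extreme {K : Set E3} (g : E3 ≃ᵢ E3) (hK : g '' K = K) {x : E3}
    (hx : x ∈ K.extremePoints ℝ) : g x ∈ K.extremePoints ℝ := by
  have hsymm : ∀ y ∈ K, g.symm y ∈ K := by
    intro y hy
    rw [← hK] at hy
    obtain ⟨z, hz, rfl⟩ := hy
    simpa using hz
  refine ⟨by rw [← hK]; exact ⟨x, hx.1, rfl⟩, ?_⟩
  rintro a ha b hb ⟨s, t, hs, ht, hst, hab⟩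
  have h1 : g.symm (s • a + t • b) = s • g.symm a + t • g.symm b := by
    have := Convex.combo_affine_apply (f := (g.symm.toRealAffineIsometryEquiv.toAffineEquiv :
      E3 →ᵃ[ℝ] E3)) hst (x := a) (y := b)
    exact this
  have h2 : x ∈ openSegment ℝ (g.symm a) (g.symm b) :=
    ⟨s, t, hs, ht, hst, by rw [← h1, hab, IsometryEquiv.symm_apply_apply]⟩
  have h3 := hx.2 (hsymm a ha) (hsymm b hb) h2
  rw [← h3]; simp

theorem finite_order {B : Set E3} (g : E3 ≃ᵢ E3) (hB : g '' B = B)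
    (hpoly : ∃ T : Set E3, T.Finite ∧ T ⊆ B ∧ B ⊆ convexHull ℝ T) (hline : ¬ Collinear ℝ B) :
    (∃ c, g c = c) ∧ ∃ m : ℕ, 0 < m ∧ g ^ m = 1 := by
  obtain ⟨T, hT, hTB, hBT⟩ := hpoly
  set K : Set E3 := convexHull ℝ B with hKdef
  have hKT : K = convexHull ℝ T := Subset.antisymm
    (convexHull_min hBT (convex_convexHull ℝ T)) (convexHull_mono hTB)
  have hKg : g '' K = K := by
    have := (g.toRealAffineIsometryEquiv.toAffineEquiv : E3 →ᵃ[ℝ] E3).image_convexHull B
    have h2 : g '' convexHull ℝ B = convexHull ℝ (g '' B) := this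
    rw [hKdef, h2, hB]
  set F : Set E3 := K.extremePoints ℝ with hF
  have hFT : F ⊆ T := by rw [hF, hKT]; exact extremePoints_convexHull_subset
  have hFfin : F.Finite := hT.subset hFT
  have hKcomp : IsCompact K := by rw [hKT]; exact hT.isCompact_convexHull ℝ
  have hKM : convexHull ℝ F = K := by
    have h1 := closure_convexHull_extremePoints hKcomp (convex_convexHull ℝ B)
    rwa [(hFfin.isCompact_convexHull ℝ).isClosed.closure_eq] at h1
  have hFcol : ¬ Collinear ℝ F := by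
    intro hcol
    apply hline
    have hBF : B ⊆ affineSpan ℝ F := by
      refine (subset_convexHull ℝ B).trans ?_
      rw [← hKdef, ← hKM]
      exact convexHull_subset_affineSpan F
    have hle : vectorSpan ℝ B ≤ vectorSpan ℝ F := by
      rw [← direction_affineSpan ℝ F, AffineSubspace.direction_eq_vectorSpan]
      exact vectorSpan_mono ℝ hBF
    unfold Collinear at hcol ⊢
    exact (Submodule.rank_mono hle).trans hcol
  have h3 : 2 < F.ncard := by
    by_contra hcon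
    push Not at hcon
    apply hFcol
    interval_cases h : F.ncard
    · rw [(Set.ncard_eq_zero hFfin).1 h]; exact collinear_empty ℝ E3
    · obtain ⟨a, ha⟩ := Set.ncard_eq_one.1 h
      rw [ha]; exact collinear_singleton ℝ a
    · obtain ⟨a, b, -, hab⟩ := Set.ncard_eq_two.1 h
      rw [hab]; exact collinear_pair ℝ a b
  obtain ⟨v1, v2, v3, hv1, hv2, hv3, h12, h13, h23⟩ := (Set.two_lt_ncard_iff hFfin).1 h3
  have hnc := not_collinear hv1 hv2 hv3 h12 h13 h23
  have hgF : ∀ x ∈ F, g x ∈ F := fun x hx => image_extreme g hKg hx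
  have himF : g '' F = F := by
    apply Set.eq_of_subset_of_ncard_le _ _ hFfin
    · rintro _ ⟨x, hx, rfl⟩; exact hgF x hx
    · rw [Set.ncard_image_of_injective _ g.injective]
  let A : (E3 ≃ᵢ E3) → (E3 ≃ₗᵢ[ℝ] E3) := fun g => g.toRealAffineIsometryEquiv.linearIsometryEquiv
  have hA : ∀ (g : E3 ≃ᵢ E3) (x y : E3), A g (x - y) = g x - g y := by
    intro g x y
    have := g.toRealAffineIsometryEquiv.map_vsub x y
    simpa using this
  constructor
  · -- the centroid of the extreme points is fixed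
    classical
    let Ff : Finset E3 := hFfin.toFinset
    have hFf : (Ff : Set E3) = F := hFfin.coe_toFinset
    have hsum : ∑ x ∈ Ff, g x = ∑ x ∈ Ff, x := by
      have h1 : Ff.image g = Ff := by
        apply Finset.coe_injective
        rw [Finset.coe_image, hFf, himF]
      conv_rhs => rw [← h1]
      rw [Finset.sum_image (fun a _ b _ h => g.injective h)]
    have hcard : (Ff.card : ℝ) ≠ 0 := by
      have : Ff.Nonempty := ⟨v1, by simpa [Ff] using hv1⟩
      exact_mod_cast this.card_pos.ne'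
    refine ⟨(Ff.card : ℝ)⁻¹ • ∑ x ∈ Ff, x, ?_⟩
    have h2 : ∀ y, g y = g 0 + A g y := by
      intro y
      have := hA g y 0
      rw [sub_zero] at this
      rw [this]; abel
    rw [h2, map_smul, map_sum]
    have h4 : ∑ x ∈ Ff, A g x = ∑ x ∈ Ff, g x - (Ff.card : ℝ) • g 0 := by
      rw [eq_sub_iff_add_eq]
      have : ∑ x ∈ Ff, g x = ∑ x ∈ Ff, (g 0 + A g x) := Finset.sum_congr rfl (fun x _ => h2 x)
      rw [this, Finset.sum_add_distrib, Finset.sum_const, Nat.cast_smul_eq_nsmul]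
      abel
    rw [h4, hsum, smul_sub, smul_smul, inv_mul_cancel₀ hcard, one_smul]
    abel
  · have hfinT : Finite F := hFfin
    let σ : Equiv.Perm F := Equiv.ofBijective (fun x => ⟨g x, hgF x x.2⟩)
      (Finite.injective_iff_bijective.1 (fun x y h => by
        ext1; exact g.injective (congrArg Subtype.val h)))
    have hσ : ∀ x : F, ((σ x : F) : E3) = g x := fun x => rfl
    have hσn : ∀ (k : ℕ) (x : F), (((σ ^ k) x : F) : E3) = (g ^ k) x := by
      intro k
      induction k with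
      | zero => intro x; rfl
      | succ k ih =>
        intro x
        rw [pow_succ', pow_succ', Equiv.Perm.mul_apply, hσ, ih]
        rfl
    obtain ⟨m, hm, hσm⟩ := isOfFinOrder_iff_pow_eq_one.1 (isOfFinOrder_of_finite σ)
    set h : E3 ≃ᵢ E3 := g ^ m with hh
    have hfix : ∀ x ∈ F, h x = x := by
      intro x hx
      have h5 := hσn m ⟨x, hx⟩
      rw [hσm] at h5
      exact h5.symm
    refine ⟨m * 2, by omega, ?_⟩
    rw [pow_mul]
    exact square_id hnc h (hfix v1 hv1) (hfix v2 hv2) (hfix v3 hv3)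

/-! ### The theorem -/

theorem main {P H₁ H₂ : Set E3} (hP : IsConvexPolyhedron P) (hS : Splits P H₁ H₂)
    (g : E3 ≃ᵃⁱ[ℝ] E3) (hg : g '' H₁ = H₂) :
    g '' (H₁ ∩ H₂) = H₁ ∩ H₂ ∧
    g '' (vertices P ∩ (H₁ \ H₂)) = vertices P ∩ (H₂ \ H₁) ∧
    (∀ v ∈ H₁ \ H₂, ∃ r > 0, g '' (frontier P ∩ ball v r) = frontier P ∩ ball (g v) r) := by
  obtain ⟨hint, S, hSf, hPS⟩ := hP
  have hPc : Convex ℝ P := by rw [hPS]; exact convex_convexHull ℝ S
  have hcomp : IsCompact P := by rw [hPS]; exact hSf.isCompact_convexHull ℝ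
  refine ⟨belt_image hPc hcomp hint hS g hg, ?_, fun v hv => off_local hPc hcomp hint hS g hg hv⟩
  ext y
  constructor
  · rintro ⟨x, ⟨hxv, hx⟩, rfl⟩
    obtain ⟨r, hr, h⟩ := off_local hPc hcomp hint hS g hg hx
    exact ⟨extreme_transfer hPc hcomp.isClosed hint g hr hxv h,
      off_maps hPc hcomp hint hS g hg hx⟩
  · rintro ⟨hyv, hy⟩
    have hg' := symm_image g hg
    obtain ⟨r, hr, h⟩ := off_local hPc hcomp hint hS.symm g.symm hg' hy
    exact ⟨g.symm y, ⟨extreme_transfer hPc hcomp.isClosed hint g.symm hr hyv h,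
      off_maps hPc hcomp hint hS.symm g.symm hg' hy⟩, by simp⟩

/-- Let `P` be a convex polyhedron in three-space with `n` vertices.

(A) If the surface of `P` is split by a belt `B = H₁ ∩ H₂` into two closed regions `H₁`, `H₂` which
are congruent in space, `g(H₁) = H₂`, then
(1) `g(B) = B`;
(2) `g` maps the vertices of `P` in `H₁` off the belt bijectively onto those in `H₂` off the belt;
(3) the number of vertices off the belt is twice the number of those in `H₁`, so it is even;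
(4) near every vertex off the belt the surface is congruent to the surface near another vertex off
the belt; so if no two vertices of `P` are locally congruent, all vertices of `P` are on the belt;
(5) if the belt is polygonal and not contained in a line, then `g` has a fixed point and finite
order;
(6) `g` belongs to the set `motions P`, or at most four vertices of `P` are off the belt.

(B) The set `motions P` has at most `2 n ^ 6` elements. -/
theorem result (P : Set E3) (hP : IsConvexPolyhedron P) :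
    (vertices P).Finite ∧
    (∀ (H₁ H₂ : Set E3) (g : E3 ≃ᵢ E3), Splits P H₁ H₂ → g '' H₁ = H₂ →
      g '' (H₁ ∩ H₂) = H₁ ∩ H₂ ∧
      g '' (vertices P ∩ (H₁ \ H₂)) = vertices P ∩ (H₂ \ H₁) ∧
      (vertices P \ (H₁ ∩ H₂)).ncard = 2 * (vertices P ∩ (H₁ \ H₂)).ncard ∧
      (∀ v ∈ vertices P \ (H₁ ∩ H₂), ∃ w ∈ vertices P \ (H₁ ∩ H₂), w ≠ v ∧ LocCong P v w) ∧
      ((∀ v ∈ vertices P, ∀ w ∈ vertices P, LocCong P v w → v = w) →
        vertices P ⊆ H₁ ∩ H₂) ∧
      ((∃ T : Set E3, T.Finite ∧ T ⊆ H₁ ∩ H₂ ∧ H₁ ∩ H₂ ⊆ convexHull ℝ T) →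
        ¬ Collinear ℝ (H₁ ∩ H₂) →
        (∃ c, g c = c) ∧ ∃ m : ℕ, 0 < m ∧ g ^ m = 1) ∧
      (g ∈ motions P ∨ (vertices P \ (H₁ ∩ H₂)).ncard ≤ 4)) ∧
    (motions P).Finite ∧ (motions P).ncard ≤ 2 * (vertices P).ncard ^ 6 := by
  have hfin := vertices_finite hP
  have hmot := motions_card hfin (fun g H₁ H₂ hS hg => by
    have h := (main hP hS g.toRealAffineIsometryEquiv hg).2.1
    have h' : g '' (vertices P ∩ (H₁ \ H₂)) = vertices P ∩ (H₂ \ H₁) := h
    rw [h']
    exact inter_subset_left)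
  refine ⟨hfin, ?_, hmot.1, hmot.2⟩
  intro H₁ H₂ g hS hg
  let g' : E3 ≃ᵃⁱ[ℝ] E3 := g.toRealAffineIsometryEquiv
  have hgg : (g' : E3 → E3) = g := g.coeFn_toRealAffineIsometryEquiv
  have hg' : g' '' H₁ = H₂ := by rw [hgg]; exact hg
  obtain ⟨h1, h2, h3⟩ := main hP hS g' hg'
  obtain ⟨-, -, h3'⟩ := main hP hS.symm g'.symm (symm_image g' hg')
  have hfr : vertices P ⊆ H₁ ∪ H₂ := by
    rw [hS.cover]
    exact fun v hv => extreme_frontier hv
  have hsplit : vertices P \ (H₁ ∩ H₂) =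
      (vertices P ∩ (H₁ \ H₂)) ∪ (vertices P ∩ (H₂ \ H₁)) := by
    ext v
    constructor
    · rintro ⟨hv, hvB⟩
      rcases hfr hv with h | h
      · exact Or.inl ⟨hv, h, fun h' => hvB ⟨h, h'⟩⟩
      · exact Or.inr ⟨hv, h, fun h' => hvB ⟨h', h⟩⟩
    · rintro (⟨hv, h, h'⟩ | ⟨hv, h, h'⟩)
      · exact ⟨hv, fun hB => h' hB.2⟩
      · exact ⟨hv, fun hB => h' hB.1⟩
  have hcard : (vertices P \ (H₁ ∩ H₂)).ncard = 2 * (vertices P ∩ (H₁ \ H₂)).ncard := by
    rw [hsplit, Set.ncard_union_eq _ (hfin.subset inter_subset_left)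
      (hfin.subset inter_subset_left), ← h2, Set.ncard_image_of_injective _ g'.injective, two_mul]
    rw [Set.disjoint_left]
    rintro v ⟨-, hv⟩ ⟨-, hv'⟩
    exact hv.2 hv'.1
  have hpair : ∀ v ∈ vertices P \ (H₁ ∩ H₂),
      ∃ w ∈ vertices P \ (H₁ ∩ H₂), w ≠ v ∧ LocCong P v w := by
    intro v hv
    rw [hsplit] at hv
    rcases hv with hv | hv
    · have hw : g' v ∈ vertices P ∩ (H₂ \ H₁) := by rw [← h2]; exact ⟨v, hv, rfl⟩
      obtain ⟨r, hr, hloc⟩ := h3 v hv.2
      refine ⟨g' v, by rw [hsplit]; exact Or.inr hw, fun h => ?_, g'.toIsometryEquiv, r, hr, rfl,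
        hloc⟩
      rw [h] at hw
      exact hv.2.2 hw.2.1
    · have hv' := hv
      rw [← h2] at hv'
      obtain ⟨w, hw, hwv⟩ := hv'
      have hwe : g'.symm v = w := by rw [← hwv]; simp
      obtain ⟨r, hr, hloc⟩ := h3' v hv.2
      refine ⟨g'.symm v, by rw [hsplit, hwe]; exact Or.inl hw, fun h => ?_,
        g'.symm.toIsometryEquiv, r, hr, rfl, hloc⟩
      rw [← h, hwe] at hv
      exact hw.2.2 hv.2.1
  refine ⟨?_, ?_, hcard, hpair, ?_, ?_, ?_⟩
  · rw [← hgg]; exact h1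
  · rw [← hgg]; exact h2
  · intro hgen v hv
    by_contra hvB
    obtain ⟨w, hw, hne, hloc⟩ := hpair v ⟨hv, hvB⟩
    exact hne (hgen v hv w hw.1 hloc).symm
  · intro hpoly hline
    exact finite_order g (by rw [← hgg]; exact h1) hpoly hline
  · by_cases h : 3 ≤ (vertices P ∩ (H₁ \ H₂)).ncard
    · exact Or.inl ⟨H₁, H₂, hS, hg, h⟩
    · right
      rw [hcard]
      omega

end Pool.Agent.Results.MP_790b9f_lc.VerticesOffTheBelt
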